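import Pool.Agent.J4H72.LV.Phase
set_option autoImplicit false

/-!
# Levels around a front
-/

namespace Pool.Agent.J4H72.LV

open Finset Pool.Agent.TH70.AR Pool.Agent.J4H72.LA

variable {n : ℕ} {A : PastV n → Fin n} {ρ : ℕ}

/-- `N` moves of the rule in the directions of `S` -/
lemma stepsV (hA : ValidV A) (σ : (Fin n → Bool) → Finset (Fin n)) (lev : (Fin n → Bool) → ℕ)
    (N : ℕ) :
    ∀ (S : Finset (Fin n)) (a : Fin n → Bool) (h : PastV n), N ≤ S.card →
      (∀ D ⊆ S, D.card < N → σ (tog a D) = S \ D) →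
      ∃ (I : Finset (Fin n)) (q : PastV n), I ⊆ S ∧ I.card = N ∧
        PlayV A h a q (tog a I) ∧ q.length = N ∧
        ∀ v ∈ q, ∃ D ⊆ I, D.card < N ∧ v = (tog a D, lookV σ lev ρ (tog a D)) := by
  induction N with
  | zero =>
    intro S a h _ _
    exact ⟨∅, [], empty_subset _, rfl, (tog_empty a).symm, rfl, by simp⟩
  | succ N ih =>
    intro S a h hN hσ
    have hσa : σ a = S := by
      have := hσ ∅ (empty_subset _) (by simp)
      rwa [tog_empty, sdiff_empty] at this
    have hSne : S.Nonempty := by rw [← card_pos]; omega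
    set g : ViewV n := lookV σ lev ρ a with hg
    have hga : g a = some (S, lev a) := by rw [hg, lookV_self, hσa]
    set i := A ((a, g) :: h) with hi
    have hiS : i ∈ S := hA a g h S _ hga hSne
    have hdisj : ∀ D ⊆ S.erase i, Disjoint ({i} : Finset (Fin n)) D := by
      intro D hD
      rw [disjoint_singleton_left]
      exact fun h' => (mem_erase.1 (hD h')).1 rfl
    have htog : ∀ D ⊆ S.erase i, tog (tog a {i}) D = tog a (insert i D) := by
      intro D hD
      rw [tog_union (hdisj D hD)]
      rfl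
    obtain ⟨I, q, h1, h2, h3, h4, h5⟩ := ih (S.erase i) (tog a {i}) ((a, g) :: h)
      (by rw [card_erase_of_mem hiS]; omega) (by
        intro D hD hc
        rw [htog D hD, hσ _ (insert_subset hiS (hD.trans (erase_subset _ _)))
          (lt_of_le_of_lt (card_insert_le _ _) (by omega))]
        ext x
        simp only [mem_sdiff, mem_insert, mem_erase, not_or]
        tauto)
    have hiI : i ∉ I := fun h' => (mem_erase.1 (h1 h')).1 rfl
    refine ⟨insert i I, (a, g) :: q, insert_subset hiS (h1.trans (erase_subset _ _)),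
      by rw [card_insert_of_notMem hiI, h2], ⟨rfl, ⟨S, _, hga, hSne⟩, ?_⟩, by simp [h4], ?_⟩
    · rw [← htog I h1]
      have : TH70.AR.flip a i = tog a {i} := flip_eq_tog a i
      change PlayV A ((a, g) :: h) (TH70.AR.flip a i) q _
      rw [this]
      exact h3
    · intro v hv
      rcases List.mem_cons.1 hv with rfl | hv
      · exact ⟨∅, empty_subset _, by simp, by rw [tog_empty]⟩
      · obtain ⟨D, h6, h7, h8⟩ := h5 v hv
        rw [htog D (h6.trans h1)] at h8
        exact ⟨insert i D, insert_subset_insert _ h6,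
          lt_of_le_of_lt (card_insert_le _ _) (by omega), h8⟩

/-- the shape of the vertices which are reached -/
lemma rch_shape {σ : (Fin n → Bool) → Finset (Fin n)} {p : Fin n → Bool}
    (Φ : Finset (Fin n) → Prop)
    (hΦ : ∀ E, Φ E → ∀ i ∈ σ (tog p E), i ∉ E ∧ Φ (insert i E)) (m : ℕ) {D : Finset (Fin n)}
    {z : Fin n → Bool} (hD : Φ D) (h : Rch σ m (tog p D) z) :
    ∃ E, D ⊆ E ∧ (E \ D).card ≤ m ∧ Φ E ∧ z = tog p E := by
  induction m generalizing z with
  | zero => exact ⟨D, Subset.refl _, by simp, hD, h⟩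
  | succ m ih =>
    rcases h with h | ⟨y, h, i, hi, rfl⟩
    · obtain ⟨E, h1, h2, h3⟩ := ih h
      exact ⟨E, h1, by omega, h3⟩
    · obtain ⟨E, h1, h2, h3, rfl⟩ := ih h
      obtain ⟨h4, h5⟩ := hΦ E h3 i hi
      refine ⟨insert i E, h1.trans (subset_insert _ _), ?_, h5, ?_⟩
      · have h6 : insert i E \ D ⊆ insert i (E \ D) := by
          intro j hj
          rw [mem_sdiff, mem_insert] at hj
          rw [mem_insert, mem_sdiff]
          tauto
        have h7 := card_le_card h6
        have h8 := card_insert_le i (E \ D)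
        omega
      · rw [flip_tog, if_neg h4]

/-- the level of a vertex: beyond the front the levels begin at `Λ + n + 1` -/
def lvl (Λ : ℕ) (t t' : Fin n → Bool) (S : Finset (Fin n)) (N : ℕ) (z : Fin n → Bool) : ℕ :=
  if Frt t S N z then Λ + n + 1 + agr z t' else Λ + agr z t

section lvl

variable {Λ N : ℕ} {t t' : Fin n → Bool} {S : Finset (Fin n)}

lemma lvl_pos {z : Fin n → Bool} (h : Frt t S N z) : lvl Λ t t' S N z = Λ + n + 1 + agr z t' :=
  if_pos h

lemma lvl_neg {z : Fin n → Bool} (h : ¬ Frt t S N z) : lvl Λ t t' S N z = Λ + agr z t := if_neg h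

lemma frt_of_lvl {z : Fin n → Bool} (h : Λ + n + 1 ≤ lvl Λ t t' S N z) : Frt t S N z := by
  by_contra h1
  rw [lvl_neg h1] at h
  have := agr_le z t
  omega

lemma not_frt_of_lvl {z : Fin n → Bool} (h : lvl Λ t t' S N z ≤ Λ + n) : ¬ Frt t S N z := by
  intro h1
  rw [lvl_pos h1] at h
  omega

/-- the level increases along the edges -/
lemma lvl_lt {u : Fin n → Bool} {i : Fin n}
    (h : frf t t' S N u < frf t t' S N (TH70.AR.flip u i)) :
    lvl Λ t t' S N u < lvl Λ t t' S N (TH70.AR.flip u i) := by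
  unfold frf at h
  by_cases h1 : Frt t S N u
  · by_cases h2 : Frt t S N (TH70.AR.flip u i)
    · rw [stack_lt_pos h1 h2] at h
      rw [lvl_pos h1, lvl_pos h2]
      omega
    · have := stack_lt (g := fun u => agr u t') (f := fun u => agr u t) h2 h1
      omega
  · by_cases h2 : Frt t S N (TH70.AR.flip u i)
    · rw [lvl_neg h1, lvl_pos h2]
      have := agr_le u t
      omega
    · rw [stack_lt_neg h1 h2] at h
      rw [lvl_neg h1, lvl_neg h2]
      omega

lemma lvl_to {Y : Finset (Fin n)} {u s : Fin n → Bool} (h : To Y (frf t t' S N) u s) :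
    lvl Λ t t' S N u < lvl Λ t t' S N s ∨ u = s := by
  induction h with
  | refl => exact Or.inr rfl
  | @tail y y1 _ h2 ih =>
    obtain ⟨i, hi, rfl, h3⟩ := h2
    have h4 := lvl_lt (Λ := Λ) h3
    rcases ih with ih | rfl
    · exact Or.inl (ih.trans h4)
    · exact Or.inl h4

/-- paths in the region before the front -/
lemma path_before {Y : Finset (Fin n)} {u s : Fin n → Bool} (hs : ¬ Frt t S N s)
    (h : To Y (frf t t' S N) u s) : ¬ Frt t S N u ∧ Le t u s := by
  induction h using Relation.ReflTransGen.head_induction_on with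
  | refl => exact ⟨hs, le_refl' _ _⟩
  | @head u u1 h1 _ ih =>
    obtain ⟨i, hi, rfl, h3⟩ := h1
    obtain ⟨h4, h5⟩ := ih
    have h6 : ¬ Frt t S N u := by
      intro h6
      unfold frf at h3
      have := stack_lt (g := fun u => agr u t') (f := fun u => agr u t) h4 h6
      omega
    exact ⟨h6, h5.head ((frf_neg h6).1 h3)⟩

/-- paths in the region beyond the front -/
lemma path_beyond (htt : ∀ i ∈ S, t' i = t i) {Y : Finset (Fin n)} {u s : Fin n → Bool}
    (hu : Frt t S N u) (h : To Y (frf t t' S N) u s) : Frt t S N s ∧ Le t' u s := by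
  induction h with
  | refl => exact ⟨hu, le_refl' _ _⟩
  | @tail y y1 _ h2 ih =>
    obtain ⟨i, hi, rfl, h3⟩ := h2
    obtain ⟨h4, h5⟩ := ih
    have h6 := (frf_pos htt h4).1 h3
    exact ⟨h4.flip_of_ne fun hiS => by rwa [← htt i hiS], h5.tail h6⟩

end lvl

/-- the records of a round -/
def rcd (Y C : Finset (Fin n)) (Λ N : ℕ) (t t' : Fin n → Bool) (S : Finset (Fin n))
    (u : Fin n → Bool) : LR n :=
  (⟨u, Y.filter (fun i => frf t t' S N u < frf t t' S N (TH70.AR.flip u i)),
    (Y ∩ C).filter fun i => u i ≠ t i⟩, lvl Λ t t' S N u)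

/-- the levels of a round are compatible with reachability -/
lemma ord_round {Y T X T' C S : Finset (Fin n)} {a b v : Fin n → Bool} {Λ N : ℕ}
    {f : (Fin n → Bool) → ℕ} {P : (Fin n → Bool) → Prop} {t t' : Fin n → Bool}
    {U : List (Fin n → Bool)} (hcap : Cap v P f (frf t t' S N))
    (hsep : ∀ z, P z → ∀ u ∈ U, ∃ i ∈ C, u i ≠ t i ∧ z i ≠ u i)
    (hU : ∀ u ∈ U, ∀ i, i ∉ Y → u i = a i) (ht : t = tog a T) (ht' : t' = tog b T')
    (hX : ∀ x ∈ X, b x = t x ∧ t' x = t x) (htt : ∀ i ∈ S, t' i = t i) :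
    Ord Y T X T' a b Λ (Λ + n + 1) (U.map (rcd Y C Λ N t t' S)) (U.map (rcd Y C Λ N t t' S)) v f := by
  have hnP : ∀ u ∈ U, ¬ P u := by
    intro u hu h
    obtain ⟨i, _, _, h2⟩ := hsep _ h u hu
    exact h2 rfl
  refine ⟨?_, ?_, ?_, ?_⟩
  · intro r hr s hs hto
    obtain ⟨u, hu, rfl⟩ := List.mem_map.1 hr
    obtain ⟨u', hu', rfl⟩ := List.mem_map.1 hs
    change To Y f u u' at hto
    change lvl Λ t t' S N u < lvl Λ t t' S N u' ∨ u = u' ∧ lvl Λ t t' S N u = lvl Λ t t' S N u'
    rcases lvl_to (Λ := Λ) (hcap.path (hnP u' hu') hto).2 with h | h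
    · exact Or.inl h
    · exact Or.inr ⟨h, by rw [h]⟩
  · intro s hs hs1 u hu
    obtain ⟨u', hu', rfl⟩ := List.mem_map.1 hs
    rw [← ht]
    exact (path_before (not_frt_of_lvl hs1) (hcap.path (hnP u' hu') hu).2).2
  · intro hv r _ y hy x hx hrx
    induction hy with
    | refl => exact hrx
    | @tail y y1 _ h2 ih =>
      obtain ⟨i, hi, rfl, h3⟩ := h2
      by_cases hxi : x = i
      · subst hxi
        exfalso
        by_cases h4 : P y
        · exact (hcap.mem h4 h3).2 (ih.trans (hv x hx).symm)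
        · by_cases h5 : P (TH70.AR.flip y x)
          · have h6 := hcap.enter h4 h5
            rw [flip_self, hv x hx, ← ih] at h6
            simp at h6
          · have h6 := hcap.low y x h4 h5 h3
            have h7 := frf_unif (S := S) (N := N) (hX x hx).2 (ih.trans (hX x hx).1)
            omega
      · rw [flip_of_ne _ hxi]; exact ih
  · intro hv r hr hlate y hy
    obtain ⟨u, hu, rfl⟩ := List.mem_map.1 hr
    change To Y f u y at hy
    have hfu : Frt t S N u := frt_of_lvl hlate
    rcases hcap.path' hy with h4 | h4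
    · left
      intro r' hr'
      obtain ⟨u', hu', rfl⟩ := List.mem_map.1 hr'
      obtain ⟨i, h5, h6, h7⟩ := hsep y h4 u' hu'
      refine ⟨i, ?_, h7⟩
      change i ∈ (Y ∩ C).filter fun i => u' i ≠ t i
      rw [mem_filter, mem_inter]
      refine ⟨⟨?_, h5⟩, h6⟩
      by_contra hiY
      exact h7 (by rw [to_off hy i hiY, hU u hu i hiY, hU u' hu' i hiY])
    · right
      rw [← ht']
      exact (path_beyond htt hfu h4).2

lemma agr_tog (p : Fin n → Bool) (D E : Finset (Fin n)) :
    agr (tog p D) (tog p E) + (symmDiff D E).card = n := by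
  have h1 : (univ.filter fun i => tog p D i = tog p E i) = univ \ symmDiff D E := by
    ext i
    rw [mem_filter, mem_sdiff, mem_symmDiff]
    have := @tog_ne_tog n p D E i
    simp only [mem_univ, true_and]
    tauto
  have h2 := card_sdiff_add_card_eq_card (subset_univ (symmDiff D E))
  rw [card_univ, Fintype.card_fin] at h2
  unfold agr
  rw [h1]
  exact h2

/-- the count for late records -/
lemma count_late {I E D T' E₂ : Finset (Fin n)} {ρ : ℕ} (hI : I.card = ρ + 1) (hDE : D ⊆ E)
    (hED : (E \ D).card ≤ ρ) (hIT : Disjoint I T') (hE : E ⊆ I ∪ T') (hE₂ : E₂ ⊆ T')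
    (hlt : D.card < E₂.card) :
    (symmDiff E₂ T').card < (symmDiff (symmDiff I E) T').card := by
  have h1 : (I \ E) ∪ (T' \ E) ⊆ symmDiff (symmDiff I E) T' := by
    intro i hi
    have := @disjoint_left _ I T'
    rw [this] at hIT
    have h2 := @hIT i
    simp only [mem_union, mem_sdiff, mem_symmDiff] at hi ⊢
    tauto
  have h2 : Disjoint (I \ E) (T' \ E) := hIT.mono sdiff_subset sdiff_subset
  have h3 := card_le_card h1
  rw [card_union_of_disjoint h2] at h3
  have h4 : symmDiff E₂ T' = T' \ E₂ := by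
    ext i
    have := @hE₂ i
    rw [mem_symmDiff, mem_sdiff]
    tauto
  have h5 := card_sdiff_add_card_eq_card hE₂
  have h6 := card_sdiff_add_card_eq_card hDE
  have h7 := card_sdiff_add_card_inter I E
  have h8 := card_sdiff_add_card_inter T' E
  have h9 : E.card ≤ (I ∩ E).card + (T' ∩ E).card := by
    refine (card_le_card fun i hi => ?_).trans (card_union_le _ _)
    rcases mem_union.1 (hE hi) with h | h
    · exact mem_union_left _ (mem_inter.2 ⟨h, hi⟩)
    · exact mem_union_right _ (mem_inter.2 ⟨h, hi⟩)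
  have h10 : (I ∩ E).card + (T' ∩ E).card ≤ E.card := by
    have h11 : Disjoint (I ∩ E) (T' ∩ E) := hIT.mono inter_subset_left inter_subset_left
    rw [← card_union_of_disjoint h11]
    exact card_le_card (union_subset inter_subset_right inter_subset_right)
  rw [h4]
  omega

end Pool.Agent.J4H72.LV
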