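import Pool.Agent.J4H72.LV.Wipe
set_option autoImplicit false

/-!
# Epochs with levels
-/

namespace Pool.Agent.J4H72.LV

open Finset Pool.Agent.TH70.AR Pool.Agent.J4H72.LA

variable {n : ℕ} {A : PastV n → Fin n} {ρ : ℕ}

/-- In every face with more than `K` free coordinates the adversary can make the rule pay at least `N`
visits, at the price of at most `M` records with at most `K` useless directions each, and wipe all of
them by freezing at most `l` coordinates; at the beginning and at the end all free coordinates are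
active. -/
def LvV (A : PastV n → Fin n) (ρ K l N M : ℕ) : Prop :=
  ∀ (Y : Finset (Fin n)) (h : PastV n) (a : Fin n → Bool) (Λ : ℕ), K < Y.card →
    ∃ (q : PastV n) (R Q : List (LR n)) (b : Fin n → Bool) (X : Finset (Fin n)) (Λ' : ℕ),
      PhaseV A ρ Y Y h a q R Q b X (Y \ X) K Λ Λ' ∧ X.card ≤ l ∧ N ≤ q.length ∧ R.length ≤ M

lemma lvV_mono {K l N M K' l' N' M' : ℕ} (h : LvV A ρ K l N M) (hK : K ≤ K') (hl : l ≤ l')
    (hN : N' ≤ N) (hM : M ≤ M') : LvV A ρ K' l' N' M' := by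
  intro Y p a Λ hY
  obtain ⟨q, R, Q, b, X, Λ', h1, h2, h3, h4⟩ := h Y p a Λ (by omega)
  exact ⟨q, R, Q, b, X, Λ', h1.mono hK, h2.trans hl, hN.trans h3, h4.trans hM⟩

/-- one round without moves before the front; the directions which were not active become active -/
lemma reactV (hA : ValidV A) {Y T : Finset (Fin n)} (hTY : T ⊆ Y) (h : PastV n) (a : Fin n → Bool)
    (Λ : ℕ) (hc : ρ + 1 ≤ T.card) :
    ∃ (I : Finset (Fin n)) (q : PastV n) (R : List (LR n)) (b : Fin n → Bool), I ⊆ T ∧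
      I.card = ρ + 1 ∧ q.length = ρ + 1 ∧ R.length ≤ (ρ + 1) * bc n ρ ∧
      PhaseV A ρ Y T h a q R R b I (Y \ I) ((Y \ T).card + 2 * ρ) Λ (Λ + n + 1) := by
  obtain ⟨J, I, q, R, hJT, hJc, hIS, hIc, hq, hR, P⟩ :=
    roundV (ρ := ρ) hA hTY a h Λ (N₀ := 0) (by omega) (fun J => Y \ (T \ J)) (fun _ => ∅)
      (fun _ _ _ => Subset.refl _) (fun _ _ _ => ⟨empty_subset _, disjoint_empty_left _⟩)
  rw [card_eq_zero] at hJc
  subst hJc
  have e1 : ((T \ ∅) \ I) ∪ (Y \ (T \ ∅)) = Y \ I := by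
    rw [sdiff_empty]
    rw [sdiff_empty] at hIS
    ext i
    simp only [mem_union, mem_sdiff]
    have h1 := @hTY i
    have h2 := @hIS i
    tauto
  have e2 : I ∪ (∅ : Finset (Fin n)) = I := union_empty I
  rw [e1, e2] at P
  refine ⟨I, q, R, _, hIS.trans sdiff_subset, hIc, by omega, ?_, P.mono (by omega)⟩
  rw [zero_add] at hR
  exact hR

lemma lvV_zero (hA : ValidV A) : LvV A ρ (2 * ρ) (ρ + 1) 1 ((ρ + 1) * bc n ρ) := by
  intro Y h a Λ hY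
  obtain ⟨I, q, R, b, hI, hIc, hq, hR, P⟩ :=
    reactV (ρ := ρ) hA (Subset.refl Y) h a Λ (by omega)
  exact ⟨q, R, R, b, I, _, P.mono (by simp), hIc.le, by omega, hR⟩

/-- **The next level.** -/
lemma lvV_succ (hA : ValidV A) {k K l N M m N₀ Jm : ℕ} (hk : 1 ≤ k) (hn : n < (Jm + 1) * N₀)
    (hm : 2 * M * (2 * k + 1) ^ m < (2 * k + 2) ^ m) (h : LvV A ρ K l N M) :
    LvV A ρ (K + K / k + N₀ + 2 * ρ + 2 * ((ρ + 2) * (m * (Jm + 1) + Jm + 1)) + 2 * l)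
      ((ρ + 2) * (m * (Jm + 1) + Jm + 1) + (ρ + 1)) (2 * N)
      (2 * M + (m * (Jm + 1) + Jm + 1) * ((N₀ + (ρ + 1)) * bc n ρ) + (ρ + 1) * bc n ρ) := by
  intro Y p a Λ hY
  set β := (ρ + 2) * (m * (Jm + 1) + Jm + 1) with hβ
  have hd0 : (0 : ℤ) ≤ (K : ℤ) / (k : ℤ) := by positivity
  have hβ0 : (0 : ℤ) ≤ ((ρ + 2 : ℕ) : ℤ) * ((m * (Jm + 1) + Jm + 1 : ℕ) : ℤ) := by positivity
  obtain ⟨q₁, R₁, Q₁, b₁, X₁, Λ₁, P₁, c₁, n₁, m₁⟩ := h Y p a Λ (by omega)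
  have hY₁ : (Y \ X₁).card + X₁.card = Y.card := card_sdiff_add_card_eq_card P₁.sub
  obtain ⟨q₂, R₂, Q₂, b₂, X₂, Λ₂, P₂, c₂, n₂, m₂⟩ := h (Y \ X₁) (pstV p q₁) b₁ Λ₁ (by omega)
  have hY₂ : ((Y \ X₁) \ X₂).card + X₂.card = (Y \ X₁).card := card_sdiff_add_card_eq_card P₂.sub
  obtain ⟨q₃, R₃, Q₃, b₃, X₃, Λ₃, P₃, c₃, m₃, v₃⟩ :=
    wipeV (ρ := ρ) hA (K := K) hk hn m Jm ((Y \ X₁) \ X₂) ((Y \ X₁) \ X₂)
      ((R₁ ++ R₂).map Prod.fst) (pstV (pstV p q₁) q₂) b₂ Λ₂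
      (by
        intro h0
        rw [List.map_eq_nil_iff, List.append_eq_nil_iff] at h0
        exact P₁.ne h0.1)
      (Subset.refl _)
      (by
        intro r hr
        obtain ⟨s, hs, rfl⟩ := List.mem_map.1 hr
        rcases List.mem_append.1 hs with hs | hs
        · exact (card_le_card (sdiff_subset_sdiff (sdiff_subset.trans sdiff_subset)
            (Subset.refl _))).trans (P₁.recB s hs)
        · exact (card_le_card (sdiff_subset_sdiff sdiff_subset (Subset.refl _))).trans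
            (P₂.recB s hs))
      (by
        rw [List.length_map, List.length_append]
        calc (R₁.length + R₂.length) * (2 * k + 1) ^ m
            ≤ (2 * M) * (2 * k + 1) ^ m := Nat.mul_le_mul_right _ (by omega)
          _ < _ := hm)
      (by rw [sdiff_self]; exact empty_subset _)
      (lt_of_le_of_lt ((mu_le _ _ _ _ _).trans ((card_le_univ _).trans (by simp))) hn)
      (by rw [← hβ]; omega)
  rw [← hβ] at P₃ c₃
  have hX₃ : ∀ x ∈ X₃, x ∉ X₁ ∧ x ∉ X₂ := fun x hx =>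
    ⟨(mem_sdiff.1 (mem_sdiff.1 (P₃.sub hx)).1).2, (mem_sdiff.1 (P₃.sub hx)).2⟩
  have hdT : Disjoint (((Y \ X₁) \ X₂) \ X₃) X₃ := sdiff_disjoint
  -- the second and third parts
  have P₂₃ := P₂.glue (X := X₃) P₃ (Subset.refl _) subset_union_right hdT
    (by
      intro r hr
      obtain ⟨x, hx, h1, h2⟩ := v₃ r.1 (List.mem_map_of_mem (List.mem_append_right _ hr))
      exact ⟨x, hx, mem_filter.2 ⟨h1, fun h' => (hX₃ x hx).2 h'.1⟩, h2⟩)
    (B := K + K / k + N₀ + 2 * ρ + β + l) (by omega) (by omega)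
  -- the first three parts
  have P₁₃ := P₁.glue (X := X₃) P₂₃ (Subset.refl _) subset_union_right hdT
    (by
      intro r hr
      obtain ⟨x, hx, h1, h2⟩ := v₃ r.1 (List.mem_map_of_mem (List.mem_append_left _ hr))
      exact ⟨x, hx, mem_filter.2 ⟨h1, fun h' => (hX₃ x hx).1 h'.1⟩, h2⟩)
    (B := K + K / k + N₀ + 2 * ρ + β + 2 * l) (by omega) (by omega)
  -- the last part
  have hT : ((Y \ X₁) \ X₂) \ X₃ ⊆ Y \ X₃ :=
    sdiff_subset_sdiff (sdiff_subset.trans sdiff_subset) (Subset.refl _)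
  have hTc : (((Y \ X₁) \ X₂) \ X₃).card + X₃.card = ((Y \ X₁) \ X₂).card :=
    card_sdiff_add_card_eq_card P₃.sub
  have hYT : ((Y \ X₃) \ (((Y \ X₁) \ X₂) \ X₃)).card ≤ 2 * l := by
    have h1 : (Y \ X₃) \ (((Y \ X₁) \ X₂) \ X₃) ⊆ X₁ ∪ X₂ := by
      intro i hi
      simp only [mem_sdiff, mem_union] at hi ⊢
      tauto
    have h2 := card_le_card h1
    have h3 := card_union_le X₁ X₂
    omega
  obtain ⟨I, q₄, R₄, b₄, hI, hIc, hq₄, hR₄, P₄⟩ :=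
    reactV (ρ := ρ) hA hT (pstV p (q₁ ++ (q₂ ++ q₃))) b₃ Λ₃ (by omega)
  have P := P₁₃.glue_keep P₄
    (B := K + K / k + N₀ + 2 * ρ + 2 * β + 2 * l) (by omega) (by omega)
  have hTT : (Y \ X₃) \ I = Y \ (X₃ ∪ I) := by
    ext i; simp only [mem_sdiff, mem_union]; tauto
  rw [hTT] at P
  refine ⟨_, _, _, _, _, _, P, ?_, ?_, ?_⟩
  · have h1 := card_union_le X₃ I
    omega
  · simp only [List.length_append]
    omega
  · simp only [List.length_append, List.length_map]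
    omega

/-- all levels up to `k` -/
lemma lvV_all (hA : ValidV A) {k N₀ Jm b : ℕ} (hn : n < (Jm + 1) * N₀)
    (m β l B Q : ℕ) (hm : m = (2 * (2 * k + 1) + 1) * b) (hβ : β = m * (Jm + 1) + Jm + 1)
    (hl : l = (ρ + 2) * β + (ρ + 1)) (hB : B = N₀ + 2 * ρ + 2 * ((ρ + 2) * β) + 2 * l)
    (hQ : Q = (β + 1) * ((N₀ + (ρ + 1)) * bc n ρ)) (hb : 2 ^ (k + 1) * Q ≤ 2 ^ b)
    (j : ℕ) (hj : j ≤ k) :
    ∃ M, M + Q ≤ 2 ^ (j + 1) * Q ∧ LvV A ρ ((2 * j + 1) * B) l (2 ^ j) M := by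
  have hbc : 0 < bc n ρ := by
    rw [bc, card_pos]
    exact ⟨∅, mem_sml.2 ⟨subset_univ _, by simp⟩⟩
  have hQ' : Q = β * ((N₀ + (ρ + 1)) * bc n ρ) + (ρ + 1) * bc n ρ + N₀ * bc n ρ := by
    rw [hQ]; ring
  have hρbc : 0 < (ρ + 1) * bc n ρ := by positivity
  have hQ0 : 0 < Q := by rw [hQ']; omega
  induction j with
  | zero =>
    refine ⟨Q, by rw [zero_add, pow_one]; omega, lvV_mono (lvV_zero hA) ?_ ?_ (by simp) ?_⟩
    · rw [hB]; omega
    · rw [hl]; exact Nat.le_add_left _ _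
    · rw [hQ']
      have h1 := Nat.zero_le (β * ((N₀ + (ρ + 1)) * bc n ρ))
      have h2 := Nat.zero_le (N₀ * bc n ρ)
      omega
  | succ j ih =>
    obtain ⟨M, hM, hLv⟩ := ih (by omega)
    have h1 : 2 * M < 2 ^ b := by
      have h2 : 2 ^ (j + 1) * Q ≤ 2 ^ k * Q :=
        Nat.mul_le_mul_right _ (Nat.pow_le_pow_right (by norm_num) (by omega))
      have h3 : 2 ^ (k + 1) * Q = 2 * (2 ^ k * Q) := by ring
      omega
    have h4 := lvV_succ (ρ := ρ) hA (k := 2 * k + 1) (m := m) (N₀ := N₀) (Jm := Jm)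
      (by omega) hn (M := M) (by
        rw [hm]
        exact lt_of_lt_of_le (Nat.mul_lt_mul_of_pos_right h1 (by positivity))
          (two_pow_mul_le (2 * k + 1) b)) hLv
    rw [← hβ] at h4
    refine ⟨_, ?_, lvV_mono h4 ?_ (by rw [hl]) (by rw [pow_succ]; omega) le_rfl⟩
    · have h5 : 2 ^ (j + 1 + 1) * Q = 2 * (2 ^ (j + 1) * Q) := by ring
      rw [h5]
      have h6 := Nat.zero_le (N₀ * bc n ρ)
      omega
    · have h5 : (2 * j + 1) * B / (2 * k + 1) ≤ B := by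
        apply Nat.div_le_of_le_mul
        exact Nat.mul_le_mul_right _ (by omega)
      have h6 : (2 * (j + 1) + 1) * B = (2 * j + 1) * B + B + B := by ring
      rw [h6]
      omega

/-- the top level -/
lemma lvV_top (hA : ValidV A) {k : ℕ}
    (hn : 544 * (ρ + 2) * (k + 1) ^ 3 * (k + 1 + (ρ + 2) * (Nat.log 2 n + 1)) ≤ n) :
    ∃ K l M, K < n ∧ LvV A ρ K l (2 ^ k) M := by
  obtain ⟨b, hb⟩ : ∃ b, b = k + 1 + (ρ + 2) * (Nat.log 2 n + 1) := ⟨_, rfl⟩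
  rw [← hb] at hn
  have hb1 : 1 ≤ b := by rw [hb]; omega
  obtain ⟨N₀, hN₀⟩ : ∃ N₀, N₀ = n / (4 * k + 2) := ⟨_, rfl⟩
  obtain ⟨m, hm⟩ : ∃ m, m = (2 * (2 * k + 1) + 1) * b := ⟨_, rfl⟩
  obtain ⟨β, hβ⟩ : ∃ β, β = m * ((8 * k + 3) + 1) + (8 * k + 3) + 1 := ⟨_, rfl⟩
  obtain ⟨l, hl⟩ : ∃ l, l = (ρ + 2) * β + (ρ + 1) := ⟨_, rfl⟩
  obtain ⟨B, hB⟩ : ∃ B, B = N₀ + 2 * ρ + 2 * ((ρ + 2) * β) + 2 * l := ⟨_, rfl⟩
  obtain ⟨Q, hQ⟩ : ∃ Q, Q = (β + 1) * ((N₀ + (ρ + 1)) * bc n ρ) := ⟨_, rfl⟩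
  -- the frozen coordinates
  have hβ1 : β + 1 ≤ 17 * (k + 1) * (2 * k + 1) * b := by
    rw [hβ, hm]
    nlinarith [Nat.mul_le_mul_left (k * k) hb1, Nat.mul_le_mul_left k hb1]
  have hD : 2 * (2 * k + 1) * (4 * ((ρ + 2) * β) + (4 * ρ + 2)) < n := by
    calc 2 * (2 * k + 1) * (4 * ((ρ + 2) * β) + (4 * ρ + 2))
        < 2 * (2 * k + 1) * (4 * ((ρ + 2) * (β + 1))) := by
          apply Nat.mul_lt_mul_of_pos_left _ (by positivity)
          ring_nf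
          omega
      _ ≤ 2 * (2 * k + 1) * (4 * ((ρ + 2) * (17 * (k + 1) * (2 * k + 1) * b))) := by gcongr
      _ = 136 * ((ρ + 2) * ((k + 1) * (2 * k + 1) ^ 2) * b) := by ring
      _ ≤ 136 * ((ρ + 2) * (4 * (k + 1) ^ 3) * b) := by
          refine Nat.mul_le_mul_left _ (Nat.mul_le_mul_right _ (Nat.mul_le_mul_left _ ?_))
          nlinarith [Nat.zero_le k, Nat.zero_le (k * k)]
      _ = 544 * (ρ + 2) * (k + 1) ^ 3 * b := by ring
      _ ≤ n := hn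
  have hN1 : (4 * k + 2) * N₀ ≤ n := by rw [hN₀]; exact Nat.mul_div_le n _
  have hN2 : n < (4 * k + 2) * (N₀ + 1) := by
    rw [hN₀]
    exact Nat.lt_mul_div_succ n (by omega)
  have hn4 : 4 * k + 2 ≤ n := by
    refine le_trans ?_ hD.le
    calc 4 * k + 2 = 2 * (2 * k + 1) * 1 := by ring
      _ ≤ _ := Nat.mul_le_mul_left _ (by omega)
  have hN3 : 1 ≤ N₀ := by
    rw [hN₀]
    exact (Nat.one_le_div_iff (by omega)).2 hn4
  have hn' : n < ((8 * k + 3) + 1) * N₀ := by nlinarith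
  have hK : (2 * k + 1) * B < n := by
    have h1 : 2 * ((2 * k + 1) * B) = (4 * k + 2) * N₀ +
        2 * (2 * k + 1) * (4 * ((ρ + 2) * β) + (4 * ρ + 2)) := by rw [hB, hl]; ring
    omega
  -- the number of records
  have hD' : 2 * (4 * ((ρ + 2) * β) + (4 * ρ + 2)) < n := by
    refine lt_of_le_of_lt ?_ hD
    have : 2 ≤ 2 * (2 * k + 1) := by omega
    exact Nat.mul_le_mul_right _ this
  have hβn : β ≤ n := by nlinarith [Nat.zero_le (ρ * β)]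
  have hρn : N₀ + ρ ≤ n := by nlinarith [Nat.zero_le (ρ * β), Nat.zero_le (k * N₀)]
  have hQn : Q ≤ (n + 1) ^ (ρ + 2) := by
    calc Q = (β + 1) * ((N₀ + (ρ + 1)) * bc n ρ) := hQ
      _ ≤ (n + 1) * ((n + 1) * (n + 1) ^ ρ) := by
          refine Nat.mul_le_mul (by omega) (Nat.mul_le_mul (by omega) (bc_le n ρ))
      _ = (n + 1) ^ (ρ + 2) := by ring
  have hlog : n + 1 ≤ 2 ^ (Nat.log 2 n + 1) := Nat.lt_pow_succ_log_self (by norm_num) n
  have hQb : 2 ^ (k + 1) * Q ≤ 2 ^ b := by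
    calc 2 ^ (k + 1) * Q ≤ 2 ^ (k + 1) * (n + 1) ^ (ρ + 2) := Nat.mul_le_mul_left _ hQn
      _ ≤ 2 ^ (k + 1) * (2 ^ (Nat.log 2 n + 1)) ^ (ρ + 2) :=
          Nat.mul_le_mul_left _ (Nat.pow_le_pow_left hlog _)
      _ = 2 ^ b := by rw [← pow_mul, ← pow_add, hb, mul_comm (Nat.log 2 n + 1)]
  obtain ⟨M, -, h⟩ := lvV_all hA hn' m β l B Q hm hβ hl hB hQ hQb k le_rfl
  exact ⟨_, _, _, hK, h⟩

end Pool.Agent.J4H72.LV
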