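import Pool.Agent.J4H72.LV.View
set_option autoImplicit false

/-!
# Phases with levels and their composition
-/

namespace Pool.Agent.J4H72.LV

open Finset Pool.Agent.TH70.AR Pool.Agent.J4H72.LA

variable {n : ℕ} {A : PastV n → Fin n} {ρ : ℕ}

/-- the levels of the records `R` are compatible with reachability in the orientation `f`. `first`:
records of the first round are reached only through the uniform region; `lastX`, `last`: where one gets
from the records `Q` of the last round -/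
structure Ord (Y T X T' : Finset (Fin n)) (a b : Fin n → Bool) (Λ Λ' : ℕ) (R Q : List (LR n))
    (v : Fin n → Bool) (f : (Fin n → Bool) → ℕ) : Prop where
  mono : ∀ r ∈ R, ∀ s ∈ R, To Y f r.1.w s.1.w → r.2 < s.2 ∨ (r.1.w = s.1.w ∧ r.2 = s.2)
  first : ∀ s ∈ R, s.2 ≤ Λ + n → ∀ u, To Y f u s.1.w → Le (tog a T) u s.1.w
  lastX : On X b v → ∀ r ∈ Q, ∀ y, To Y f r.1.w y → ∀ x ∈ X, r.1.w x = b x → y x = b x
  last : On X b v → ∀ r ∈ Q, Λ' ≤ r.2 → ∀ y, To Y f r.1.w y →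
    (∀ r' ∈ Q, ∃ i ∈ r'.1.W, y i ≠ r'.1.w i) ∨ Le (tog b T') r.1.w y

/-- A phase: free coordinates `Y`, active directions `T` at the vertex `a`, levels from `Λ` on; the
visits `q` lead to `b`; the records `R` can be extended, they are wiped by freezing `X` at `b`, and
together with the uniform ball around `b` in the directions `T'` with levels from `Λ'` on they determine
everything seen, and contain the uniform ball around `a`; every record has at most `B` useless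
directions. `Q` are the records of the last round. -/
structure PhaseV (A : PastV n → Fin n) (ρ : ℕ) (Y T : Finset (Fin n)) (h : PastV n)
    (a : Fin n → Bool) (q : PastV n) (R Q : List (LR n)) (b : Fin n → Bool)
    (X T' : Finset (Fin n)) (B Λ Λ' : ℕ) : Prop where
  play : PlayV A h a q b
  ext : ExtG Y (R.map Prod.fst) (Ord Y T X T' a b Λ Λ' R Q)
  sub : X ⊆ Y
  act : T' ⊆ Y \ X
  fix : ∀ x, x ∉ Y → b x = a x
  recS : ∀ r ∈ R, r.1.S ⊆ Y
  recW : ∀ r ∈ R, r.1.W ⊆ Y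
  recB : ∀ r ∈ R, (Y \ r.1.W).card ≤ B
  recw : ∀ r ∈ R, ∀ x, x ∉ Y → r.1.w x = a x
  wipes : ∀ r ∈ R, Wipes X b r.1
  base : Λ + n < Λ'
  lo : ∀ r ∈ R, Λ ≤ r.2
  hi : ∀ r ∈ R, r.2 ≤ Λ' + n
  frst : ∀ s ∈ R, s.2 ≤ Λ + n → s.2 = Λ + agr s.1.w (tog a T) ∧ ∃ E ⊆ T, s.1.w = tog a E
  late : ∀ r ∈ R, Λ' ≤ r.2 → r ∈ Q ∧ r.2 = Λ' + agr r.1.w (tog b T')
  qsub : ∀ r ∈ Q, r ∈ R
  cnt : ∀ r ∈ Q, Λ' ≤ r.2 → ∀ x ∈ X, r.1.w x ≠ b x → ∀ z, On X b z →
    (∀ r' ∈ Q, ∃ i ∈ r'.1.W, TH70.AR.flip z x i ≠ r'.1.w i) → ∀ E ⊆ T', Le (tog b T') z (tog b E) →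
    agr r.1.w (tog b T') < agr (tog b E) (tog b T')
  ne : R ≠ []
  cov : ∀ Rf, BallV ρ Rf Λ' b T' → (∀ v ∈ q, CovV ρ (R ++ Rf) v) ∧ BallV ρ (R ++ Rf) Λ a T

/-- the levels in a composed orientation -/
lemma comp_mono {Y T X₁ T₁ : Finset (Fin n)} {a b₁ v v' : Fin n → Bool} {Λ Λ₁ : ℕ}
    {R₁ Q₁ R₂ : List (LR n)} {f f₁ f₂ g : (Fin n → Bool) → ℕ} {P : (Fin n → Bool) → Prop}
    (wipes₁ : ∀ r ∈ R₁, Wipes X₁ b₁ r.1) (hi₁ : ∀ r ∈ R₁, r.2 ≤ Λ₁ + n)
    (late₁ : ∀ r ∈ R₁, Λ₁ ≤ r.2 → r ∈ Q₁ ∧ r.2 = Λ₁ + agr r.1.w (tog b₁ T₁))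
    (cnt₁ : ∀ r ∈ Q₁, Λ₁ ≤ r.2 → ∀ x ∈ X₁, r.1.w x ≠ b₁ x → ∀ z, On X₁ b₁ z →
      (∀ r' ∈ Q₁, ∃ i ∈ r'.1.W, TH70.AR.flip z x i ≠ r'.1.w i) →
      ∀ E ⊆ T₁, Le (tog b₁ T₁) z (tog b₁ E) →
      agr r.1.w (tog b₁ T₁) < agr (tog b₁ E) (tog b₁ T₁))
    (act₁ : T₁ ⊆ Y \ X₁)
    (on₂ : ∀ s ∈ R₂, On X₁ b₁ s.1.w)
    (frst₂ : ∀ s ∈ R₂, s.2 ≤ Λ₁ + n →
      s.2 = Λ₁ + agr s.1.w (tog b₁ T₁) ∧ ∃ E ⊆ T₁, s.1.w = tog b₁ E)
    (mono₂ : ∀ r ∈ R₂, ∀ s ∈ R₂, To (Y \ X₁) f₂ r.1.w s.1.w →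
      r.2 < s.2 ∨ (r.1.w = s.1.w ∧ r.2 = s.2))
    (first₂ : ∀ s ∈ R₂, s.2 ≤ Λ₁ + n → ∀ u, To (Y \ X₁) f₂ u s.1.w → Le (tog b₁ T₁) u s.1.w)
    (O₁ : Ord Y T X₁ T₁ a b₁ Λ Λ₁ R₁ Q₁ v' f₁)
    (hv' : On X₁ b₁ v') (hmix : Mix X₁ b₁ g f₁ f₂) (hcap : Cap v P f g)
    (hsep : ∀ u, P u → ∀ r ∈ R₁.map (clV X₁ b₁) ++ R₂, ∃ i ∈ r.1.W, u i ≠ r.1.w i) :
    ∀ r ∈ R₁.map (clV X₁ b₁) ++ R₂, ∀ s ∈ R₁.map (clV X₁ b₁) ++ R₂, To Y f r.1.w s.1.w →
      r.2 < s.2 ∨ (r.1.w = s.1.w ∧ r.2 = s.2) := by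
  have hoff : ∀ r ∈ R₁, ¬ On X₁ b₁ r.1.w := by
    intro r hr h
    obtain ⟨x, hx, _, h2⟩ := wipes₁ r hr
    exact h2 (h x hx).symm
  intro r hr s hs hto
  have hsP : ¬ P s.1.w := by
    intro h
    obtain ⟨i, _, h2⟩ := hsep _ h s hs
    exact h2 rfl
  obtain ⟨-, hto⟩ := hcap.path hsP hto
  rcases List.mem_append.1 hs with hs | hs
  · obtain ⟨s', hs', rfl⟩ := List.mem_map.1 hs
    obtain ⟨h1, h2⟩ := hmix.path_out (hoff s' hs') hto
    rcases List.mem_append.1 hr with hr | hr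
    · obtain ⟨r', hr', rfl⟩ := List.mem_map.1 hr
      exact O₁.mono r' hr' s' hs' h2
    · exact absurd (on₂ r hr) h1
  · rcases List.mem_append.1 hr with hr | hr
    · obtain ⟨r', hr', rfl⟩ := List.mem_map.1 hr
      left
      change r'.2 < s.2
      change To Y g r'.1.w s.1.w at hto
      rcases hmix.path_in (on₂ s hs) hto with ⟨h1, -⟩ | ⟨-, z, x, h1, h2, h3, h4, h5⟩
      · exact absurd h1 (hoff r' hr')
      have h6 := hi₁ r' hr'
      by_cases hs1 : s.2 ≤ Λ₁ + n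
      swap
      · omega
      obtain ⟨h7, E, hE, h8⟩ := frst₂ s hs hs1
      by_cases hlate : Λ₁ ≤ r'.2
      swap
      · omega
      obtain ⟨h9, h10⟩ := late₁ r' hr' hlate
      have h11 := first₂ s hs hs1 z h5
      have hzx : TH70.AR.flip z x x ≠ b₁ x := by
        rw [flip_self, h3 x h1]; simp
      have h12 : r'.1.w x ≠ b₁ x := fun h => hzx (O₁.lastX hv' r' h9 _ h4 x h1 h)
      rw [h10, h7]
      apply Nat.add_lt_add_left
      rcases O₁.last hv' r' h9 hlate _ h4 with h13 | h13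
      · rw [h8] at h11 ⊢
        exact cnt₁ r' h9 hlate x h1 h12 z h3 h13 E hE h11
      · have h14 : tog b₁ T₁ x = b₁ x := tog_notMem fun h' => (mem_sdiff.1 (act₁ h')).2 h1
        have h15 : agr (TH70.AR.flip z x) (tog b₁ T₁) < agr z (tog b₁ T₁) :=
          agr_flip_lt (by rw [h14]; exact h3 x h1)
        exact h13.agr.trans_lt (h15.trans_le h11.agr)
    · rcases hmix.path_in (on₂ s hs) hto with ⟨-, h1⟩ | ⟨h1, -⟩
      · exact mono₂ r hr s hs h1
      · exact absurd (on₂ r hr) h1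

/-- **Composition of phases**: the second phase takes place in the face in which `X₁` is frozen at
`b₁`; the set `X` wipes all the records of both. -/
lemma PhaseV.glue {Y T X₁ T₁ X₂ T₂ X : Finset (Fin n)} {h : PastV n} {a b₁ b₂ : Fin n → Bool}
    {q₁ q₂ : PastV n} {R₁ Q₁ R₂ Q₂ : List (LR n)} {B₁ B₂ B Λ Λ₁ Λ₂ : ℕ}
    (P₁ : PhaseV A ρ Y T h a q₁ R₁ Q₁ b₁ X₁ T₁ B₁ Λ Λ₁)
    (P₂ : PhaseV A ρ (Y \ X₁) T₁ (pstV h q₁) b₁ q₂ R₂ Q₂ b₂ X₂ T₂ B₂ Λ₁ Λ₂)
    (hX₂ : X₂ ⊆ X) (hX : X ⊆ X₁ ∪ X₂) (hT₂ : Disjoint T₂ X)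
    (hw₁ : ∀ r ∈ R₁, Wipes X b₂ (cl X₁ b₁ r.1))
    (hB₁ : B₁ + X₁.card ≤ B) (hB₂ : B₂ + X₁.card ≤ B) :
    PhaseV A ρ Y T h a (q₁ ++ q₂) (R₁.map (clV X₁ b₁) ++ R₂) Q₂ b₂ X T₂ B Λ Λ₂ := by
  have hon : ∀ r ∈ R₂, On X₁ b₁ r.1.w := fun r hr x hx =>
    P₂.recw r hr x fun h' => (mem_sdiff.1 h').2 hx
  have hb : ∀ x ∈ X₁, b₂ x = b₁ x := fun x hx => P₂.fix x fun h' => (mem_sdiff.1 h').2 hx
  have hmem : ∀ r ∈ R₁.map (clV X₁ b₁) ++ R₂,
      r.1 ∈ (R₁.map Prod.fst).map (cl X₁ b₁) ++ R₂.map Prod.fst := by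
    intro r hr
    rw [List.mem_append] at hr ⊢
    rcases hr with hr | hr
    · obtain ⟨s, hs, rfl⟩ := List.mem_map.1 hr
      exact Or.inl (List.mem_map_of_mem (List.mem_map_of_mem hs))
    · exact Or.inr (List.mem_map_of_mem hr)
  refine
    { play := playV_append P₁.play P₂.play
      ext := ?_
      sub := ?_
      act := ?_
      fix := fun x hx => (P₂.fix x fun h' => hx (mem_sdiff.1 h').1).trans (P₁.fix x hx)
      recS := ?_
      recW := ?_
      recB := ?_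
      recw := ?_
      wipes := ?_
      base := by have := P₁.base; have := P₂.base; omega
      lo := ?_
      hi := ?_
      frst := ?_
      late := ?_
      qsub := fun r hr => List.mem_append_right _ (P₂.qsub r hr)
      cnt := ?_
      ne := ?_
      cov := ?_ }
  · -- the extension
    have h1 := extG_comp (Y := Y) (X := X₁) (b := b₁) P₁.ext (by
      intro r hr
      obtain ⟨s, hs, rfl⟩ := List.mem_map.1 hr
      exact P₁.wipes s hs) P₂.ext (by
      intro r hr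
      obtain ⟨s, hs, rfl⟩ := List.mem_map.1 hr
      exact P₂.recS s hs) (by
      intro r hr
      obtain ⟨s, hs, rfl⟩ := List.mem_map.1 hr
      exact P₂.recW s hs) (by
      intro r hr
      obtain ⟨s, hs, rfl⟩ := List.mem_map.1 hr
      exact hon s hs)
    intro v 𝓐 h𝓐
    rw [List.map_append, map_clV_fst] at h𝓐 ⊢
    obtain ⟨f, h2, h3, h4, v', f₁, f₂, g, P, O₁, O₂, hv', hmix, hcap, hsep⟩ := h1 v 𝓐 h𝓐
    have hsep' : ∀ u, P u → ∀ r ∈ R₁.map (clV X₁ b₁) ++ R₂, ∃ i ∈ r.1.W, u i ≠ r.1.w i :=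
      fun u hu r hr => hsep u hu r.1 (hmem r hr)
    have hnP : ∀ r ∈ R₁.map (clV X₁ b₁) ++ R₂, ¬ P r.1.w := by
      intro r hr h
      obtain ⟨i, _, h2⟩ := hsep' _ h r hr
      exact h2 rfl
    refine ⟨f, h2, h3, h4, ?_⟩
    refine
      { mono := comp_mono P₁.wipes P₁.hi P₁.late P₁.cnt P₁.act hon P₂.frst O₂.mono O₂.first O₁ hv'
          hmix hcap hsep'
        first := ?_
        lastX := ?_
        last := ?_ }
    · intro s hs hs1 u hu
      obtain ⟨-, hu⟩ := hcap.path (hnP s hs) hu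
      rcases List.mem_append.1 hs with hs | hs
      · obtain ⟨s', hs', rfl⟩ := List.mem_map.1 hs
        have hoff : ¬ On X₁ b₁ s'.1.w := by
          intro h
          obtain ⟨x, hx, _, h2⟩ := P₁.wipes s' hs'
          exact h2 (h x hx).symm
        exact O₁.first s' hs' hs1 u (hmix.path_out hoff hu).2
      · exfalso
        have := P₂.lo s hs
        have := P₁.base
        omega
    · intro hv r hr y hy
      have hv₂ : On X₂ b₂ v := fun x hx => hv x (hX₂ hx)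
      have key : (P y ∧ ∀ x ∈ X, r.1.w x = b₂ x → y x = b₂ x) ∨
          (¬ P y ∧ On X₁ b₁ y ∧ To (Y \ X₁) f₂ r.1.w y) := by
        induction hy with
        | refl =>
          exact Or.inr ⟨hnP r (List.mem_append_right _ (P₂.qsub r hr)), hon r (P₂.qsub r hr),
            to_refl _ _ _⟩
        | @tail y y1 _ h5 ih =>
          obtain ⟨i, hi, rfl, h6⟩ := h5
          rcases ih with ⟨h7, h8⟩ | ⟨h7, h8, h9⟩
          · obtain ⟨h10, h11⟩ := hcap.mem h7 h6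
            refine Or.inl ⟨h10, fun x hx hrx => ?_⟩
            have h12 := h8 x hx hrx
            by_cases hxi : x = i
            · subst hxi
              exact absurd (h12.trans (hv x hx).symm) h11
            · rw [flip_of_ne _ hxi]; exact h12
          · by_cases h10 : P (TH70.AR.flip y i)
            · refine Or.inl ⟨h10, fun x hx hrx => ?_⟩
              by_cases hxi : x = i
              · subst hxi
                rw [hcap.enter h7 h10]
                exact hv x hx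
              · rw [flip_of_ne _ hxi]
                rcases mem_union.1 (hX hx) with h11 | h11
                · rw [hb x h11]; exact h8 x h11
                · exact O₂.lastX hv₂ r hr y h9 x h11 hrx
            · refine Or.inr ⟨h10, ?_⟩
              have h11 := hcap.low y i h7 h10 h6
              have h12 : On X₁ b₁ (TH70.AR.flip y i) := by
                by_contra h12
                exact absurd (hmix.edge y i h8 h12) (by omega)
              exact ⟨h12, Relation.ReflTransGen.tail h9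
                ⟨i, mem_sdiff.2 ⟨hi, on_flip_notMem h8 h12⟩, rfl, hmix.inn y i h8 h12 h11⟩⟩
      intro x hx hrx
      rcases key with ⟨_, h7⟩ | ⟨_, h7, h8⟩
      · exact h7 x hx hrx
      · rcases mem_union.1 (hX hx) with h11 | h11
        · rw [hb x h11]; exact h7 x h11
        · exact O₂.lastX hv₂ r hr y h8 x h11 hrx
    · intro hv r hr hlate y hy
      have hv₂ : On X₂ b₂ v := fun x hx => hv x (hX₂ hx)
      rcases hcap.path' hy with h7 | h7
      · exact Or.inl fun r' hr' => hsep' y h7 r' (List.mem_append_right _ (P₂.qsub r' hr'))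
      · exact O₂.last hv₂ r hr hlate y (hmix.path_stay (hon r (P₂.qsub r hr)) h7).2
  · exact hX.trans (union_subset P₁.sub (P₂.sub.trans sdiff_subset))
  · intro x hx
    exact mem_sdiff.2 ⟨(mem_sdiff.1 (mem_sdiff.1 (P₂.act hx)).1).1, disjoint_left.1 hT₂ hx⟩
  · intro r hr
    rcases List.mem_append.1 hr with hr | hr
    · obtain ⟨s, hs, rfl⟩ := List.mem_map.1 hr
      exact P₁.recS s hs
    · exact (P₂.recS r hr).trans sdiff_subset
  · intro r hr
    rcases List.mem_append.1 hr with hr | hr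
    · obtain ⟨s, hs, rfl⟩ := List.mem_map.1 hr
      exact (filter_subset _ _).trans (P₁.recW s hs)
    · exact (P₂.recW r hr).trans sdiff_subset
  · intro r hr
    rcases List.mem_append.1 hr with hr | hr
    · obtain ⟨s, hs, rfl⟩ := List.mem_map.1 hr
      have h1 : Y \ (clV X₁ b₁ s).1.W ⊆ (Y \ s.1.W) ∪ X₁ := by
        intro x hx
        rw [mem_sdiff] at hx
        rw [mem_union, mem_sdiff]
        by_cases hxX : x ∈ X₁
        · exact Or.inr hxX
        · exact Or.inl ⟨hx.1, fun hW => hx.2 (mem_filter.2 ⟨hW, fun h' => hxX h'.1⟩)⟩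
      have h2 := card_le_card h1
      have h3 := card_union_le (Y \ s.1.W) X₁
      have h4 := P₁.recB s hs
      omega
    · have h1 : Y \ r.1.W ⊆ ((Y \ X₁) \ r.1.W) ∪ X₁ := by
        intro x hx
        rw [mem_sdiff] at hx
        rw [mem_union, mem_sdiff, mem_sdiff]
        by_cases hxX : x ∈ X₁
        · exact Or.inr hxX
        · exact Or.inl ⟨⟨hx.1, hxX⟩, hx.2⟩
      have h2 := card_le_card h1
      have h3 := card_union_le ((Y \ X₁) \ r.1.W) X₁
      have h4 := P₂.recB r hr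
      omega
  · intro r hr x hx
    rcases List.mem_append.1 hr with hr | hr
    · obtain ⟨s, hs, rfl⟩ := List.mem_map.1 hr
      exact P₁.recw s hs x hx
    · rw [P₂.recw r hr x fun h' => hx (mem_sdiff.1 h').1]
      exact P₁.fix x hx
  · intro r hr
    rcases List.mem_append.1 hr with hr | hr
    · obtain ⟨s, hs, rfl⟩ := List.mem_map.1 hr
      exact hw₁ s hs
    · obtain ⟨x, hx, h1, h2⟩ := P₂.wipes r hr
      exact ⟨x, hX₂ hx, h1, h2⟩
  · intro r hr
    rcases List.mem_append.1 hr with hr | hr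
    · obtain ⟨s, hs, rfl⟩ := List.mem_map.1 hr
      exact P₁.lo s hs
    · have := P₂.lo r hr
      have := P₁.base
      omega
  · intro r hr
    rcases List.mem_append.1 hr with hr | hr
    · obtain ⟨s, hs, rfl⟩ := List.mem_map.1 hr
      have : s.2 ≤ Λ₁ + n := P₁.hi s hs
      have := P₂.base
      change s.2 ≤ Λ₂ + n
      omega
    · exact P₂.hi r hr
  · intro s hs hs1
    rcases List.mem_append.1 hs with hs | hs
    · obtain ⟨s', hs', rfl⟩ := List.mem_map.1 hs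
      exact P₁.frst s' hs' hs1
    · exfalso
      have := P₂.lo s hs
      have := P₁.base
      omega
  · intro r hr hlate
    rcases List.mem_append.1 hr with hr | hr
    · exfalso
      obtain ⟨s, hs, rfl⟩ := List.mem_map.1 hr
      have : s.2 ≤ Λ₁ + n := P₁.hi s hs
      have := P₂.base
      change Λ₂ ≤ s.2 at hlate
      omega
    · exact P₂.late r hr hlate
  · intro r hr hlate x hx hrx z hz hsep E hE hle
    refine P₂.cnt r hr hlate x ?_ hrx z (fun y hy => hz y (hX₂ hy)) hsep E hE hle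
    rcases mem_union.1 (hX hx) with h11 | h11
    · exact absurd ((hon r (P₂.qsub r hr) x h11).trans (hb x h11).symm) hrx
    · exact h11
  · intro h0
    rw [List.append_eq_nil_iff] at h0
    exact P₂.ne h0.2
  · intro Rf hRf
    obtain ⟨h1, h2⟩ := P₂.cov Rf hRf
    obtain ⟨h3, h4⟩ := P₁.cov _ h2
    have hs : SubV (R₁ ++ (R₂ ++ Rf)) ((R₁.map (clV X₁ b₁) ++ R₂) ++ Rf) := by
      rw [List.append_assoc]
      exact (subV_map_cl R₁ X₁ b₁).append (SubV.of_subset (List.Subset.refl _))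
    have hs' : SubV (R₂ ++ Rf) ((R₁.map (clV X₁ b₁) ++ R₂) ++ Rf) := by
      rw [List.append_assoc]
      exact SubV.of_subset (List.subset_append_right _ _)
    refine ⟨fun v hv => ?_, h4.mono hs⟩
    rcases List.mem_append.1 hv with hv | hv
    · exact (h3 v hv).mono hs
    · exact (h1 v hv).mono hs'

/-- composition of phases with all frozen coordinates kept -/
lemma PhaseV.glue_keep {Y T X₁ T₁ X₂ T₂ : Finset (Fin n)} {h : PastV n} {a b₁ b₂ : Fin n → Bool}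
    {q₁ q₂ : PastV n} {R₁ Q₁ R₂ Q₂ : List (LR n)} {B₁ B₂ B Λ Λ₁ Λ₂ : ℕ}
    (P₁ : PhaseV A ρ Y T h a q₁ R₁ Q₁ b₁ X₁ T₁ B₁ Λ Λ₁)
    (P₂ : PhaseV A ρ (Y \ X₁) T₁ (pstV h q₁) b₁ q₂ R₂ Q₂ b₂ X₂ T₂ B₂ Λ₁ Λ₂)
    (hB₁ : B₁ + X₁.card ≤ B) (hB₂ : B₂ + X₁.card ≤ B) :
    PhaseV A ρ Y T h a (q₁ ++ q₂) (R₁.map (clV X₁ b₁) ++ R₂) Q₂ b₂ (X₁ ∪ X₂) T₂ B Λ Λ₂ := by
  refine P₁.glue P₂ subset_union_right (Subset.refl _) ?_ ?_ hB₁ hB₂
  · rw [disjoint_left]
    intro x hx h'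
    have h1 := mem_sdiff.1 (P₂.act hx)
    rcases mem_union.1 h' with h' | h'
    · exact (mem_sdiff.1 h1.1).2 h'
    · exact h1.2 h'
  · intro r hr
    obtain ⟨x, h1, h2, h3⟩ := P₁.wipes r hr
    refine ⟨x, mem_union_left _ h1, mem_filter.2 ⟨h2, fun h' => h3 h'.2⟩, ?_⟩
    rw [P₂.fix x fun h' => (mem_sdiff.1 h').2 h1]
    exact h3

lemma PhaseV.mono {Y T X T' : Finset (Fin n)} {h : PastV n} {a b : Fin n → Bool}
    {q : PastV n} {R Q : List (LR n)} {B B' Λ Λ' : ℕ}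
    (P : PhaseV A ρ Y T h a q R Q b X T' B Λ Λ') (hB : B ≤ B') :
    PhaseV A ρ Y T h a q R Q b X T' B' Λ Λ' :=
  { P with recB := fun r hr => (P.recB r hr).trans hB }

end Pool.Agent.J4H72.LV
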