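import Pool.Agent.J4H72.LA.Num
set_option autoImplicit false

/-!
# Reachability in composed orientations
-/

namespace Pool.Agent.J4H72.LV

open Finset Pool.Agent.TH70.AR Pool.Agent.J4H72.LA

variable {n : ℕ}

/-- `z` lies between `u` and `t` -/
def Le (t u z : Fin n → Bool) : Prop := ∀ i, u i ≠ z i → z i = t i

lemma le_refl' (t u : Fin n → Bool) : Le t u u := fun _ h => absurd rfl h

lemma Le.agr {t u z : Fin n → Bool} (h : Le t u z) : agr u t ≤ agr z t := by
  refine card_le_card fun i hi => ?_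
  rw [mem_filter] at hi ⊢
  refine ⟨hi.1, ?_⟩
  by_cases hz : u i = z i
  · rw [← hz]; exact hi.2
  · exact h i hz

lemma Le.head {t u z : Fin n → Bool} {i : Fin n} (h : Le t (TH70.AR.flip u i) z) (hi : u i ≠ t i) :
    Le t u z := by
  intro j hj
  by_cases hji : j = i
  · subst hji
    by_contra hne
    have h1 : z j = u j := by
      cases hz : z j <;> cases hu : u j <;> cases ht : t j <;> simp_all
    exact hj h1.symm
  · exact h j (by rw [flip_of_ne _ hji]; exact hj)

lemma Le.tail {t u z : Fin n → Bool} {i : Fin n} (h : Le t u z) (hi : z i ≠ t i) :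
    Le t u (TH70.AR.flip z i) := by
  intro j hj
  by_cases hji : j = i
  · subst hji
    rw [flip_self]
    cases hz : z j <;> cases ht : t j <;> simp_all
  · rw [flip_of_ne _ hji] at hj ⊢
    exact h j hj

/-- `z` can be reached from `u` by improving steps in the directions of `Y` -/
def To (Y : Finset (Fin n)) (f : (Fin n → Bool) → ℕ) : (Fin n → Bool) → (Fin n → Bool) → Prop :=
  Relation.ReflTransGen fun u z => ∃ i ∈ Y, z = TH70.AR.flip u i ∧ f u < f z

lemma to_refl (Y : Finset (Fin n)) (f : (Fin n → Bool) → ℕ) (u : Fin n → Bool) : To Y f u u :=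
  Relation.ReflTransGen.refl

lemma to_off {Y : Finset (Fin n)} {f : (Fin n → Bool) → ℕ} {u z : Fin n → Bool} (h : To Y f u z) :
    ∀ i, i ∉ Y → z i = u i := by
  induction h with
  | refl => intro i _; rfl
  | tail _ h2 ih =>
    obtain ⟨j, hj, rfl, -⟩ := h2
    intro i hi
    rw [flip_of_ne _ (by rintro rfl; exact hi hj)]
    exact ih i hi

lemma to_le {Y : Finset (Fin n)} {f : (Fin n → Bool) → ℕ} {u z : Fin n → Bool} (h : To Y f u z) :
    u = z ∨ f u < f z := by
  induction h with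
  | refl => exact Or.inl rfl
  | tail _ h2 ih =>
    obtain ⟨j, hj, rfl, h3⟩ := h2
    rcases ih with rfl | ih
    · exact Or.inr h3
    · exact Or.inr (ih.trans h3)

/-- `f` is a modification of `g`, uniform towards `v` on the upper set `P` -/
structure Cap (v : Fin n → Bool) (P : (Fin n → Bool) → Prop) (f g : (Fin n → Bool) → ℕ) : Prop where
  up : ∀ u i, P u → ¬ P (TH70.AR.flip u i) → f (TH70.AR.flip u i) < f u
  unif : ∀ u i, P u → P (TH70.AR.flip u i) → u i = v i → f (TH70.AR.flip u i) < f u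
  cl : ∀ u i, P u → u i ≠ v i → P (TH70.AR.flip u i)
  low : ∀ u i, ¬ P u → ¬ P (TH70.AR.flip u i) → f u < f (TH70.AR.flip u i) → g u < g (TH70.AR.flip u i)

lemma Cap.mem {v : Fin n → Bool} {P : (Fin n → Bool) → Prop} {f g : (Fin n → Bool) → ℕ}
    (h : Cap v P f g) {u : Fin n → Bool} {i : Fin n} (hu : P u) (hf : f u < f (TH70.AR.flip u i)) :
    P (TH70.AR.flip u i) ∧ u i ≠ v i := by
  have h1 : P (TH70.AR.flip u i) := by
    by_contra h1
    exact absurd (h.up u i hu h1) (by omega)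
  exact ⟨h1, fun h2 => absurd (h.unif u i hu h1 h2) (by omega)⟩

/-- a step into `P` is a step towards `v` -/
lemma Cap.enter {v : Fin n → Bool} {P : (Fin n → Bool) → Prop} {f g : (Fin n → Bool) → ℕ}
    (h : Cap v P f g) {u : Fin n → Bool} {i : Fin n} (hu : ¬ P u) (hu' : P (TH70.AR.flip u i)) :
    TH70.AR.flip u i i = v i := by
  by_contra hne
  have := h.cl _ i hu' hne
  rw [TH70.AR.flip_flip] at this
  exact hu this

/-- paths which end outside of `P` -/
lemma Cap.path {v : Fin n → Bool} {P : (Fin n → Bool) → Prop} {f g : (Fin n → Bool) → ℕ}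
    (h : Cap v P f g) {Y : Finset (Fin n)} {u s : Fin n → Bool} (hs : ¬ P s) (hp : To Y f u s) :
    ¬ P u ∧ To Y g u s := by
  induction hp using Relation.ReflTransGen.head_induction_on with
  | refl => exact ⟨hs, to_refl _ _ _⟩
  | head h1 _ ih =>
    obtain ⟨i, hi, rfl, h3⟩ := h1
    obtain ⟨h4, h5⟩ := ih
    have h6 : ¬ P _ := fun h6 => h4 (h.mem h6 h3).1
    exact ⟨h6, Relation.ReflTransGen.head ⟨i, hi, rfl, h.low _ i h6 h4 h3⟩ h5⟩

/-- paths which start outside of `P` -/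
lemma Cap.path' {v : Fin n → Bool} {P : (Fin n → Bool) → Prop} {f g : (Fin n → Bool) → ℕ}
    (h : Cap v P f g) {Y : Finset (Fin n)} {u s : Fin n → Bool} (hp : To Y f u s) :
    P s ∨ To Y g u s := by
  by_cases hs : P s
  · exact Or.inl hs
  · exact Or.inr (h.path hs hp).2

/-- outside of the face `{u = b on X}` the function is `f₁`, inside it is `f₂`; edges go into the
face -/
structure Mix (X : Finset (Fin n)) (b : Fin n → Bool) (g f₁ f₂ : (Fin n → Bool) → ℕ) : Prop where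
  inn : ∀ u i, On X b u → On X b (TH70.AR.flip u i) → g u < g (TH70.AR.flip u i) →
    f₂ u < f₂ (TH70.AR.flip u i)
  out : ∀ u i, ¬ On X b u → ¬ On X b (TH70.AR.flip u i) → g u < g (TH70.AR.flip u i) →
    f₁ u < f₁ (TH70.AR.flip u i)
  edge : ∀ u i, On X b u → ¬ On X b (TH70.AR.flip u i) → g (TH70.AR.flip u i) < g u

lemma on_flip_notMem {X : Finset (Fin n)} {b u : Fin n → Bool} {i : Fin n} (h : On X b u)
    (h' : On X b (TH70.AR.flip u i)) : i ∉ X := by
  intro hi
  have h1 := h' i hi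
  rw [flip_self, h i hi] at h1
  simp at h1

lemma on_flip_mem {X : Finset (Fin n)} {b u : Fin n → Bool} {i : Fin n} (h : ¬ On X b u)
    (h' : On X b (TH70.AR.flip u i)) : i ∈ X := by
  by_contra hi
  have := h'.flip hi
  rw [TH70.AR.flip_flip] at this
  exact h this

lemma Mix.path_out {X : Finset (Fin n)} {b : Fin n → Bool} {g f₁ f₂ : (Fin n → Bool) → ℕ}
    (h : Mix X b g f₁ f₂) {Y : Finset (Fin n)} {u s : Fin n → Bool} (hs : ¬ On X b s)
    (hp : To Y g u s) : ¬ On X b u ∧ To Y f₁ u s := by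
  induction hp using Relation.ReflTransGen.head_induction_on with
  | refl => exact ⟨hs, to_refl _ _ _⟩
  | head h1 _ ih =>
    obtain ⟨i, hi, rfl, h3⟩ := h1
    obtain ⟨h4, h5⟩ := ih
    have h6 : ¬ On X b _ := fun h6 => absurd (h.edge _ i h6 h4) (by omega)
    exact ⟨h6, Relation.ReflTransGen.head ⟨i, hi, rfl, h.out _ i h6 h4 h3⟩ h5⟩

lemma Mix.path_in {X : Finset (Fin n)} {b : Fin n → Bool} {g f₁ f₂ : (Fin n → Bool) → ℕ}
    (h : Mix X b g f₁ f₂) {Y : Finset (Fin n)} {u s : Fin n → Bool} (hs : On X b s)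
    (hp : To Y g u s) :
    (On X b u ∧ To (Y \ X) f₂ u s) ∨
      (¬ On X b u ∧ ∃ z x, x ∈ X ∧ x ∈ Y ∧ On X b z ∧ To Y f₁ u (TH70.AR.flip z x) ∧
        To (Y \ X) f₂ z s) := by
  induction hp using Relation.ReflTransGen.head_induction_on with
  | refl => exact Or.inl ⟨hs, to_refl _ _ _⟩
  | @head u u1 h1 _ ih =>
    obtain ⟨i, hi, rfl, h3⟩ := h1
    by_cases hu : On X b u
    · left
      refine ⟨hu, ?_⟩
      rcases ih with ⟨h4, h5⟩ | ⟨h4, -⟩
      · exact Relation.ReflTransGen.head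
          ⟨i, mem_sdiff.2 ⟨hi, on_flip_notMem hu h4⟩, rfl, h.inn _ i hu h4 h3⟩ h5
      · exact absurd (h.edge _ i hu h4) (by omega)
    · right
      refine ⟨hu, ?_⟩
      rcases ih with ⟨h4, h5⟩ | ⟨h4, z, x, h5, h6, h7, h8, h9⟩
      · refine ⟨TH70.AR.flip u i, i, on_flip_mem hu h4, hi, h4, ?_, h5⟩
        rw [TH70.AR.flip_flip]
        exact to_refl _ _ _
      · exact ⟨z, x, h5, h6, h7,
          Relation.ReflTransGen.head ⟨i, hi, rfl, h.out _ i hu h4 h3⟩ h8, h9⟩

/-- a path which starts in the face stays there -/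
lemma Mix.path_stay {X : Finset (Fin n)} {b : Fin n → Bool} {g f₁ f₂ : (Fin n → Bool) → ℕ}
    (h : Mix X b g f₁ f₂) {Y : Finset (Fin n)} {u s : Fin n → Bool} (hu : On X b u)
    (hp : To Y g u s) : On X b s ∧ To (Y \ X) f₂ u s := by
  induction hp with
  | refl => exact ⟨hu, to_refl _ _ _⟩
  | @tail y y1 _ h1 ih =>
    obtain ⟨i, hi, rfl, h3⟩ := h1
    obtain ⟨h4, h5⟩ := ih
    have h6 : On X b (TH70.AR.flip y i) := by
      by_contra h6
      exact absurd (h.edge _ i h4 h6) (by omega)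
    exact ⟨h6, Relation.ReflTransGen.tail h5
      ⟨i, mem_sdiff.2 ⟨hi, on_flip_notMem h4 h6⟩, rfl, h.inn _ i h4 h6 h3⟩⟩

/-- the records `p` can be extended, for all admissible hypersinks, to an orientation with the
property `G` -/
def ExtG (Y : Finset (Fin n)) (p : List (Rec n)) (G : (Fin n → Bool) → ((Fin n → Bool) → ℕ) → Prop) :
    Prop :=
  ∀ (v : Fin n → Bool) (𝓐 : Finset (Finset (Fin n))), (∀ A ∈ 𝓐, ∀ r ∈ p, Wipes A v r) →
    ∃ f : (Fin n → Bool) → ℕ, AOF f ∧
      (∀ r ∈ p, ∀ i ∈ Y, (f r.w < f (TH70.AR.flip r.w i) ↔ i ∈ r.S)) ∧ (∀ A ∈ 𝓐, Hyp f A v) ∧ G v f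

/-- **Composition**, with the structure of the orientation. -/
lemma extG_comp {Y X : Finset (Fin n)} {b : Fin n → Bool} {p q : List (Rec n)}
    {G₁ G₂ : (Fin n → Bool) → ((Fin n → Bool) → ℕ) → Prop}
    (hp : ExtG Y p G₁) (hwp : ∀ r ∈ p, Wipes X b r) (hq : ExtG (Y \ X) q G₂)
    (hqS : ∀ r ∈ q, r.S ⊆ Y \ X) (hqW : ∀ r ∈ q, r.W ⊆ Y \ X) (hqw : ∀ r ∈ q, On X b r.w) :
    ExtG Y (p.map (cl X b) ++ q) (fun v f => ∃ (v' : Fin n → Bool) (f₁ f₂ g : (Fin n → Bool) → ℕ)
      (P : (Fin n → Bool) → Prop), G₁ v' f₁ ∧ G₂ v f₂ ∧ On X b v' ∧ Mix X b g f₁ f₂ ∧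
        Cap v P f g ∧ ∀ u, P u → ∀ r ∈ p.map (cl X b) ++ q, ∃ i ∈ r.W, u i ≠ r.w i) := by
  classical
  intro v 𝓐 h𝓐
  -- the conflict set
  set Γ : Finset (Fin n) := X.filter fun x => v x ≠ b x with hΓ
  set v' : Fin n → Bool := fun x => if x ∈ X then b x else v x with hv'
  have hv'A : ∀ (A : Finset (Fin n)), ∀ x ∈ A \ Γ, v' x = v x := by
    intro A x hx
    simp only [hv']
    split_ifs with h
    · by_contra hne
      rw [mem_sdiff, hΓ, mem_filter] at hx
      exact hx.2 ⟨h, fun e => hne e.symm⟩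
    · rfl
  -- first part
  obtain ⟨f₁, hf₁, hf₁S, hf₁H, hG₁⟩ := hp v' (insert X (𝓐.image fun A => A \ Γ)) (by
    intro A hA r hr
    rw [mem_insert] at hA
    rcases hA with rfl | hA
    · obtain ⟨x, hx, h1, h2⟩ := hwp r hr
      exact ⟨x, hx, h1, by simpa [hv', hx] using h2⟩
    · rw [mem_image] at hA
      obtain ⟨A, hA, rfl⟩ := hA
      obtain ⟨x, hx, h1, h2⟩ := h𝓐 A hA (TH70.AR.cl X b r) (by
        rw [List.mem_append]; left; exact List.mem_map_of_mem hr)
      simp only [TH70.AR.cl, mem_filter, not_and] at h1 h2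
      have hxΓ : x ∉ Γ := by
        rw [hΓ, mem_filter]
        rintro ⟨h3, h4⟩
        have h5 := h1.2 h3
        apply h4
        cases hv : v x <;> cases hb : b x <;> cases hw : r.w x <;> simp_all
      refine ⟨x, mem_sdiff.2 ⟨hx, hxΓ⟩, h1.1, ?_⟩
      rw [hv'A A x (mem_sdiff.2 ⟨hx, hxΓ⟩)]
      exact h2)
  have hX : Hyp f₁ X b := by
    intro u hu i hi
    refine hf₁H X (mem_insert_self _ _) u (fun j hj => ?_) i hi
    simp [hv', hj, hu j hj]
  -- second part
  obtain ⟨f₂, hf₂, hf₂S, hf₂H, hG₂⟩ := hq v (𝓐.image fun A => A \ X) (by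
    intro A hA r hr
    rw [mem_image] at hA
    obtain ⟨A, hA, rfl⟩ := hA
    obtain ⟨x, hx, h1, h2⟩ := h𝓐 A hA r (by rw [List.mem_append]; right; exact hr)
    exact ⟨x, mem_sdiff.2 ⟨hx, (mem_sdiff.1 (hqW r hr h1)).2⟩, h1, h2⟩)
  set g := stack (On X b) f₂ f₁ with hg
  have hgA : AOF g := hf₁.stackOn hf₂ hX
  have hmix : Mix X b g f₁ f₂ := by
    refine ⟨fun u i h1 h2 h3 => ?_, fun u i h1 h2 h3 => ?_, fun u i h1 h2 => ?_⟩
    · rwa [hg, stack_lt_pos h1 h2] at h3
    · rwa [hg, stack_lt_neg h1 h2] at h3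
    · exact stack_lt h2 h1
  -- the hypersinks of `g`
  have hgH : ∀ A ∈ 𝓐, Hyp g (A \ Γ) v := by
    intro A hA u hu i hi
    rw [hg]
    by_cases huX : On X b u
    · by_cases hfX : On X b (TH70.AR.flip u i)
      · rw [stack_lt_pos hfX huX]
        have hiX : i ∉ X := on_flip_notMem huX hfX
        refine hf₂H (A \ X) (mem_image_of_mem _ hA) u (fun j hj => ?_) i
          (mem_sdiff.2 ⟨(mem_sdiff.1 hi).1, hiX⟩)
        refine hu j (mem_sdiff.2 ⟨(mem_sdiff.1 hj).1, fun h => (mem_sdiff.1 hj).2 ?_⟩)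
        rw [hΓ, mem_filter] at h
        exact h.1
      · exact stack_lt hfX huX
    · by_cases hfX : On X b (TH70.AR.flip u i)
      · exfalso
        have hiX : i ∈ X := on_flip_mem huX hfX
        have h1 := hfX i hiX
        rw [flip_self, hu i hi, ← hv'A A i hi] at h1
        simp [hv', hiX] at h1
      · rw [stack_lt_neg hfX huX]
        refine hf₁H (A \ Γ) (mem_insert_of_mem (mem_image_of_mem _ hA)) u (fun j hj => ?_) i hi
        rw [hv'A A j hj]
        exact hu j hj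
  -- the improving directions of `g`
  have hgS : ∀ r ∈ p.map (TH70.AR.cl X b) ++ q, ∀ i ∈ Y,
      (g r.w < g (TH70.AR.flip r.w i) ↔ i ∈ r.S) := by
    intro r hr i hi
    rw [List.mem_append, List.mem_map] at hr
    rcases hr with ⟨r, hr, rfl⟩ | hr
    · change g r.w < g (TH70.AR.flip r.w i) ↔ i ∈ r.S
      have hrX : ¬ On X b r.w := by
        intro h
        obtain ⟨x, hx, _, h2⟩ := hwp r hr
        exact h2 (h x hx).symm
      rw [← hf₁S r hr i hi, hg]
      by_cases hfX : On X b (TH70.AR.flip r.w i)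
      · refine iff_of_true (stack_lt hrX hfX) ?_
        have hiX : i ∈ X := on_flip_mem hrX hfX
        have := hX _ hfX i hiX
        rwa [TH70.AR.flip_flip] at this
      · rw [stack_lt_neg hrX hfX]
    · have hrX := hqw r hr
      rw [hg]
      by_cases hiX : i ∈ X
      · have hfX : ¬ On X b (TH70.AR.flip r.w i) := fun h => on_flip_notMem hrX h hiX
        refine iff_of_false ?_ ?_
        · have := stack_lt (g := f₂) (f := f₁) hfX hrX
          omega
        · intro h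
          exact (mem_sdiff.1 (hqS r hr h)).2 hiX
      · rw [stack_lt_pos hrX (hrX.flip hiX)]
        exact hf₂S r hr i (mem_sdiff.2 ⟨hi, hiX⟩)
  -- make the hypersinks bigger
  set P : (Fin n → Bool) → Prop := fun u => ∃ A ∈ 𝓐, On (A \ Γ) v u with hP
  have hup : ∀ (u : Fin n → Bool) (i : Fin n), P u → u i ≠ v i → P (TH70.AR.flip u i) := by
    rintro u i ⟨A, hA, h⟩ hi
    refine ⟨A, hA, fun j hj => ?_⟩
    by_cases hji : j = i
    · subst hji
      exact absurd (h j hj) hi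
    · rw [flip_of_ne _ hji]
      exact h j hj
  have hPA : AOF (stack P (fun u => agr u v) g) := by
    apply hgA.stackUniform hup
    rintro u ⟨A, hA, h⟩
    exact ⟨A \ Γ, hgH A hA, h, fun z hz => ⟨A, hA, hz⟩⟩
  -- `P` is separated from the records
  have hsep : ∀ u, P u → ∀ r ∈ p.map (TH70.AR.cl X b) ++ q, ∃ i ∈ r.W, u i ≠ r.w i := by
    rintro u ⟨A, hA, h⟩ r hr
    obtain ⟨x, hx, h1, h2⟩ := h𝓐 A hA r hr
    refine ⟨x, h1, ?_⟩
    rw [h x (mem_sdiff.2 ⟨hx, fun hxΓ => ?_⟩)]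
    · exact h2
    rw [hΓ, mem_filter] at hxΓ
    rw [List.mem_append, List.mem_map] at hr
    rcases hr with ⟨r, hr, rfl⟩ | hr
    · simp only [TH70.AR.cl, mem_filter, not_and] at h1 h2
      have h5 := h1.2 hxΓ.1
      apply hxΓ.2
      cases hv : v x <;> cases hb : b x <;> cases hw : r.w x <;> simp_all
    · exact (mem_sdiff.1 (hqW r hr h1)).2 hxΓ.1
  have hcap : Cap v P (stack P (fun u => agr u v) g) g := by
    refine ⟨fun u i h1 h2 => stack_lt h2 h1, fun u i h1 h2 h3 => ?_, hup, fun u i h1 h2 h3 => ?_⟩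
    · rw [stack_lt_pos h2 h1]
      exact agr_flip_lt h3
    · rwa [stack_lt_neg h1 h2] at h3
  refine ⟨_, hPA, ?_, ?_, v', f₁, f₂, g, P, hG₁, hG₂, fun x hx => by simp [hv', hx], hmix, hcap,
    hsep⟩
  · intro r hr i hi
    have hrP : ¬ P r.w := by
      intro h
      obtain ⟨x, _, h2⟩ := hsep _ h r hr
      exact h2 rfl
    rw [← hgS r hr i hi]
    by_cases hfP : P (TH70.AR.flip r.w i)
    · refine iff_of_true (stack_lt hrP hfP) ?_
      obtain ⟨A, hA, h⟩ := hfP
      have hiA : i ∈ A \ Γ := by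
        by_contra h'
        exact hrP ⟨A, hA, by simpa [TH70.AR.flip_flip] using h.flip h'⟩
      have := hgH A hA _ h i hiA
      rwa [TH70.AR.flip_flip] at this
    · rw [stack_lt_neg hrP hfP]
  · intro A hA u hu i hi
    have hPu : P u := ⟨A, hA, fun j hj => hu j (mem_sdiff.1 hj).1⟩
    by_cases h : P (TH70.AR.flip u i)
    · rw [stack_lt_pos h hPu]
      exact agr_flip_lt (hu i hi)
    · exact stack_lt h hPu

/-- **Records of one orientation**, with the structure of the extension. -/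
lemma extG_aof {f₀ : (Fin n → Bool) → ℕ} (hf : AOF f₀) {C Y : Finset (Fin n)} {t : Fin n → Bool}
    (hC : ∀ u, ∀ i ∈ C, u i = t i → f₀ (TH70.AR.flip u i) < f₀ u) (U : List (Fin n → Bool)) :
    ExtG Y (U.map fun u => (⟨u, Y.filter (fun i => f₀ u < f₀ (TH70.AR.flip u i)),
      (Y ∩ C).filter fun i => u i ≠ t i⟩ : Rec n))
      (fun v f => ∃ P : (Fin n → Bool) → Prop, Cap v P f f₀ ∧
        ∀ z, P z → ∀ u ∈ U, ∃ i ∈ C, u i ≠ t i ∧ z i ≠ u i) := by
  classical
  intro v 𝓐 h𝓐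
  set P : (Fin n → Bool) → Prop := fun z => ∀ u ∈ U, ∃ i ∈ C, z i = v i ∧ v i = t i ∧ z i ≠ u i
    with hP
  have hup : ∀ (z : Fin n → Bool) (i : Fin n), P z → z i ≠ v i → P (TH70.AR.flip z i) := by
    intro z i hz hi u hu
    obtain ⟨j, h1, h2, h3, h4⟩ := hz u hu
    have hji : j ≠ i := by rintro rfl; exact hi h2
    refine ⟨j, h1, ?_, h3, ?_⟩
    · rw [flip_of_ne _ hji]; exact h2
    · rw [flip_of_ne _ hji]; exact h4
  have hA : AOF (stack P (fun u => agr u v) f₀) := by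
    apply hf.stackUniform hup
    intro z hz
    refine ⟨C.filter fun i => z i = v i ∧ v i = t i, ?_, ?_, ?_⟩
    · intro z' hz' i hi
      have h1 := hz' i hi
      rw [mem_filter] at hi
      exact hC z' i hi.1 (h1.trans hi.2.2)
    · intro i hi
      rw [mem_filter] at hi
      exact hi.2.1
    · intro z' hz' u hu
      obtain ⟨j, h1, h2, h3, h4⟩ := hz u hu
      have h5 := hz' j (mem_filter.2 ⟨h1, h2, h3⟩)
      exact ⟨j, h1, h5, h3, by rw [h5, ← h2]; exact h4⟩
  refine ⟨_, hA, ?_, ?_, P, ?_, ?_⟩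
  · intro r hr i hi
    obtain ⟨u, hu, rfl⟩ := List.mem_map.1 hr
    change stack P _ _ u < stack P _ _ (TH70.AR.flip u i) ↔
      i ∈ Y.filter (fun i => f₀ u < f₀ (TH70.AR.flip u i))
    rw [mem_filter]
    have huP : ¬ P u := by
      intro h
      obtain ⟨j, _, _, _, h4⟩ := h u hu
      exact h4 rfl
    by_cases hfP : P (TH70.AR.flip u i)
    · refine iff_of_true (stack_lt huP hfP) ⟨hi, ?_⟩
      obtain ⟨j, h1, h2, h3, h4⟩ := hfP u hu
      have hji : j = i := by
        by_contra hne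
        rw [flip_of_ne _ hne] at h4
        exact h4 rfl
      subst hji
      have := hC (TH70.AR.flip u j) j h1 (h2.trans h3)
      rwa [TH70.AR.flip_flip] at this
    · rw [stack_lt_neg huP hfP]
      exact ⟨fun h => ⟨hi, h⟩, fun h => h.2⟩
  · intro A hAA z hz i hi
    have hzP : P z := by
      intro u hu
      obtain ⟨x, hx1, hx2, hx3⟩ := h𝓐 A hAA _ (List.mem_map_of_mem hu)
      rw [mem_filter, mem_inter] at hx2
      have hvt : v x = t x := by
        have h1 := hx2.2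
        change v x ≠ u x at hx3
        cases hv : v x <;> cases ht : t x <;> cases hu' : u x <;> simp_all
      refine ⟨x, hx2.1.2, hz x hx1, hvt, ?_⟩
      rw [hz x hx1]
      exact hx3
    by_cases h : P (TH70.AR.flip z i)
    · rw [stack_lt_pos h hzP]
      exact agr_flip_lt (hz i hi)
    · exact stack_lt h hzP
  · refine ⟨fun u i h1 h2 => stack_lt h2 h1, fun u i h1 h2 h3 => ?_, hup, fun u i h1 h2 h3 => ?_⟩
    · rw [stack_lt_pos h2 h1]
      exact agr_flip_lt h3
    · rwa [stack_lt_neg h1 h2] at h3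
  · intro z hz u hu
    obtain ⟨i, h1, h2, h3, h4⟩ := hz u hu
    refine ⟨i, h1, ?_, h4⟩
    rw [← h3, ← h2]
    exact fun h => h4 h.symm

end Pool.Agent.J4H72.LV
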