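import Pool.Agent.J4H72.LV.Front
set_option autoImplicit false

/-!
# One round with levels
-/

namespace Pool.Agent.J4H72.LV

open Finset Pool.Agent.TH70.AR Pool.Agent.J4H72.LA

variable {n : ℕ} {A : PastV n → Fin n} {ρ : ℕ}

section props

variable {Y T J S I D E G A Z : Prop}

lemma a1 (h1 : T → Y) (h2 : E → T) : (Y ∧ ¬ (E ↔ T)) ↔ (T ∧ ¬ E) := by tauto

lemma a2 (h1 : J → T) (h2 : (T ∧ ¬ J) → ¬ A) :
    (T ∧ ¬ A ∨ A ∧ ¬ T) ↔ (J ∧ ¬ ((T ∧ ¬ J) ∨ A) ∨ ((T ∧ ¬ J) ∨ A) ∧ ¬ J) := by tauto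

lemma a3 (h1 : S → ¬ A) (h2 : I → S) :
    (I ∧ ¬ ((S ∧ ¬ I) ∨ A) ∨ ((S ∧ ¬ I) ∨ A) ∧ ¬ I) ↔ (S ∨ A) := by tauto

lemma a4 (h1 : E → S) (h2 : Y ∧ ¬ (E ↔ S)) : ¬ E ∧ S := by tauto

lemma a5 (h1 : S → Y) (h2 : ¬ E) (h3 : S) : Y ∧ ¬ (E ↔ S) := by tauto

lemma a6 (h1 : A → Y ∧ ¬ S) (h2 : S ↔ T ∧ ¬ J)
    (h3 : Y ∧ ¬ ((Y ∧ ¬ A) ∧ ¬ (E ↔ T))) : (Y ∧ ¬ T) ∨ (J ∨ E) := by tauto

lemma a7 (h1 : A → ¬ S) (h2 : S ↔ T ∧ ¬ J) (h3 : E → S ∨ A)
    (h4 : Y ∧ ¬ ((Y ∧ ¬ A) ∧ ¬ (E ↔ S))) : (Y ∧ ¬ T) ∨ (J ∨ (D ∨ (E ∧ ¬ D))) := by tauto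

lemma a8 (h1 : G → S) (h2 : (Y ∧ ¬ A) ∧ ¬ (G ↔ S)) : S ∧ ¬ G := by tauto

lemma a9 (h1 : S → Y) (h2 : A → Y) (h3 : E → S ∨ A) (h4 : I → E) (h5 : I → ¬ A) :
    (((S ∧ ¬ I) ∨ A) ∧ ¬ (E ∧ ¬ I)) ↔ (Y ∧ ¬ (E ↔ S ∨ A)) := by tauto

end props

/-- **One round.** The state: free coordinates `Y`, current vertex `a`, active directions `T`, levels
from `Λ` on. The rule makes `N₀` moves (directions `J`); then the adversary chooses directions `Act J`
which will be active beyond the front and directions `Z J` among the moved ones which will be frozen;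
the rule makes `ρ + 1` more moves (directions `I`) and is beyond the front. -/
lemma roundV (hA : ValidV A) {Y T : Finset (Fin n)} (hTY : T ⊆ Y) (a : Fin n → Bool) (h : PastV n)
    (Λ : ℕ) {N₀ : ℕ} (hc : N₀ + ρ + 1 ≤ T.card) (Act Z : Finset (Fin n) → Finset (Fin n))
    (hAct : ∀ J ⊆ T, J.card = N₀ → Act J ⊆ Y \ (T \ J))
    (hZ : ∀ J ⊆ T, J.card = N₀ → Z J ⊆ J ∧ Disjoint (Z J) (Act J)) :
    ∃ (J I : Finset (Fin n)) (q : PastV n) (R : List (LR n)),
      J ⊆ T ∧ J.card = N₀ ∧ I ⊆ T \ J ∧ I.card = ρ + 1 ∧ q.length = N₀ + (ρ + 1) ∧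
      R.length ≤ (N₀ + (ρ + 1)) * bc n ρ ∧
      PhaseV A ρ Y T h a q R R (tog a (J ∪ I)) (I ∪ Z J) (((T \ J) \ I) ∪ Act J)
        ((Y \ T).card + N₀ + 2 * ρ) Λ (Λ + n + 1) := by
  classical
  set t : Fin n → Bool := tog a T with ht
  set σ₁ : (Fin n → Bool) → Finset (Fin n) := fun z => Y.filter fun i => z i ≠ t i with hσ₁
  have hσ₁E : ∀ E : Finset (Fin n), E ⊆ T → σ₁ (tog a E) = T \ E := by
    intro E hE
    ext i
    simp only [hσ₁, mem_filter, mem_sdiff, ht, tog_ne_tog]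
    exact a1 (@hTY i) (@hE i)
  obtain ⟨J, q₁, hJT, hJc, hp₁, hl₁, hv₁⟩ := stepsV (ρ := ρ) hA σ₁ (fun z => Λ + agr z t) N₀ T a h
    (by omega) (fun D hD _ => hσ₁E D hD)
  have hAct := hAct J hJT hJc
  have hZ := hZ J hJT hJc
  obtain ⟨S, hS⟩ : ∃ S, S = T \ J := ⟨_, rfl⟩
  rw [← hS] at hAct
  have hSi : ∀ i, i ∈ S ↔ i ∈ T ∧ i ∉ J := fun i => by rw [hS, mem_sdiff]
  have hST : S ⊆ T := by rw [hS]; exact sdiff_subset
  have hSJ : ∀ i, i ∈ S → i ∉ J := fun i hi => ((hSi i).1 hi).2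
  obtain ⟨w, hw⟩ : ∃ w, w = tog a J := ⟨_, rfl⟩
  rw [← hw] at hp₁
  obtain ⟨t', ht'⟩ : ∃ t', t' = tog a (symmDiff T (Act J)) := ⟨_, rfl⟩
  have hSA : ∀ i ∈ S, i ∉ Act J := fun i hi h' => (mem_sdiff.1 (hAct h')).2 hi
  have htt : ∀ i, i ∉ Act J → t' i = t i := by
    intro i hi
    by_contra hne
    rw [ht'] at hne
    have h1 := tog_ne_tog.1 hne
    rw [mem_symmDiff] at h1
    exact h1 (by simp [hi])
  have httS : ∀ i ∈ S, t' i = t i := fun i hi => htt i (hSA i hi)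
  -- the targets seen from `w`
  have htw : t = tog w S := by
    rw [hw, hS, tog_union (disjoint_sdiff), union_sdiff_of_subset hJT]
  have ht'w : t' = tog w (S ∪ Act J) := by
    rw [hw, tog_tog, ht']
    congr 1
    ext i
    have h2 := hSA i
    rw [hSi] at h2
    simp only [mem_symmDiff, mem_union, hSi]
    exact a2 (@hJT i) h2
  obtain ⟨σ₀, hσ₀⟩ : ∃ σ₀ : (Fin n → Bool) → Finset (Fin n), σ₀ = fun z =>
    Y.filter fun i => frf t t' S (ρ + 1) z < frf t t' S (ρ + 1) (TH70.AR.flip z i) := ⟨_, rfl⟩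
  obtain ⟨lev, hlev⟩ : ∃ lev : (Fin n → Bool) → ℕ, lev = lvl Λ t t' S (ρ + 1) := ⟨_, rfl⟩
  -- the front, seen from `a` and from `w`
  have hFa : ∀ E : Finset (Fin n), Frt t S (ρ + 1) (tog a E) ↔ ρ + 1 ≤ (S ∩ E).card := by
    intro E
    rw [ht]
    exact frt_tog hST
  have hFw : ∀ E : Finset (Fin n), Frt t S (ρ + 1) (tog w E) ↔ ρ + 1 ≤ (S ∩ E).card := by
    intro E
    rw [htw]
    exact frt_tog (Subset.refl S)
  have hneg : ∀ E : Finset (Fin n), (S ∩ E).card ≤ ρ → ∀ i,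
      (i ∈ σ₀ (tog a E) ↔ i ∈ Y ∧ ¬ (i ∈ E ↔ i ∈ T)) := by
    intro E hE i
    have h1 : ¬ Frt t S (ρ + 1) (tog a E) := by rw [hFa]; omega
    have h2 := frf_neg (t' := t') (i := i) h1
    simp only [hσ₀, mem_filter]
    rw [h2, ht, tog_ne_tog]
  have hnegw : ∀ E : Finset (Fin n), (S ∩ E).card ≤ ρ → ∀ i,
      (i ∈ σ₀ (tog w E) ↔ i ∈ Y ∧ ¬ (i ∈ E ↔ i ∈ S)) := by
    intro E hE i
    have h1 : ¬ Frt t S (ρ + 1) (tog w E) := by rw [hFw]; omega
    have h2 := frf_neg (t' := t') (i := i) h1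
    simp only [hσ₀, mem_filter]
    rw [h2, htw, tog_ne_tog]
  have hposw : ∀ E : Finset (Fin n), ρ + 1 ≤ (S ∩ E).card → ∀ i,
      (i ∈ σ₀ (tog w E) ↔ i ∈ Y ∧ ¬ (i ∈ E ↔ i ∈ S ∪ Act J)) := by
    intro E hE i
    have h1 : Frt t S (ρ + 1) (tog w E) := by rw [hFw]; exact hE
    have h2 := frf_pos (t' := t') (i := i) httS h1
    simp only [hσ₀, mem_filter]
    rw [h2, ht'w, tog_ne_tog]
  have hSY : S ⊆ Y := hST.trans hTY
  have hAY : Act J ⊆ Y := fun i hi => (mem_sdiff.1 (hAct hi)).1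
  have hSc : S.card + N₀ = T.card := by
    rw [hS, ← hJc]; exact card_sdiff_add_card_eq_card hJT
  obtain ⟨I, q₂, hIS, hIc, hp₂, hl₂, hv₂⟩ := stepsV (ρ := ρ) hA σ₀ lev (ρ + 1) S w (pstV h q₁)
    (by omega) (by
      intro D hD hDc
      ext i
      rw [hnegw D ((card_le_card inter_subset_right).trans (Nat.lt_succ_iff.1 hDc)), mem_sdiff]
      exact a1 (@hSY i) (@hD i))
  have hwD : ∀ D : Finset (Fin n), D ⊆ S → tog w D = tog a (J ∪ D) := by
    intro D hD
    rw [hw, tog_union]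
    rw [disjoint_left]
    intro i hi hi'
    exact hSJ i (hD hi') hi
  obtain ⟨b, hb⟩ : ∃ b, b = tog a (J ∪ I) := ⟨_, rfl⟩
  have hbw : b = tog w I := hb.trans (hwD I hIS).symm
  rw [← hbw] at hp₂
  obtain ⟨X, hX⟩ : ∃ X, X = I ∪ Z J := ⟨_, rfl⟩
  have hXi : ∀ i, i ∈ X ↔ i ∈ I ∨ i ∈ Z J := fun i => by rw [hX, mem_union]
  obtain ⟨T', hT'⟩ : ∃ T', T' = (S \ I) ∪ Act J := ⟨_, rfl⟩
  have hTi : ∀ i, i ∈ T' ↔ (i ∈ S ∧ i ∉ I) ∨ i ∈ Act J := fun i => by
    rw [hT', mem_union, mem_sdiff]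
  have hIA : ∀ i ∈ I, i ∉ Act J := fun i hi => hSA i (hIS hi)
  have hXT : X ⊆ T := by
    intro i hi
    rcases (hXi i).1 hi with h1 | h1
    · exact hST (hIS h1)
    · exact hJT (hZ.1 h1)
  have hXb : ∀ x ∈ X, b x = t x := by
    intro x hx
    by_contra hne
    rw [hb, ht] at hne
    apply tog_ne_tog.1 hne
    refine iff_of_true ?_ (hXT hx)
    rcases (hXi x).1 hx with h1 | h1
    · exact mem_union_right _ h1
    · exact mem_union_left _ (hZ.1 h1)
  have hXA : ∀ x ∈ X, x ∉ Act J := by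
    intro x hx
    rcases (hXi x).1 hx with h1 | h1
    · exact hIA x h1
    · exact disjoint_left.1 hZ.2 h1
  have ht'b : t' = tog b T' := by
    rw [hbw, ht'w, tog_tog]
    congr 1
    ext i
    simp only [mem_symmDiff, mem_union, hTi]
    exact (a3 (hSA i) (@hIS i)).symm
  have hIT' : Disjoint I T' := by
    rw [disjoint_left]
    intro i hi h'
    rcases (hTi i).1 h' with h' | h'
    · exact h'.2 hi
    · exact hIA i hi h'
  -- the vertices seen
  obtain ⟨U₀, hU₀⟩ : ∃ U₀ : List (Fin n → Bool), U₀ = (q₁.flatMap fun v => sv σ₁ ρ v.1) ++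
    (q₂.flatMap fun v => sv σ₀ ρ v.1) := ⟨_, rfl⟩
  obtain ⟨U, hU⟩ : ∃ U, U = U₀.filter fun u => decide (¬ On X b u) := ⟨_, rfl⟩
  obtain ⟨rc, hrc⟩ : ∃ rc : (Fin n → Bool) → LR n,
    rc = rcd Y (univ \ Act J) Λ (ρ + 1) t t' S := ⟨_, rfl⟩
  have hrcw : ∀ u, (rc u).1.w = u := fun u => by rw [hrc]; rfl
  have hrcS : ∀ u, (rc u).1.S = σ₀ u := fun u => by rw [hrc, hσ₀]; rfl
  have hrcW : ∀ u, (rc u).1.W = (Y ∩ (univ \ Act J)).filter fun i => u i ≠ t i := fun u => by
    rw [hrc]; rfl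
  have hrcl : ∀ u, (rc u).2 = lvl Λ t t' S (ρ + 1) u := fun u => by rw [hrc]; rfl
  have hmemU : ∀ u, u ∈ U ↔ u ∈ U₀ ∧ ¬ On X b u := by
    intro u
    rw [hU, List.mem_filter]
    simp
  -- shape of the vertices seen
  have hsh₁ : ∀ v ∈ q₁, ∀ u, Rch σ₁ ρ v.1 u → ∃ E, u = tog a E ∧ E ⊆ T ∧ (J ∪ E).card ≤ N₀ + ρ ∧
      (S ∩ E).card ≤ ρ := by
    intro v hv u hu
    obtain ⟨D, hD, -, hvD⟩ := hv₁ v hv
    have hv1 : v.1 = tog a D := by rw [hvD]
    rw [hv1] at hu
    obtain ⟨E, h1, h2, h3, h4⟩ := rch_shape (fun E => E ⊆ T) (by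
      intro E hE i hi
      rw [hσ₁E E hE, mem_sdiff] at hi
      exact ⟨hi.2, insert_subset hi.1 hE⟩) ρ (hD.trans hJT) hu
    refine ⟨E, h4, h3, ?_, ?_⟩
    · have h5 : J ∪ E ⊆ J ∪ (E \ D) := by
        intro i hi
        by_cases hiJ : i ∈ J
        · exact mem_union_left _ hiJ
        · rcases mem_union.1 hi with hi | hi
          · exact absurd hi hiJ
          · exact mem_union_right _ (mem_sdiff.2 ⟨hi, fun h' => hiJ (hD h')⟩)
      have h6 := card_le_card h5
      have h7 := card_union_le J (E \ D)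
      omega
    · refine (card_le_card fun i hi => ?_).trans h2
      rw [mem_inter] at hi
      exact mem_sdiff.2 ⟨hi.2, fun h' => hSJ i hi.1 (hD h')⟩
  have hsh₂ : ∀ v ∈ q₂, ∀ u, Rch σ₀ ρ v.1 u → ∃ D E, D ⊆ I ∧ D.card ≤ ρ ∧ v.1 = tog w D ∧ D ⊆ E ∧
      (E \ D).card ≤ ρ ∧ E ⊆ S ∪ Act J ∧ (E ⊆ S ∨ ρ + 1 ≤ (S ∩ E).card) ∧ u = tog w E := by
    intro v hv u hu
    obtain ⟨D, hD, hDc, hvD⟩ := hv₂ v hv
    have hv1 : v.1 = tog w D := by rw [hvD]
    rw [hv1] at hu
    obtain ⟨E, h1, h2, ⟨h3, h3'⟩, h4⟩ := rch_shape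
      (fun E => E ⊆ S ∪ Act J ∧ (E ⊆ S ∨ ρ + 1 ≤ (S ∩ E).card)) (by
      rintro E ⟨hE, hE'⟩ i hi
      by_cases hcard : (S ∩ E).card ≤ ρ
      · have hES : E ⊆ S := by
          rcases hE' with h5 | h5
          · exact h5
          · omega
        rw [hnegw E hcard] at hi
        have h7 : i ∉ E ∧ i ∈ S := a4 (@hES i) hi
        exact ⟨h7.1, insert_subset (mem_union_left _ h7.2) hE, Or.inl (insert_subset h7.2 hES)⟩
      · rw [hposw E (by omega)] at hi
        have h7 : i ∉ E ∧ i ∈ S ∪ Act J := a4 (@hE i) hi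
        refine ⟨h7.1, insert_subset h7.2 hE, Or.inr ?_⟩
        exact le_trans (by omega) (card_le_card (inter_subset_inter (Subset.refl S)
          (subset_insert i E)))) ρ (D := D)
      ⟨(hD.trans hIS).trans subset_union_left, Or.inl (hD.trans hIS)⟩ hu
    exact ⟨D, E, hD, by omega, hv1, h1, h2, h3, h3', h4⟩
  -- a vertex near `a` is not in the new face
  have hout : ∀ E : Finset (Fin n), (S ∩ E).card ≤ ρ → ¬ On X b (tog a E) := by
    intro E hE hon
    have h1 : I ⊆ S ∩ E := by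
      intro i hi
      have h2 := hon i ((hXi i).2 (Or.inl hi))
      refine mem_inter.2 ⟨hIS hi, ?_⟩
      by_contra h3
      rw [hb] at h2
      refine tog_ne_tog.2 ?_ h2
      simp [h3, hi]
    have := card_le_card h1
    omega
  have hrcmem : ∀ u ∈ U₀, ¬ On X b u → rc u ∈ U.map rc := fun u hu hon =>
    List.mem_map_of_mem ((hmemU u).2 ⟨hu, hon⟩)
  have hmem₁ : ∀ v ∈ q₁, ∀ u, Rch σ₁ ρ v.1 u → u ∈ U₀ := fun v hv u hu => by
    rw [hU₀, List.mem_append]
    exact Or.inl (List.mem_flatMap.2 ⟨v, hv, mem_sv.2 hu⟩)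
  have hmem₂ : ∀ v ∈ q₂, ∀ u, Rch σ₀ ρ v.1 u → u ∈ U₀ := fun v hv u hu => by
    rw [hU₀, List.mem_append]
    exact Or.inr (List.mem_flatMap.2 ⟨v, hv, mem_sv.2 hu⟩)
  have hcases : ∀ u ∈ U₀, (∃ v ∈ q₁, Rch σ₁ ρ v.1 u) ∨ (∃ v ∈ q₂, Rch σ₀ ρ v.1 u) := by
    intro u hu
    rw [hU₀] at hu
    rcases List.mem_append.1 hu with hu | hu
    · obtain ⟨v, hv, hu⟩ := List.mem_flatMap.1 hu
      exact Or.inl ⟨v, hv, mem_sv.1 hu⟩
    · obtain ⟨v, hv, hu⟩ := List.mem_flatMap.1 hu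
      exact Or.inr ⟨v, hv, mem_sv.1 hu⟩
  have hUoff : ∀ u ∈ U₀, ∀ i, i ∉ Y → u i = a i := by
    intro u hu i hi
    rcases hcases u hu with ⟨v, hv, hu⟩ | ⟨v, hv, hu⟩
    · obtain ⟨E, rfl, h1, -, -⟩ := hsh₁ v hv u hu
      exact tog_notMem fun h' => hi (hTY (h1 h'))
    · obtain ⟨D, E, -, -, -, -, -, h1, -, rfl⟩ := hsh₂ v hv u hu
      rw [tog_notMem fun h' => hi (union_subset hSY hAY (h1 h')), hw]
      exact tog_notMem fun h' => hi (hTY (hJT h'))
  -- the ball around `a`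
  have hball : ∀ D ⊆ T, D.card ≤ ρ → tog a D ∈ U₀ := by
    intro D hD hDc
    rcases Nat.eq_zero_or_pos N₀ with h0 | h0
    · have hJ0 : J = ∅ := by rw [← card_eq_zero, hJc, h0]
      have hwa : w = a := by rw [hw, hJ0, tog_empty]
      have hSTe : S = T := by rw [hS, hJ0, sdiff_empty]
      obtain ⟨v, q', rfl⟩ : ∃ v q', q₂ = v :: q' := by
        cases q₂ with
        | nil => simp at hl₂
        | cons v q' => exact ⟨v, q', rfl⟩
      have hva : v.1 = w := hp₂.1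
      refine hmem₂ v List.mem_cons_self _ ?_
      rw [hva, ← hwa]
      refine rch_tog ρ D hDc fun E hE i hi => ?_
      rw [hnegw E ((card_le_card (inter_subset_right.trans hE.1)).trans hDc)]
      rw [mem_sdiff] at hi
      exact a5 (@hSY i) hi.2 (by rw [hSTe]; exact hD hi.1)
    · obtain ⟨v, q', rfl⟩ : ∃ v q', q₁ = v :: q' := by
        cases q₁ with
        | nil => simp at hl₁; omega
        | cons v q' => exact ⟨v, q', rfl⟩
      have hva : v.1 = a := hp₁.1
      refine hmem₁ v List.mem_cons_self _ ?_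
      rw [hva]
      refine rch_tog ρ D hDc fun E hE i hi => ?_
      rw [hσ₁E E (hE.1.trans hD), mem_sdiff]
      rw [mem_sdiff] at hi
      exact ⟨hD hi.1, hi.2⟩
  have hBall : ∀ D ⊆ T, D.card ≤ ρ → rc (tog a D) ∈ U.map rc ∧
      (rc (tog a D)).1.S = T \ D ∧ (rc (tog a D)).2 = Λ + agr (tog a D) (tog a T) := by
    intro D hD hDc
    have hSD : (S ∩ D).card ≤ ρ := (card_le_card inter_subset_right).trans hDc
    refine ⟨hrcmem _ (hball D hD hDc) (hout D hSD), ?_, ?_⟩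
    · rw [hrcS]
      ext i
      rw [hneg D hSD, mem_sdiff]
      exact a1 (@hTY i) (@hD i)
    · rw [hrcl, lvl_neg (by rw [hFa]; omega), ht]
  rw [hS] at hIS
  refine ⟨J, I, q₁ ++ q₂, U.map rc, hJT, hJc, hIS, hIc, by rw [List.length_append, hl₁, hl₂], ?_, ?_⟩
  · rw [List.length_map, hU]
    refine (List.length_filter_le _ _).trans ?_
    rw [hU₀, List.length_append, add_mul]
    refine add_le_add ?_ ?_
    · rw [← hl₁]
      exact flatMap_length _ _ _ fun v _ => sv_length _ _ _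
    · rw [← hl₂]
      exact flatMap_length _ _ _ fun v _ => sv_length _ _ _
  rw [← hS] at hIS
  rw [← hS, ← hb, ← hX, ← hT']
  rw [hw] at hp₁ hp₂
  refine
    { play := playV_append hp₁ hp₂
      ext := ?_
      sub := hXT.trans hTY
      act := ?_
      fix := ?_
      recS := ?_
      recW := ?_
      recB := ?_
      recw := ?_
      wipes := ?_
      base := by omega
      lo := ?_
      hi := ?_
      frst := ?_
      late := ?_
      qsub := fun r hr => hr
      cnt := ?_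
      ne := ?_
      cov := ?_ }
  · -- the extension
    intro v 𝓐 h𝓐
    have h1 := extG_aof (f₀ := frf t t' S (ρ + 1)) (Y := Y) (C := univ \ Act J) (frf_aof httS)
      (fun u i hi hu => frf_unif (htt i (mem_sdiff.1 hi).2) hu) U
    have h2 : (U.map rc).map Prod.fst = U.map fun u =>
        (⟨u, Y.filter (fun i => frf t t' S (ρ + 1) u < frf t t' S (ρ + 1) (TH70.AR.flip u i)),
          (Y ∩ (univ \ Act J)).filter fun i => u i ≠ t i⟩ : Rec n) := by
      rw [List.map_map, hrc]; rfl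
    rw [h2] at h𝓐 ⊢
    obtain ⟨f, h3, h4, h5, P, h6, h7⟩ := h1 v 𝓐 h𝓐
    rw [hrc]
    exact ⟨f, h3, h4, h5, ord_round h6 h7 (fun u hu => hUoff u ((hmemU u).1 hu).1) ht ht'b
      (fun x hx => ⟨hXb x hx, htt x (hXA x hx)⟩) httS⟩
  · intro i hi
    rw [mem_sdiff]
    rcases (hTi i).1 hi with h1 | h1
    · refine ⟨hSY h1.1, fun h' => ?_⟩
      rcases (hXi i).1 h' with h' | h'
      · exact h1.2 h'
      · exact hSJ i h1.1 (hZ.1 h')
    · exact ⟨hAY h1, fun h' => hXA i h' h1⟩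
  · intro x hx
    rw [hb]
    refine tog_notMem fun h' => hx ?_
    rcases mem_union.1 h' with h' | h'
    · exact hTY (hJT h')
    · exact hSY (hIS h')
  · intro r hr
    obtain ⟨u, hu, rfl⟩ := List.mem_map.1 hr
    rw [hrcS, hσ₀]
    exact filter_subset _ _
  · intro r hr
    obtain ⟨u, hu, rfl⟩ := List.mem_map.1 hr
    rw [hrcW]
    exact (filter_subset _ _).trans inter_subset_left
  · -- useless directions
    intro r hr
    obtain ⟨u, hu, rfl⟩ := List.mem_map.1 hr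
    rw [hrcW]
    rcases hcases u ((hmemU u).1 hu).1 with ⟨v, hv, hu'⟩ | ⟨v, hv, hu'⟩
    · obtain ⟨E, rfl, h1, h2, h3⟩ := hsh₁ v hv u hu'
      have h4 : Y \ ((Y ∩ (univ \ Act J)).filter fun i => tog a E i ≠ t i) ⊆ (Y \ T) ∪ (J ∪ E) := by
        intro i hi
        simp only [mem_sdiff, mem_filter, mem_inter, mem_univ, true_and, ht, tog_ne_tog] at hi
        rw [mem_union, mem_union, mem_sdiff]
        exact a6 (fun h' => mem_sdiff.1 (hAct h')) (hSi i) hi
      have h5 := card_le_card h4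
      have h6 := card_union_le (Y \ T) (J ∪ E)
      omega
    · obtain ⟨D, E, h1, h2, -, h3, h4, h5, -, rfl⟩ := hsh₂ v hv u hu'
      have h6 : Y \ ((Y ∩ (univ \ Act J)).filter fun i => tog w E i ≠ t i) ⊆
          (Y \ T) ∪ (J ∪ (D ∪ (E \ D))) := by
        intro i hi
        simp only [mem_sdiff, mem_filter, mem_inter, mem_univ, true_and, htw, tog_ne_tog] at hi
        simp only [mem_union, mem_sdiff]
        exact a7 (fun h' => (mem_sdiff.1 (hAct h')).2) (hSi i) (fun h' => mem_union.1 (h5 h')) hi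
      have h7 := card_le_card h6
      have h8 := card_union_le (Y \ T) (J ∪ (D ∪ (E \ D)))
      have h9 := card_union_le J (D ∪ (E \ D))
      have h10 := card_union_le D (E \ D)
      omega
  · intro r hr x hx
    obtain ⟨u, hu, rfl⟩ := List.mem_map.1 hr
    rw [hrcw]
    exact hUoff u ((hmemU u).1 hu).1 x hx
  · intro r hr
    obtain ⟨u, hu, rfl⟩ := List.mem_map.1 hr
    have hon := ((hmemU u).1 hu).2
    have : ∃ x ∈ X, u x ≠ b x := by
      by_contra hne
      push Not at hne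
      exact hon hne
    obtain ⟨x, hx, hxb⟩ := this
    refine ⟨x, hx, ?_, by rw [hrcw]; exact fun h' => hxb h'.symm⟩
    rw [hrcW]
    simp only [mem_filter, mem_inter, mem_sdiff, mem_univ, true_and]
    refine ⟨⟨hTY (hXT hx), hXA x hx⟩, ?_⟩
    rw [← hXb x hx]
    exact hxb
  · intro r hr
    obtain ⟨u, hu, rfl⟩ := List.mem_map.1 hr
    rw [hrcl]
    unfold lvl
    split_ifs <;> omega
  · intro r hr
    obtain ⟨u, hu, rfl⟩ := List.mem_map.1 hr
    rw [hrcl]
    have h1 := agr_le u t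
    have h2 := agr_le u t'
    unfold lvl
    split_ifs <;> omega
  · -- records of the first round
    intro s hs hs1
    obtain ⟨u, hu, rfl⟩ := List.mem_map.1 hs
    rw [hrcl] at hs1
    rw [hrcl, hrcw, ← ht]
    have hnF : ¬ Frt t S (ρ + 1) u := not_frt_of_lvl hs1
    refine ⟨lvl_neg hnF, ?_⟩
    rcases hcases u ((hmemU u).1 hu).1 with ⟨v, hv, hu'⟩ | ⟨v, hv, hu'⟩
    · obtain ⟨E, h0, h1, h2, h3⟩ := hsh₁ v hv u hu'
      exact ⟨E, h1, h0⟩
    · obtain ⟨D, E, -, -, -, -, -, -, h5, rfl⟩ := hsh₂ v hv u hu'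
      rw [hFw] at hnF
      have h6 : E ⊆ S := by
        rcases h5 with h5 | h5
        · exact h5
        · exact absurd h5 hnF
      exact ⟨J ∪ E, union_subset hJT (h6.trans hST), hwD E h6⟩
  · intro r hr hlate
    refine ⟨hr, ?_⟩
    obtain ⟨u, hu, rfl⟩ := List.mem_map.1 hr
    rw [hrcl] at hlate
    rw [← ht'b, hrcl, hrcw]
    exact lvl_pos (frt_of_lvl hlate)
  · -- the count
    intro r hr hlate x hx hrx z hz hsep E₂ hE₂ hle
    obtain ⟨u, hu, rfl⟩ := List.mem_map.1 hr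
    rw [hrcw] at hrx
    rw [hrcl] at hlate
    rw [hrcw]
    have hF : Frt t S (ρ + 1) u := frt_of_lvl hlate
    rcases hcases u ((hmemU u).1 hu).1 with ⟨v, hv, hu'⟩ | ⟨v, hv, hu'⟩
    · exfalso
      obtain ⟨E, rfl, h1, h2, h3⟩ := hsh₁ v hv u hu'
      rw [hFa] at hF
      omega
    obtain ⟨D, E, hDI, hDc, hvD, hDE, hEDc, hESA, -, rfl⟩ := hsh₂ v hv u hu'
    have hxI : x ∈ I := by
      rcases (hXi x).1 hx with h1 | h1
      · exact h1
      · exfalso
        have hxJ := hZ.1 h1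
        have hxS : x ∉ S := fun h' => hSJ x h' hxJ
        have hxE : x ∉ E := fun h' => by
          rcases mem_union.1 (hESA h') with h2 | h2
          · exact hxS h2
          · exact disjoint_left.1 hZ.2 h1 h2
        apply hrx
        rw [hbw, tog_notMem hxE, tog_notMem fun h' => hxS (hIS h')]
    have hbx : b x = !w x := by rw [hbw, tog_mem hxI]
    have hxE : x ∉ E := by
      intro h'
      apply hrx
      rw [hbx, tog_mem h']
    have hxD : x ∉ D := fun h' => hxE (hDE h')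
    have hDx : D ⊆ I.erase x := fun i hi => mem_erase.2 ⟨by rintro rfl; exact hxD hi, hDI hi⟩
    obtain ⟨Dz, hDz⟩ : ∃ Dz, Dz = (S \ I).filter fun i => z i ≠ b i := ⟨_, rfl⟩
    have hDzi : ∀ i, i ∈ Dz ↔ (i ∈ S ∧ i ∉ I) ∧ z i ≠ b i := fun i => by
      rw [hDz, mem_filter, mem_sdiff]
    have hDzS : Dz ⊆ S := fun i hi => ((hDzi i).1 hi).1.1
    have hDzI : ∀ i ∈ Dz, i ∉ I := fun i hi => ((hDzi i).1 hi).1.2
    have hlt : D.card < Dz.card := by
      by_contra hge
      push Not at hge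
      obtain ⟨G, hG⟩ : ∃ G, G = I.erase x ∪ Dz := ⟨_, rfl⟩
      have hGS : G ⊆ S := by rw [hG]; exact union_subset ((erase_subset _ _).trans hIS) hDzS
      have hxG : x ∉ G := by
        rw [hG, mem_union]
        rintro (h' | h')
        · exact (mem_erase.1 h').1 rfl
        · exact hDzI x h' hxI
      have hDG : D ⊆ G := by rw [hG]; exact hDx.trans subset_union_left
      have hreach : Rch σ₀ ρ (tog w D) (tog w G) := by
        have h1 : tog w G = tog (tog w D) (G \ D) := by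
          rw [tog_union disjoint_sdiff, union_sdiff_of_subset hDG]
        rw [h1]
        refine rch_tog ρ (G \ D) ?_ fun E' hE' i hi => ?_
        · have h2 : G \ D ⊆ (I.erase x \ D) ∪ Dz := by
            intro i hi
            rw [hG, mem_sdiff, mem_union] at hi
            rcases hi.1 with h3 | h3
            · exact mem_union_left _ (mem_sdiff.2 ⟨h3, hi.2⟩)
            · exact mem_union_right _ h3
          have h3 := card_le_card h2
          have h4 := card_union_le (I.erase x \ D) Dz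
          have h5 := card_sdiff_add_card_eq_card hDx
          rw [card_erase_of_mem hxI] at h5
          omega
        · rw [mem_sdiff, mem_sdiff] at hi
          have h2 : tog (tog w D) E' = tog w (D ∪ E') := by
            rw [tog_union]
            exact disjoint_sdiff.mono_right hE'.1
          rw [h2]
          have h3 : i ∉ D ∪ E' := by
            rw [mem_union]
            rintro (h' | h')
            · exact hi.1.2 h'
            · exact hi.2 h'
          have h4 : i ∈ S := hGS hi.1.1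
          by_cases hcard : (S ∩ (D ∪ E')).card ≤ ρ
          · rw [hnegw _ hcard]
            exact a5 (@hSY i) h3 h4
          · rw [hposw _ (by omega)]
            exact a5 (fun _ => hSY h4) h3 (mem_union_left _ h4)
      have hGb : ¬ On X b (tog w G) := by
        intro hon
        have h1 := hon x hx
        rw [tog_notMem hxG, hbx] at h1
        simp at h1
      rw [← hvD] at hreach
      obtain ⟨i, h1, h2⟩ := hsep _ (hrcmem _ (hmem₂ v hv _ hreach) hGb)
      rw [hrcW] at h1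
      rw [hrcw] at h2
      simp only [mem_filter, mem_inter, mem_sdiff, mem_univ, true_and, htw, tog_ne_tog] at h1
      have h3 : i ∈ S ∧ i ∉ G := a8 (@hGS i) h1
      rw [tog_notMem h3.2] at h2
      by_cases hix : i = x
      · rw [hix] at h2
        apply h2
        rw [flip_self, hz x hx, hbx, Bool.not_not]
      · rw [flip_of_ne _ hix] at h2
        have h4 : i ∉ I := fun h' => h3.2 (by
          rw [hG]; exact mem_union_left _ (mem_erase.2 ⟨hix, h'⟩))
        have h5 : ¬ (z i ≠ b i) := fun h' => h3.2 (by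
          rw [hG]; exact mem_union_right _ ((hDzi i).2 ⟨⟨h3.1, h4⟩, h'⟩))
        apply h5
        rw [hbw, tog_notMem h4]
        exact h2
    have hDzE : Dz ⊆ E₂ := by
      intro i hi
      have h1 := (hDzi i).1 hi
      by_contra h2
      have h3 : tog b E₂ i = b i := tog_notMem h2
      have h4 := hle i (by rw [h3]; exact h1.2)
      rw [h3, tog_mem ((hTi i).2 (Or.inl h1.1))] at h4
      simp at h4
    have h1 : tog w E = tog b (symmDiff I E) := by
      rw [hbw, tog_tog, symmDiff_symmDiff_cancel_left]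
    have h2 := agr_tog b (symmDiff I E) T'
    have h3 := agr_tog b E₂ T'
    have h4 := count_late hIc hDE hEDc hIT' (fun i hi => by
      rcases mem_union.1 (hESA hi) with h5 | h5
      · by_cases h6 : i ∈ I
        · exact mem_union_left _ h6
        · exact mem_union_right _ ((hTi i).2 (Or.inl ⟨h5, h6⟩))
      · exact mem_union_right _ ((hTi i).2 (Or.inr h5))) hE₂
      (hlt.trans_le (card_le_card hDzE))
    rw [h1]
    omega
  · intro h0
    have := (hBall ∅ (empty_subset _) (by simp)).1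
    rw [h0] at this
    simp at this
  · -- coverage
    intro Rf hRf
    refine ⟨fun v hv => ?_, fun D hD hDc => ?_⟩
    swap
    · obtain ⟨h1, h2, h3⟩ := hBall D hD hDc
      exact ⟨_, List.mem_append_left _ h1, hrcw _, h2, h3⟩
    rcases List.mem_append.1 hv with hv | hv
    · obtain ⟨D, hD, hDN, hvD⟩ := hv₁ v hv
      refine ⟨σ₁, fun z => Λ + agr z t, by rw [hvD], fun z hz => ?_⟩
      obtain ⟨E, h0, h1, h2, h3⟩ := hsh₁ v hv z hz
      have h4 := hmem₁ v hv z hz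
      refine ⟨rc z, List.mem_append_left _ (hrcmem z h4 ?_), hrcw z, ?_, ?_⟩
      · rw [h0]; exact hout E h3
      · rw [hrcS, h0, hσ₁E E h1]
        ext i
        rw [hneg _ h3, mem_sdiff]
        exact a1 (@hTY i) (@h1 i)
      · rw [hrcl, lvl_neg]
        rw [h0, hFa]
        omega
    · obtain ⟨D', hD', hDN, hvD⟩ := hv₂ v hv
      refine ⟨σ₀, lev, by rw [hvD], fun z hz => ?_⟩
      by_cases hon : On X b z
      · obtain ⟨D, E, hDI, hDc, -, hDE, hEDc, hESA, -, rfl⟩ := hsh₂ v hv z hz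
        have hIE : I ⊆ E := by
          intro i hi
          have h1 := hon i ((hXi i).2 (Or.inl hi))
          by_contra h2
          rw [tog_notMem h2, hbw, tog_mem hi] at h1
          simp at h1
        have hcard : ρ + 1 ≤ (S ∩ E).card := by
          rw [← hIc]
          exact card_le_card (subset_inter hIS hIE)
        have hb₃ : tog b (E \ I) = tog w E := by
          rw [hbw, tog_union disjoint_sdiff, union_sdiff_of_subset hIE]
        have hET : E \ I ⊆ T' := by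
          intro i hi
          rw [mem_sdiff] at hi
          rcases mem_union.1 (hESA hi.1) with h1 | h1
          · exact (hTi i).2 (Or.inl ⟨h1, hi.2⟩)
          · exact (hTi i).2 (Or.inr h1)
        obtain ⟨r, hr1, hr2, hr3, hr4⟩ := hRf (E \ I) hET
          ((card_le_card (sdiff_subset_sdiff (Subset.refl E) hDI)).trans hEDc)
        refine ⟨r, List.mem_append_right _ hr1, hr2.trans hb₃, ?_, ?_⟩
        · rw [hr3]
          ext i
          rw [hposw E hcard]
          simp only [mem_sdiff, hTi, mem_union]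
          exact a9 (@hSY i) (@hAY i) (fun h' => mem_union.1 (hESA h')) (@hIE i) (hIA i)
        · rw [hr4, hb₃, ← ht'b, hlev, lvl_pos ((hFw E).2 hcard)]
      · exact ⟨rc z, List.mem_append_left _ (hrcmem _ (hmem₂ v hv z hz) hon), hrcw z, hrcS z,
          by rw [hrcl, hlev]⟩

end Pool.Agent.J4H72.LV
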