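import Pool.Agent.J4H72.LV.Level
set_option autoImplicit false

/-!
# The values, and the run of a rule with look-ahead
-/

namespace Pool.Agent.J4H72.LV

open Finset Pool.Agent.TH70.AR Pool.Agent.J4H72.LA

variable {n : ℕ}

/-- relabelling the values so that some vertices get prescribed values -/
lemma relabelV {f : (Fin n → Bool) → ℕ} (hf : AOF f) (P : Finset ((Fin n → Bool) × ℕ))
    (h1 : ∀ p ∈ P, ∀ p' ∈ P, To univ f p.1 p'.1 → p.2 ≤ p'.2)
    (h2 : ∀ p ∈ P, ∀ p' ∈ P, p.2 = p'.2 → p.1 = p'.1) (h3 : ∀ p ∈ P, 1 ≤ p.2) :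
    ∃ g : (Fin n → Bool) → ℕ, Function.Injective g ∧
      (∀ x i, g x < g (TH70.AR.flip x i) ↔ f x < f (TH70.AR.flip x i)) ∧
      ∀ p ∈ P, g p.1 = p.2 * 2 ^ n := by
  classical
  obtain ⟨e, -⟩ : ∃ e : (Fin n → Bool) ≃ Fin (Fintype.card (Fin n → Bool)), True :=
    ⟨Fintype.equivFin (Fin n → Bool), trivial⟩
  have hcard : Fintype.card (Fin n → Bool) = 2 ^ n := by simp
  have hκe : ∀ u, (e u : ℕ) < 2 ^ n := fun u => hcard ▸ (e u).2
  -- an injective refinement of `f`
  obtain ⟨κ, hκ⟩ : ∃ κ : (Fin n → Bool) → ℕ, κ = fun u => f u * 2 ^ n + (e u : ℕ) := ⟨_, rfl⟩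
  have hκlt : ∀ u v, f u < f v → κ u < κ v := by
    intro u v h
    simp only [hκ]
    have h1 := hκe u
    have h2 : (f u + 1) * 2 ^ n ≤ f v * 2 ^ n := Nat.mul_le_mul_right _ h
    nlinarith
  have hκinj : Function.Injective κ := by
    intro u v h
    have h1 : f u = f v := by
      rcases lt_trichotomy (f u) (f v) with h' | h' | h'
      · exact absurd h (hκlt u v h').ne
      · exact h'
      · exact absurd h (hκlt v u h').ne'
    simp only [hκ, h1] at h
    exact e.injective (Fin.ext (by omega))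
  obtain ⟨m, hm⟩ : ∃ m : (Fin n → Bool) → ℕ, m = fun u =>
    (P.filter fun p => To univ f p.1 u).sup Prod.snd := ⟨_, rfl⟩
  obtain ⟨R, hR⟩ : ∃ R : (Fin n → Bool) → Finset (Fin n → Bool), R = fun u =>
    univ.filter fun u' => m u' = m u ∧ κ u' < κ u := ⟨_, rfl⟩
  have hRc : ∀ u, (R u).card < 2 ^ n := by
    intro u
    rw [← hcard, ← card_univ]
    apply card_lt_card
    rw [ssubset_iff_of_subset (subset_univ _)]
    exact ⟨u, mem_univ _, fun h => by
      simp only [hR, mem_filter] at h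
      omega⟩
  have hmono : ∀ u v, (m u < m v ∨ (m u = m v ∧ κ u < κ v)) →
      m u * 2 ^ n + (R u).card < m v * 2 ^ n + (R v).card := by
    rintro u v (h | ⟨h, h'⟩)
    · have h3 := hRc u
      have h4 : (m u + 1) * 2 ^ n ≤ m v * 2 ^ n := Nat.mul_le_mul_right _ h
      nlinarith
    · have h3 : (R u).card < (R v).card := by
        apply card_lt_card
        rw [ssubset_iff_of_subset (by
          intro s hs
          simp only [hR, mem_filter, mem_univ, true_and] at hs ⊢
          exact ⟨hs.1.trans h, hs.2.trans h'⟩)]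
        refine ⟨u, ?_, fun h' => ?_⟩
        · rw [hR]
          simp only [mem_filter, mem_univ, true_and]
          exact ⟨h, h'⟩
        · simp only [hR, mem_filter, mem_univ, true_and] at h'
          omega
      rw [h]
      omega
  have hedge : ∀ x i, f x < f (TH70.AR.flip x i) →
      m x * 2 ^ n + (R x).card < m (TH70.AR.flip x i) * 2 ^ n + (R (TH70.AR.flip x i)).card := by
    intro x i h
    apply hmono
    have h4 : m x ≤ m (TH70.AR.flip x i) := by
      simp only [hm]
      apply sup_mono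
      intro p hp
      rw [mem_filter] at hp ⊢
      exact ⟨hp.1, hp.2.tail ⟨i, mem_univ i, rfl, h⟩⟩
    rcases lt_or_eq_of_le h4 with h5 | h5
    · exact Or.inl h5
    · exact Or.inr ⟨h5, hκlt _ _ h⟩
  refine ⟨fun u => m u * 2 ^ n + (R u).card, ?_, ?_, ?_⟩
  · intro u v h
    simp only at h
    by_contra hne
    have hκne : κ u ≠ κ v := fun h' => hne (hκinj h')
    rcases lt_trichotomy (m u) (m v) with h' | h' | h'
    · exact absurd h (hmono u v (Or.inl h')).ne
    · rcases lt_or_gt_of_ne hκne with h'' | h''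
      · exact absurd h (hmono u v (Or.inr ⟨h', h''⟩)).ne
      · exact absurd h (hmono v u (Or.inr ⟨h'.symm, h''⟩)).ne'
    · exact absurd h (hmono v u (Or.inl h')).ne'
  · intro x i
    constructor
    · intro h
      by_contra h'
      have h4 : f (TH70.AR.flip x i) < f x := lt_of_le_of_ne (not_lt.1 h') (hf.ne x i)
      have h5 := hedge (TH70.AR.flip x i) i (by rw [TH70.AR.flip_flip]; exact h4)
      rw [TH70.AR.flip_flip] at h5
      exact absurd (lt_trans h h5) (lt_irrefl _)
    · exact hedge x i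
  · intro p hp
    have hmp : m p.1 = p.2 := by
      simp only [hm]
      apply le_antisymm
      · apply Finset.sup_le
        intro p' hp'
        rw [mem_filter] at hp'
        exact h1 p' hp'.1 p hp hp'.2
      · exact Finset.le_sup (f := Prod.snd) (mem_filter.2 ⟨hp, to_refl _ _ _⟩)
    have hRp : R p.1 = ∅ := by
      rw [eq_empty_iff_forall_notMem]
      intro u hu
      simp only [hR, mem_filter, mem_univ, true_and] at hu
      obtain ⟨h4, h5⟩ := hu
      rw [hmp] at h4
      have h6 := h3 p hp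
      have h7 : (P.filter fun p => To univ f p.1 u).Nonempty := by
        by_contra h8
        rw [not_nonempty_iff_eq_empty] at h8
        simp only [hm, h8, sup_empty] at h4
        change 0 = p.2 at h4
        omega
      obtain ⟨p', hp', h8⟩ := Finset.exists_mem_eq_sup _ h7 Prod.snd
      simp only [hm] at h4
      rw [h8] at h4
      rw [mem_filter] at hp'
      have h9 : p'.1 = p.1 := h2 p' hp'.1 p hp h4
      have h11 := hp'.2
      rw [h9] at h11
      rcases to_le h11 with h10 | h10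
      · rw [h10] at h5
        omega
      · have := hκlt _ _ h10
        omega
    simp only [hmp, hRp, card_empty, add_zero]

/-- the value of a vertex with a given level -/
noncomputable def enc (ℓ : ℕ) (z : Fin n → Bool) : ℕ :=
  ((ℓ + 1) * 2 ^ n + (Fintype.equivFin (Fin n → Bool) z : ℕ)) * 2 ^ n

/-- levels can be turned into values -/
lemma relabelR {f : (Fin n → Bool) → ℕ} (hf : AOF f) (R : List (LR n))
    (hR : ∀ r ∈ R, ∀ s ∈ R, To univ f r.1.w s.1.w → r.2 < s.2 ∨ (r.1.w = s.1.w ∧ r.2 = s.2)) :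
    ∃ g : (Fin n → Bool) → ℕ, Function.Injective g ∧
      (∀ x i, g x < g (TH70.AR.flip x i) ↔ f x < f (TH70.AR.flip x i)) ∧
      ∀ r ∈ R, g r.1.w = enc r.2 r.1.w := by
  classical
  have he : ∀ u : Fin n → Bool, (Fintype.equivFin (Fin n → Bool) u : ℕ) < 2 ^ n := by
    intro u
    have h1 := (Fintype.equivFin (Fin n → Bool) u).2
    have h2 : Fintype.card (Fin n → Bool) = 2 ^ n := by simp
    exact h1.trans_eq h2
  have hlt : ∀ (ℓ ℓ' : ℕ) (u v : Fin n → Bool), ℓ < ℓ' →
      (ℓ + 1) * 2 ^ n + (Fintype.equivFin (Fin n → Bool) u : ℕ)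
        < (ℓ' + 1) * 2 ^ n + (Fintype.equivFin (Fin n → Bool) v : ℕ) := by
    intro ℓ ℓ' u v h
    have h1 := he u
    have h2 : (ℓ + 1 + 1) * 2 ^ n ≤ (ℓ' + 1) * 2 ^ n := Nat.mul_le_mul_right _ (by omega)
    have h3 : (ℓ + 1 + 1) * 2 ^ n = (ℓ + 1) * 2 ^ n + 2 ^ n := by ring
    omega
  obtain ⟨g, h1, h2, h3⟩ := relabelV hf ((R.map fun r => (r.1.w, (r.2 + 1) * 2 ^ n +
    (Fintype.equivFin (Fin n → Bool) r.1.w : ℕ))).toFinset) (by
    intro p hp p' hp' hto
    rw [List.mem_toFinset, List.mem_map] at hp hp'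
    obtain ⟨r, hr, rfl⟩ := hp
    obtain ⟨s, hs, rfl⟩ := hp'
    rcases hR r hr s hs hto with h | ⟨h, h'⟩
    · exact (hlt _ _ _ _ h).le
    · simp only [h, h']
      exact le_rfl) (by
    intro p hp p' hp' heq
    rw [List.mem_toFinset, List.mem_map] at hp hp'
    obtain ⟨r, hr, rfl⟩ := hp
    obtain ⟨s, hs, rfl⟩ := hp'
    simp only at heq ⊢
    rcases lt_trichotomy r.2 s.2 with h | h | h
    · have := hlt _ _ r.1.w s.1.w h
      omega
    · rw [h] at heq
      exact (Fintype.equivFin (Fin n → Bool)).injective (Fin.ext (by omega))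
    · have := hlt _ _ s.1.w r.1.w h
      omega) (by
    intro p hp
    rw [List.mem_toFinset, List.mem_map] at hp
    obtain ⟨r, hr, rfl⟩ := hp
    have : 0 < (r.2 + 1) * 2 ^ n := by positivity
    change 1 ≤ (r.2 + 1) * 2 ^ n + _
    omega)
  refine ⟨g, h1, h2, fun r hr => ?_⟩
  exact h3 (r.1.w, _) (List.mem_toFinset.2 (List.mem_map_of_mem (f := fun r : LR n =>
    (r.1.w, (r.2 + 1) * 2 ^ n + (Fintype.equivFin (Fin n → Bool) r.1.w : ℕ))) hr))

/-- from levels to values -/
noncomputable def tr (v : (Fin n → Bool) × ViewV n) : (Fin n → Bool) × ViewV n :=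
  (v.1, fun z => (v.2 z).map fun p => (p.1, enc p.2 z))

/-- what a rule with look-ahead `ρ` sees at the vertex `x`: for all vertices `z` which can be reached by
at most `ρ` improving pivots the improving directions and the value of `z` -/
noncomputable def viewR (f : (Fin n → Bool) → ℕ) (ρ : ℕ) (x : Fin n → Bool) :
    (Fin n → Bool) × ViewV n := (x, lookV (improving f) f ρ x)

/-- everything seen along `w 0, …, w t`, the current vertex first -/
noncomputable def seenR (f : (Fin n → Bool) → ℕ) (ρ : ℕ) (w : ℕ → (Fin n → Bool)) : ℕ → PastV n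
  | 0 => [viewR f ρ (w 0)]
  | t + 1 => viewR f ρ (w (t + 1)) :: seenR f ρ w t

lemma CovV.real {ρ : ℕ} {R : List (LR n)} {v : (Fin n → Bool) × ViewV n} (h : CovV ρ R v)
    {f : (Fin n → Bool) → ℕ} (hs : ∀ r ∈ R, improving f r.1.w = r.1.S ∧ f r.1.w = enc r.2 r.1.w) :
    tr v = viewR f ρ v.1 := by
  classical
  obtain ⟨σ, lev, h1, h2⟩ := h
  have h3 : (tr v).2 = lookV σ (fun z => enc (lev z) z) ρ v.1 := by
    funext z
    change (v.2 z).map _ = _
    rw [h1]
    simp only [lookV]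
    split_ifs <;> rfl
  have h4 : lookV σ (fun z => enc (lev z) z) ρ v.1 = lookV (improving f) f ρ v.1 := by
    apply lookV_congr
    intro z hz
    obtain ⟨r, h5, h6, h7, h8⟩ := h2 z hz
    have h9 := hs r h5
    rw [h6] at h9
    exact ⟨by rw [h9.1, h7], by rw [h9.2, h8]⟩
  exact Prod.ext rfl (h3.trans h4)

lemma playV_tr {A : PastV n → Fin n} {h q : PastV n} {a b : Fin n → Bool}
    (hq : PlayV (fun h => A (h.map tr)) h a q b) : PlayV A (h.map tr) a (q.map tr) b := by
  induction q generalizing h a with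
  | nil => exact hq
  | cons v q ih =>
    simp only [PlayV] at hq
    obtain ⟨h1, ⟨S, c, h2, h3⟩, h4⟩ := hq
    exact ⟨h1, ⟨S, enc c a, by simp [tr, h2], h3⟩, ih h4⟩

/-- `t` steps of the rule from `a` with the past `h` -/
noncomputable def runR (A : PastV n → Fin n) (f : (Fin n → Bool) → ℕ) (ρ : ℕ) :
    ℕ → (Fin n → Bool) → PastV n → (Fin n → Bool) × PastV n
  | 0, a, h => (a, h)
  | t + 1, a, h => runR A f ρ t (TH70.AR.flip a (A (viewR f ρ a :: h))) (viewR f ρ a :: h)

lemma runR_succ (A : PastV n → Fin n) (f : (Fin n → Bool) → ℕ) (ρ t : ℕ) (a : Fin n → Bool)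
    (h : PastV n) : runR A f ρ (t + 1) a h =
      (TH70.AR.flip (runR A f ρ t a h).1 (A (viewR f ρ (runR A f ρ t a h).1 :: (runR A f ρ t a h).2)),
        viewR f ρ (runR A f ρ t a h).1 :: (runR A f ρ t a h).2) := by
  induction t generalizing a h with
  | zero => rfl
  | succ t ih => rw [runR, ih]; rfl

lemma runR_play {A : PastV n → Fin n} {f : (Fin n → Bool) → ℕ} {ρ : ℕ} {h q : PastV n}
    {a b : Fin n → Bool} (hq : PlayV A h a q b) (hS : ∀ v ∈ q, v = viewR f ρ v.1) :
    ∀ (t : ℕ), t < q.length →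
      ∃ v ∈ q, (runR A f ρ t a h).1 = v.1 ∧ (improving f v.1).Nonempty := by
  induction q generalizing h a with
  | nil => intro t ht; simp at ht
  | cons r q ih =>
    simp only [PlayV] at hq
    obtain ⟨h1, ⟨S, c, h2, h2'⟩, h3⟩ := hq
    have h4 := hS r List.mem_cons_self
    intro t ht
    cases t with
    | zero =>
      refine ⟨r, List.mem_cons_self, h1.symm, ?_⟩
      rw [h4] at h2
      simp only [viewR] at h2
      rw [h1, lookV_self, Option.some.injEq, Prod.mk.injEq] at h2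
      rw [h1, h2.1]
      exact h2'
    | succ t =>
      obtain ⟨v, hv, h5, h6⟩ := ih h3 (fun r hr => hS r (List.mem_cons_of_mem _ hr)) t
        (by simpa using ht)
      refine ⟨v, List.mem_cons_of_mem _ hv, ?_, h6⟩
      rw [h1] at h4
      rw [runR, ← h4]
      exact h5

/-- paths in the uniform orientation -/
lemma path_agr {Y : Finset (Fin n)} {t u s : Fin n → Bool} (h : To Y (fun u => agr u t) u s) :
    Le t u s := by
  induction h with
  | refl => exact le_refl' _ _
  | @tail y y1 _ h2 ih =>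
    obtain ⟨i, hi, rfl, h3⟩ := h2
    exact ih.tail (agr_flip_lt_iff.1 h3)

/-- the lower bound for rules which see the values and improving directions of all vertices reached by
at most `ρ` improving pivots -/
theorem slowV {n k ρ : ℕ}
    (hn : 544 * (ρ + 2) * (k + 1) ^ 3 * (k + 1 + (ρ + 2) * (Nat.log 2 n + 1)) ≤ n)
    (A : PastV n → Fin n) (hA : ValidV A) (x₀ : Fin n → Bool) :
    ∃ f : (Fin n → Bool) → ℕ, Function.Injective f ∧ AOF f ∧
      ∃ (L : ℕ) (w : ℕ → (Fin n → Bool)), w 0 = x₀ ∧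
        (∀ t < L, (improving f (w t)).Nonempty ∧
          w (t + 1) = TH70.AR.flip (w t) (A (seenR f ρ w t))) ∧
        improving f (w L) = ∅ ∧ 2 ^ k ≤ L := by
  classical
  have hA' : ValidV fun h : PastV n => A (h.map tr) := by
    intro x g l S c hg hS
    exact hA x _ (l.map tr) S (enc c x) (by simp [hg]) hS
  obtain ⟨K, l, M, hK, hLv⟩ := lvV_top hA' hn
  obtain ⟨q, R, Q, b, X, Λ', P, -, hlen, -⟩ := hLv univ [] x₀ 0 (by simpa using hK)
  -- the final ball
  obtain ⟨T, hT⟩ : ∃ T : Finset (Fin n), T = univ \ X := ⟨_, rfl⟩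
  obtain ⟨Rf, hRf⟩ : ∃ Rf : List (LR n), Rf = (sml ρ T).toList.map fun D =>
    ((⟨tog b D, T \ D, ∅⟩ : Rec n), Λ' + agr (tog b D) (tog b T)) := ⟨_, rfl⟩
  have hRfm : ∀ r ∈ Rf, ∃ D ⊆ T, D.card ≤ ρ ∧
      r = ((⟨tog b D, T \ D, ∅⟩ : Rec n), Λ' + agr (tog b D) (tog b T)) := by
    intro r hr
    rw [hRf] at hr
    obtain ⟨D, hD, rfl⟩ := List.mem_map.1 hr
    rw [Finset.mem_toList, mem_sml] at hD
    exact ⟨D, hD.1, hD.2, rfl⟩
  have hB : BallV ρ Rf Λ' b (univ \ X) := by
    rw [← hT]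
    intro D hD hc
    refine ⟨((⟨tog b D, T \ D, ∅⟩ : Rec n), Λ' + agr (tog b D) (tog b T)), ?_, rfl, rfl, rfl⟩
    rw [hRf]
    exact List.mem_map_of_mem (f := fun D => ((⟨tog b D, T \ D, ∅⟩ : Rec n),
      Λ' + agr (tog b D) (tog b T))) (Finset.mem_toList.2 (mem_sml.2 ⟨hD, hc⟩))
  have hon : ∀ s ∈ Rf, On X b s.1.w := by
    intro s hs x hx
    obtain ⟨D, hD, -, rfl⟩ := hRfm s hs
    exact tog_notMem fun h => (mem_sdiff.1 (hT ▸ hD h)).2 hx
  have hE : ExtG (univ \ X) (Rf.map Prod.fst) (fun _ f =>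
      (∀ r ∈ Rf, ∀ s ∈ Rf, To (univ \ X) f r.1.w s.1.w → r.2 < s.2 ∨ (r.1.w = s.1.w ∧ r.2 = s.2)) ∧
      ∀ s ∈ Rf, s.2 ≤ Λ' + n → ∀ u, To (univ \ X) f u s.1.w → Le (tog b (univ \ X)) u s.1.w) := by
    intro v 𝓐 h𝓐
    rw [← hT]
    refine ⟨fun u => agr u (tog b T), AOF.uniform _, ?_, ?_, ?_, ?_⟩
    · intro r hr i hi
      obtain ⟨s, hs, rfl⟩ := List.mem_map.1 hr
      obtain ⟨D, hD, -, rfl⟩ := hRfm s hs
      change agr (tog b D) (tog b T) < agr (TH70.AR.flip (tog b D) i) (tog b T) ↔ i ∈ T \ D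
      rw [agr_flip_lt_iff, tog_ne_tog, mem_sdiff]
      tauto
    · intro A hAA
      obtain ⟨r, hr, -, -, -⟩ := hB ∅ (empty_subset _) (by simp)
      obtain ⟨D, -, -, h1⟩ := hRfm r hr
      obtain ⟨x, _, hx, _⟩ := h𝓐 A hAA r.1 (List.mem_map_of_mem hr)
      rw [h1] at hx
      exact absurd hx (by simp)
    · intro r hr s hs hto
      obtain ⟨D, -, -, rfl⟩ := hRfm r hr
      obtain ⟨E, -, -, rfl⟩ := hRfm s hs
      change To T _ (tog b D) (tog b E) at hto
      change Λ' + agr (tog b D) (tog b T) < Λ' + agr (tog b E) (tog b T) ∨ tog b D = tog b E ∧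
        Λ' + agr (tog b D) (tog b T) = Λ' + agr (tog b E) (tog b T)
      rcases to_le hto with h1 | h1
      · exact Or.inr ⟨h1, by rw [h1]⟩
      · exact Or.inl (Nat.add_lt_add_left h1 _)
    · intro s hs _ u hu
      exact path_agr hu
  have hRS : ∀ r ∈ Rf.map Prod.fst, r.S ⊆ univ \ X := by
    intro r hr
    obtain ⟨s, hs, rfl⟩ := List.mem_map.1 hr
    obtain ⟨D, hD, -, rfl⟩ := hRfm s hs
    rw [← hT]
    exact sdiff_subset
  have hRW : ∀ r ∈ Rf.map Prod.fst, r.W ⊆ univ \ X := by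
    intro r hr
    obtain ⟨s, hs, rfl⟩ := List.mem_map.1 hr
    obtain ⟨D, hD, -, rfl⟩ := hRfm s hs
    exact empty_subset _
  have hcomp := extG_comp P.ext (by
    intro r hr
    obtain ⟨s, hs, rfl⟩ := List.mem_map.1 hr
    exact P.wipes s hs) hE hRS hRW (by
    intro r hr
    obtain ⟨s, hs, rfl⟩ := List.mem_map.1 hr
    exact hon s hs)
  obtain ⟨f₀, hf₀, hf₀S, -, v', f₁, f₂, g, PP, O₁, ⟨hm₂, hf₂⟩, hv', hmix, hcap, hsep⟩ :=
    hcomp (fun _ => false) ∅ (by simp)
  have hmem : ∀ r ∈ R.map (clV X b) ++ Rf,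
      r.1 ∈ (R.map Prod.fst).map (cl X b) ++ Rf.map Prod.fst := by
    intro r hr
    rw [List.mem_append] at hr ⊢
    rcases hr with hr | hr
    · obtain ⟨s, hs, rfl⟩ := List.mem_map.1 hr
      exact Or.inl (List.mem_map_of_mem (List.mem_map_of_mem hs))
    · exact Or.inr (List.mem_map_of_mem hr)
  have hmono := comp_mono P.wipes P.hi P.late P.cnt P.act hon (by
    intro s hs _
    obtain ⟨D, hD, -, rfl⟩ := hRfm s hs
    rw [← hT]
    exact ⟨rfl, D, hD, rfl⟩) hm₂ hf₂ O₁ hv' hmix hcap (fun u hu r hr => hsep u hu r.1 (hmem r hr))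
  have himp₀ : ∀ r ∈ R.map (clV X b) ++ Rf, improving f₀ r.1.w = r.1.S := by
    intro r hr
    ext i
    rw [improving, mem_filter]
    simpa using hf₀S r.1 (hmem r hr) i (mem_univ i)
  obtain ⟨f, hinj, hadj, hval⟩ := relabelR hf₀ _ hmono
  have himp : improving f = improving f₀ := by
    funext x
    ext i
    simp only [improving, mem_filter, hadj]
  have hAOF : AOF f := by
    have h1 : ∀ y i, f (TH70.AR.flip y i) < f y ↔ f₀ (TH70.AR.flip y i) < f₀ y := by
      intro y i
      have := hadj (TH70.AR.flip y i) i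
      rwa [TH70.AR.flip_flip] at this
    intro F x
    obtain ⟨y, ⟨hy1, hy2⟩, hy3⟩ := hf₀ F x
    exact ⟨y, ⟨hy1, fun i hi => (h1 y i).2 (hy2 i hi)⟩,
      fun z hz => hy3 z ⟨hz.1, fun i hi => (h1 z i).1 (hz.2 i hi)⟩⟩
  have hreal : ∀ v ∈ q.map tr, v = viewR f ρ v.1 := by
    intro v hv
    obtain ⟨v', hv', rfl⟩ := List.mem_map.1 hv
    have h1 := ((P.cov Rf hB).1 v' hv').mono
      ((subV_map_cl R X b).append (SubV.of_subset (List.Subset.refl Rf)))
    exact h1.real fun r hr => ⟨by rw [himp]; exact himp₀ r hr, hval r hr⟩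
  have hrun := runR_play (f := f) (ρ := ρ) (playV_tr P.play) hreal
  refine ⟨f, hinj, hAOF, ?_⟩
  -- the run
  set w : ℕ → (Fin n → Bool) := fun t => (runR A f ρ t x₀ []).1 with hw
  have hseen : ∀ t, seenR f ρ w t = viewR f ρ (w t) :: (runR A f ρ t x₀ []).2 := by
    intro t
    induction t with
    | zero => rfl
    | succ t ih => rw [seenR, ih, runR_succ]
  have hstep : ∀ t, w (t + 1) = TH70.AR.flip (w t) (A (seenR f ρ w t)) := by
    intro t
    rw [hseen]
    simp only [hw, runR_succ]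
  have hup : ∀ t, (improving f (w t)).Nonempty → f (w t) < f (w (t + 1)) := by
    intro t ht
    have h1 := hA (w t) (lookV (improving f) f ρ (w t)) (runR A f ρ t x₀ []).2
      (improving f (w t)) (f (w t)) (lookV_self _ _ _ _) ht
    rw [hstep, hseen]
    change A (viewR f ρ (w t) :: (runR A f ρ t x₀ []).2) ∈ improving f (w t) at h1
    rw [improving, mem_filter] at h1
    exact h1.2
  have hend : ∃ t, improving f (w t) = ∅ := by
    by_contra hne
    push Not at hne
    have h1 : StrictMono fun t => f (w t) := strictMono_nat_of_lt_succ fun t => hup t (hne t)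
    have h2 := h1.injective
    have h3 : Function.Injective w := fun s t h => h2 (by simp only [h])
    exact not_injective_infinite_finite w h3
  refine ⟨Nat.find hend, w, rfl, fun t ht => ⟨?_, hstep t⟩, Nat.find_spec hend, ?_⟩
  · exact nonempty_iff_ne_empty.2 (Nat.find_min hend ht)
  · by_contra hlt
    obtain ⟨v, hv, h1, h2⟩ := hrun (Nat.find hend) (by rw [List.length_map]; omega)
    rw [← h1] at h2
    exact h2.ne_empty (Nat.find_spec hend)

end Pool.Agent.J4H72.LV
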