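import Pool.Agent.J4H72.LV.ShbA
import Pool.Agent.N53.CL.Fields

/-!
# Project LV of helper20, job SHB
-/

set_option autoImplicit false

namespace Pool.Agent.J4H72.LV

open Polynomial Filter Topology Pool.Agent.J4H21.TP Pool.Agent.J4H20.TQ Pool.Agent.J4H72.LV.SH
open Pool.Agent.J4H20.LV

/-- all numbers of real solutions occur -/
theorem real_data (e u : ℕ) (he : 1 ≤ e) (hu : u ≤ e) (hev : Even (e - u)) :
    ∃ a : Fin e → ℤ, Function.Injective a ∧ ∃ v₁ v₂ : ℝ, 0 < v₁ ∧ v₁ < v₂ ∧ ∀ v : ℝ, v₁ < v → v < v₂ →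
      {x : ℝ | ∏ i, (x - (a i : ℝ)) = - v}.ncard = u := by
  obtain ⟨t, ht⟩ := hev
  rcases Nat.lt_or_ge e 3 with h3 | h3
  · have hinj : Function.Injective (fun i : Fin e => ((i : ℕ) : ℤ)) := by
      intro i i' h
      have h' : (((i : ℕ) : ℤ)) = ((i' : ℕ) : ℤ) := h
      exact Fin.ext (by exact_mod_cast h')
    by_cases h : u = e % 2
    · obtain ⟨B, hB⟩ := Pool.Agent.W240.CG.real1 e (fun i => ((i : ℕ) : ℤ)) he hinj
      refine ⟨_, hinj, |B| + 1, |B| + 2, by positivity, by linarith, fun v hv _ => ?_⟩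
      rw [h]
      exact hB v (by linarith [le_abs_self B])
    · have h1 : u = e := by omega
      refine ⟨_, hinj, 1 / 3 ^ e / 2, 1 / 3 ^ e, by positivity, half_lt_self (by positivity),
        fun v hv hv' => ?_⟩
      have h4 : (0 : ℝ) < 3 ^ e := by positivity
      rw [lt_div_iff₀ h4] at hv'
      have h2 := Pool.Agent.W240.CG.real2 e (fun i => ((i : ℕ) : ℤ)) he hinj v
        (lt_trans (by positivity) hv) hv'
      rw [h1]
      exact h2
  · obtain ⟨D, v₁, v₂, h1, h2, h4⟩ := Pool.Agent.N53.CL.data_all e u t h3 (by omega)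
    exact ⟨D.a, D.ha, v₁, v₂, h1, h2, h4⟩

theorem t_SHB : S_PL → S_GM → S_SHB := by
  intro hPL hGM m e j u u' hm hme he hje hue heu hu'j hju'
  classical
  obtain ⟨a, ha, v₁, v₂, hv₁, hv₁₂, hcount⟩ := real_data e u he hue heu
  obtain ⟨v, hv, z, hz, hz0, hzc⟩ := fin_part m e u hm hme he a v₁ v₂ hv₁ hv₁₂ hcount
  obtain ⟨h1, y, h1m, h1n, hy, hy0, hyc, h1p⟩ := exists_g j u' hu'j hju'
  have hm1 : 1 ≤ m := by omega
  have hmR : (0 : ℝ) < m := by exact_mod_cast (by omega : 0 < m)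
  -- the roots
  set α : Fin m × Fin e → ℚ := fun i => ((i.1 : ℕ) : ℚ) - ((m : ℚ) - 1) / 2 with hα
  have hαs : ∀ l : Fin e, ∑ i, α (i, l) = 0 := by
    intro l
    simp only [hα]
    rw [Finset.sum_sub_distrib, Finset.sum_const, Finset.card_univ, Fintype.card_fin, nsmul_eq_mul,
      Fin.sum_univ_eq_sum_range (fun i : ℕ => (i : ℚ)) m]
    have h2 := Finset.sum_range_id_mul_two m
    have h3 : ((∑ i ∈ Finset.range m, i : ℕ) : ℚ) * 2 = m * ((m - 1 : ℕ) : ℚ) := by exact_mod_cast h2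
    push_cast [Nat.cast_sub hm1] at h3
    linarith
  obtain ⟨hh, rr, hGr⟩ := hGM m e (fun l => (a l : ℚ)) α hm hαs
  -- the parameters
  set ε : ℕ → ℚ := fun k => 1 / ((k : ℚ) + m + 1) with hε
  have hε0 : ∀ k, 0 < ε k := fun k => by simp only [hε]; positivity
  have hεlim : Tendsto (fun k => (ε k : ℝ)) atTop (𝓝 0) := by
    have h2 := (tendsto_one_div_add_atTop_nhds_zero_nat (𝕜 := ℝ)).comp (tendsto_add_atTop_nat m)
    refine h2.congr fun k => ?_
    simp only [Function.comp_apply, hε]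
    push_cast
    ring_nf
  set R : ℕ → ℚ := fun k => (k : ℚ) + 1 with hR
  have hR0 : ∀ k, 0 < R k := fun k => by simp only [hR]; positivity
  have hRR0 : ∀ k, (0 : ℝ) < (R k : ℝ) := fun k => by exact_mod_cast hR0 k
  have hRlim : Tendsto (fun k => (R k : ℝ)) atTop atTop := by
    have h2 : Tendsto (fun k : ℕ => (k : ℝ) + 1) atTop atTop :=
      tendsto_atTop_add_const_right _ _ tendsto_natCast_atTop_atTop
    refine h2.congr fun k => ?_
    simp [hR]
  set AQ : ℚ[X] := ∏ l, (X - C (a l : ℚ)) with hAQ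
  have hAQm : AQ.Monic := monic_prod_of_monic _ _ fun i _ => monic_X_sub_C _
  have hAQn : AQ.natDegree = e := by
    rw [hAQ, natDegree_prod_of_monic _ _ fun i _ => monic_X_sub_C _]
    simp only [natDegree_X_sub_C]
    simp
  set A : ℝ[X] := ∏ l, (X - C (a l : ℝ)) with hA
  have hAm : A.Monic := monic_prod_of_monic _ _ fun i _ => monic_X_sub_C _
  have hAn : A.natDegree = e := by
    rw [hA, natDegree_prod_of_monic _ _ fun i _ => monic_X_sub_C _]
    simp only [natDegree_X_sub_C]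
    simp
  have hlow : ∀ (n : ℕ) (c : Fin n → ℚ), (∑ j : Fin n, C (c j) * X ^ (j : ℕ) : ℚ[X]).degree < n := by
    intro n c
    exact degree_sum_fin_lt c
  set g : ℕ → ℚ[X] := fun k => AQ + C (ε k ^ 2) * ∑ l : Fin e, C ((hh l).eval (ε k)) * X ^ (l : ℕ) with hg
  set r : ℕ → ℚ[X] := fun k => ∑ l : Fin ((m - 1) * e), C ((rr l).eval (ε k)) * X ^ (l : ℕ) with hr
  have hgmon : ∀ k, (g k).Monic ∧ (g k).natDegree = e := by
    intro k
    have h2 : (C (ε k ^ 2) * ∑ l : Fin e, C ((hh l).eval (ε k)) * X ^ (l : ℕ) : ℚ[X]).degree <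
        AQ.degree := by
      rw [degree_eq_natDegree hAQm.ne_zero, hAQn, ← smul_eq_C_mul]
      exact (degree_smul_le _ _).trans_lt (hlow e _)
    refine ⟨hAQm.add_of_left h2, ?_⟩
    simp only [hg]
    rw [natDegree_add_eq_left_of_degree_lt h2, hAQn]
  have hrdeg : ∀ k, (r k).degree < ((m - 1) * e : ℕ) := fun k => hlow _ _
  set b : ℕ → Fin m × Fin e → ℚ := fun k i => (a i.2 : ℚ) + ε k * α i with hb
  have hbgr : ∀ k, ∏ i, (X - C (b k i)) = g k ^ m + r k := fun k => hGr (ε k)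
  have hbinj : ∀ k, Function.Injective (b k) := by
    intro k i i' hii
    simp only [hb, hα] at hii
    have hi1 : (((i.1 : ℕ) : ℚ)) < m := by exact_mod_cast i.1.2
    have hi2 : (((i'.1 : ℕ) : ℚ)) < m := by exact_mod_cast i'.1.2
    have hi3 : (0 : ℚ) ≤ ((i.1 : ℕ) : ℚ) := Nat.cast_nonneg _
    have hi4 : (0 : ℚ) ≤ ((i'.1 : ℕ) : ℚ) := Nat.cast_nonneg _
    have hεm : ε k * m < 1 := by
      simp only [hε]
      rw [one_div, inv_mul_lt_iff₀ (by positivity)]
      have : (0 : ℚ) ≤ k := Nat.cast_nonneg _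
      linarith
    have h2 : ((a i.2 - a i'.2 : ℤ) : ℚ) = ε k * (((i'.1 : ℕ) : ℚ) - ((i.1 : ℕ) : ℚ)) := by
      push_cast
      linarith
    have h3 : |((a i.2 - a i'.2 : ℤ) : ℚ)| < 1 := by
      rw [h2, abs_mul, abs_of_pos (hε0 k)]
      have h4 : |((i'.1 : ℕ) : ℚ) - ((i.1 : ℕ) : ℚ)| ≤ m := by
        rw [abs_le]; constructor <;> linarith
      exact (mul_le_mul_of_nonneg_left h4 (hε0 k).le).trans_lt hεm
    have h5 : a i.2 - a i'.2 = 0 := by
      have : |a i.2 - a i'.2| < 1 := by exact_mod_cast h3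
      exact Int.abs_lt_one_iff.1 this
    rw [h5, Int.cast_zero] at h2
    have h6 : ((i'.1 : ℕ) : ℚ) - ((i.1 : ℕ) : ℚ) = 0 := by
      rcases mul_eq_zero.1 h2.symm with h | h
      · exact absurd h (hε0 k).ne'
      · exact h
    have h7 : (i.1 : ℕ) = (i'.1 : ℕ) := by
      have : ((i.1 : ℕ) : ℚ) = ((i'.1 : ℕ) : ℚ) := by linarith
      exact_mod_cast this
    exact Prod.ext (Fin.ext h7) (ha (sub_eq_zero.1 h5))
  set h : ℕ → ℚ[X] := fun k => scaleRoots h1 (R k) with hhd
  have hhm : ∀ k, (h k).Monic := fun k => (monic_scaleRoots_iff (R k)).2 h1m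
  have hhn : ∀ k, (h k).natDegree = j := fun k => by simp only [hhd]; rw [natDegree_scaleRoots, h1n]
  have hhc : ∀ k d, (h k).coeff d = h1.coeff d * R k ^ (j - d) := by
    intro k d
    simp only [hhd]
    rw [coeff_scaleRoots, h1n]
  set w₀ : ℝ := v / ((h1.eval 0 : ℚ) : ℝ) with hw₀
  have h1pR : (0 : ℝ) < ((h1.eval 0 : ℚ) : ℝ) := by exact_mod_cast h1p
  have hw₀0 : 0 < w₀ := div_pos hv h1pR
  set σ : ℕ → ℝ := fun k => w₀ / (R k : ℝ) ^ j with hσ
  have hσ0 : ∀ k, 0 < σ k := fun k => div_pos hw₀0 (pow_pos (hRR0 k) _)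
  set G : ℕ → ℝ[X] := fun k => (g k).map (algebraMap ℚ ℝ) with hG
  set S : ℕ → ℝ[X] := fun k => C (σ k) * (h k).map (algebraMap ℚ ℝ) with hS
  set W : ℕ → ℝ[X] := fun k => (g k ^ m + r k).map (algebraMap ℚ ℝ) with hW
  set P : ℕ → ℝ[X] := fun k => (G k + S k) ^ m - W k with hP
  have hWd : ∀ k, W k = G k ^ m + (r k).map (algebraMap ℚ ℝ) := by
    intro k
    simp only [hG]
    rw [← Polynomial.map_pow, ← Polynomial.map_add]
  have hGA : CT G A := by
    have h2 : ∀ k, G k = A + C ((ε k : ℝ) ^ 2) * ∑ l : Fin e, C (((hh l).eval (ε k) : ℚ) : ℝ) * X ^ (l : ℕ) := by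
      intro k
      simp only [hG, hg, hAQ, hA]
      simp [Polynomial.map_prod, Polynomial.map_sum]
    have h3 := (CT.const A).add ((CT.cc (hεlim.pow 2)).mul (CT.sum Finset.univ
      (Q := fun (l : Fin e) k => C (((hh l).eval (ε k) : ℚ) : ℝ) * X ^ (l : ℕ))
      (P := fun l => C (((hh l).eval 0 : ℚ) : ℝ) * X ^ (l : ℕ))
      fun l _ => (CT.cc (pol_lim (hh l) ε hεlim)).mul (CT.const _)))
    rw [zero_pow two_ne_zero, C_0, zero_mul, add_zero] at h3
    intro d
    exact (h3 d).congr fun k => by rw [h2 k]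
  have hSv : CT S (C v) := by
    intro d
    have h2 : ∀ k, (S k).coeff d = σ k * ((h1.coeff d * R k ^ (j - d) : ℚ) : ℝ) := by
      intro k
      simp only [hS]
      rw [coeff_C_mul, coeff_map, hhc]
      rfl
    rcases Nat.eq_zero_or_pos d with hd | hd
    · subst hd
      rw [coeff_C_zero]
      refine tendsto_const_nhds.congr fun k => ?_
      rw [h2 k]
      simp only [hσ, hw₀]
      have h3 : h1.coeff 0 = h1.eval 0 := coeff_zero_eq_eval_zero h1
      rw [h3, Nat.sub_zero]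
      push_cast
      have h4 : ((R k : ℚ) : ℝ) ^ j ≠ 0 := (pow_pos (hRR0 k) _).ne'
      field_simp
    · rw [coeff_C_ne_zero hd.ne']
      rcases Nat.lt_or_ge j d with hjd | hjd
      · refine tendsto_const_nhds.congr fun k => ?_
        rw [h2 k, coeff_eq_zero_of_natDegree_lt (by rw [h1n]; exact hjd)]
        simp
      · have h3 : Tendsto (fun k => ((R k : ℝ) ^ d)⁻¹) atTop (𝓝 0) :=
          ((tendsto_pow_atTop hd.ne').comp hRlim).inv_tendsto_atTop
        have h4 := h3.const_mul (w₀ * (h1.coeff d : ℝ))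
        rw [mul_zero] at h4
        refine h4.congr fun k => ?_
        rw [h2 k]
        simp only [hσ]
        push_cast
        have h5 : (R k : ℝ) ^ j = (R k : ℝ) ^ d * (R k : ℝ) ^ (j - d) := by
          rw [← pow_add]; congr 1; omega
        have h6 := (pow_pos (hRR0 k) d).ne'
        have h7 := (pow_pos (hRR0 k) (j - d)).ne'
        rw [h5]
        field_simp
  have hWprod : ∀ k, W k = ∏ i : Fin m × Fin e, (X - C ((a i.2 : ℝ) + (ε k : ℝ) * (α i : ℝ))) := by
    intro k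
    simp only [hW]
    rw [← hbgr k, Polynomial.map_prod]
    refine Finset.prod_congr rfl fun i _ => ?_
    simp [hb]
  have hWA : CT W (A ^ m) := by
    have h2 := CT.prod Finset.univ (Q := fun (i : Fin m × Fin e) k => X - C ((a i.2 : ℝ) + (ε k : ℝ) * (α i : ℝ)))
      (P := fun i => X - C ((a i.2 : ℝ) + 0 * (α i : ℝ)))
      fun i _ => (CT.const X).sub (CT.cc (tendsto_const_nhds.add (hεlim.mul_const _)))
    have h3 : ∏ i : Fin m × Fin e, (X - C ((a i.2 : ℝ) + 0 * (α i : ℝ))) = A ^ m := by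
      rw [Fintype.prod_prod_type]
      simp only [zero_mul, add_zero]
      rw [Finset.prod_const, Finset.card_univ, Fintype.card_fin]
    rw [h3] at h2
    intro d
    exact (h2 d).congr fun k => by rw [hWprod k]
  -- the limit at the finite places
  have hPfin : CT P ((A + C v) ^ m - A ^ m) := ((hGA.add hSv).pow m).sub hWA
  -- the limit at the places near infinity
  have hR0' : ∀ k, (R k : ℝ) ≠ 0 := fun k => (hRR0 k).ne'
  set G' : ℕ → ℝ[X] := fun k => C (((R k : ℝ) ^ e)⁻¹) * (G k).comp (C (R k : ℝ) * X) with hG'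
  have hG'lim : CT G' (X ^ e) := by
    have h2 := CT_scale e hGA (fun k d hd => by
      refine coeff_eq_zero_of_natDegree_lt ?_
      simp only [hG]
      rw [(hgmon k).1.natDegree_map, (hgmon k).2]
      exact hd) hRlim hR0'
    have h3 : A.coeff e = 1 := by
      have := hAm.coeff_natDegree
      rwa [hAn] at this
    rw [h3, C_1, one_mul] at h2
    exact h2
  have hGc : ∀ k, (G k).comp (C (R k : ℝ) * X) = C ((R k : ℝ) ^ e) * G' k := by
    intro k
    simp only [hG']
    rw [← mul_assoc, ← C_mul, mul_inv_cancel₀ (pow_ne_zero _ (hR0' k)), C_1, one_mul]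
  set Rr : ℕ → ℝ[X] := fun k => (r k).map (algebraMap ℚ ℝ) with hRr
  have hRrlim : CT Rr (∑ l : Fin ((m - 1) * e), C (((rr l).eval 0 : ℚ) : ℝ) * X ^ (l : ℕ)) := by
    have h3 := CT.sum Finset.univ
      (Q := fun (l : Fin ((m - 1) * e)) k => C (((rr l).eval (ε k) : ℚ) : ℝ) * X ^ (l : ℕ))
      (P := fun l => C (((rr l).eval 0 : ℚ) : ℝ) * X ^ (l : ℕ))
      fun l _ => (CT.cc (pol_lim (rr l) ε hεlim)).mul (CT.const _)
    intro d
    refine (h3 d).congr fun k => ?_
    simp only [hRr, hr]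
    simp [Polynomial.map_sum]
  have hRrN : ∀ k d, ((m - 1) * e) ≤ d → (Rr k).coeff d = 0 := by
    intro k d hd
    simp only [hRr]
    rw [coeff_map]
    have h2 : (r k).coeff d = 0 := coeff_eq_zero_of_degree_lt (lt_of_lt_of_le (hrdeg k) (by exact_mod_cast hd))
    rw [h2, map_zero]
  set R' : ℕ → ℝ[X] := fun k => C (((R k : ℝ) ^ ((m - 1) * e))⁻¹) * (Rr k).comp (C (R k : ℝ) * X) with hR'
  have hR'lim : CT R' 0 := by
    have h2 := CT_scale ((m - 1) * e) hRrlim (fun k d hd => hRrN k d hd.le) hRlim hR0'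
    have h3 : (∑ l : Fin ((m - 1) * e), C (((rr l).eval 0 : ℚ) : ℝ) * X ^ (l : ℕ) : ℝ[X]).coeff ((m - 1) * e) = 0 :=
      coeff_eq_zero_of_degree_lt (degree_sum_fin_lt _)
    rw [h3, C_0, zero_mul] at h2
    exact h2
  set H : ℝ[X] := h1.map (algebraMap ℚ ℝ) with hHd
  have hSc : ∀ k, (S k).comp (C (R k : ℝ) * X) = C w₀ * H := by
    intro k
    ext d
    simp only [hS, hHd]
    rw [comp_C_mul_X_coeff, coeff_C_mul, coeff_map, hhc, coeff_C_mul, coeff_map]
    simp only [hσ]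
    rcases Nat.lt_or_ge j d with hjd | hjd
    · rw [coeff_eq_zero_of_natDegree_lt (by rw [h1n]; exact hjd)]
      simp
    · have h5 : (R k : ℝ) ^ j = (R k : ℝ) ^ d * (R k : ℝ) ^ (j - d) := by
        rw [← pow_add]; congr 1; omega
      have h6 := (pow_pos (hRR0 k) d).ne'
      have h7 := (pow_pos (hRR0 k) (j - d)).ne'
      rw [h5]
      simp only [eq_ratCast]
      push_cast
      field_simp
  set c : ℕ → ℝ := fun k => ((R k : ℝ) ^ e)⁻¹ with hc
  have hclim : Tendsto c atTop (𝓝 0) := ((tendsto_pow_atTop (by omega : e ≠ 0)).comp hRlim).inv_tendsto_atTop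
  have hPinf : CT (fun k => C (((R k : ℝ) ^ ((m - 1) * e))⁻¹) * (P k).comp (C (R k : ℝ) * X))
      (C w₀ * H * (C (m : ℝ) * X ^ ((m - 1) * e))) := by
    have h2 := ((CT.const (C w₀ * H)).mul (CT.sum (Finset.range m)
      (Q := fun i k => (G' k + C (c k) * (C w₀ * H)) ^ i * G' k ^ (m - 1 - i))
      (P := fun i => (X ^ e + C 0 * (C w₀ * H)) ^ i * (X ^ e) ^ (m - 1 - i))
      fun i _ => ((hG'lim.add ((CT.cc hclim).mul (CT.const _))).pow i).mul (hG'lim.pow _))).sub hR'lim
    have h3 : ∑ i ∈ Finset.range m, (X ^ e + C 0 * (C w₀ * H)) ^ i * (X ^ e) ^ (m - 1 - i) =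
        C (m : ℝ) * X ^ ((m - 1) * e) := by
      rw [C_0, zero_mul, add_zero, Finset.sum_congr rfl (g := fun _ => (X : ℝ[X]) ^ ((m - 1) * e))]
      · rw [Finset.sum_const, Finset.card_range, nsmul_eq_mul]
        simp
      · intro i hi
        rw [Finset.mem_range] at hi
        rw [← pow_add, ← pow_mul]
        congr 1
        have : i + (m - 1 - i) = m - 1 := by omega
        rw [this, mul_comm]
    rw [h3, sub_zero] at h2
    intro d
    refine (h2 d).congr fun k => ?_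
    congr 1
    beta_reduce
    -- the identity
    have h4 : P k = S k * (∑ i ∈ Finset.range m, (G k + S k) ^ i * G k ^ (m - 1 - i)) - Rr k := by
      have h5 := (Commute.all (G k + S k) (G k)).mul_geom_sum₂ m
      rw [add_sub_cancel_left] at h5
      rw [h5]
      simp only [hP, hRr]
      rw [hWd k]
      ring
    have h6 : ∀ i ∈ Finset.range m, C (((R k : ℝ) ^ ((m - 1) * e))⁻¹) *
        ((C ((R k : ℝ) ^ e) * G' k + C w₀ * H) ^ i * (C ((R k : ℝ) ^ e) * G' k) ^ (m - 1 - i)) =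
        (G' k + C (c k) * (C w₀ * H)) ^ i * G' k ^ (m - 1 - i) := by
      intro i hi
      rw [Finset.mem_range] at hi
      have h7 : C ((R k : ℝ) ^ e) * G' k + C w₀ * H =
          C ((R k : ℝ) ^ e) * (G' k + C (c k) * (C w₀ * H)) := by
        have e1 : C ((R k : ℝ) ^ e) * C (c k) = 1 := by
          rw [← C_mul]
          simp only [hc]
          rw [mul_inv_cancel₀ (pow_ne_zero _ (hR0' k)), C_1]
        linear_combination (-(C w₀ * H)) * e1
      rw [h7, mul_pow, mul_pow]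
      have h8 : C (((R k : ℝ) ^ ((m - 1) * e))⁻¹) * (C ((R k : ℝ) ^ e) ^ i * C ((R k : ℝ) ^ e) ^ (m - 1 - i)) = 1 := by
        rw [← pow_add, show i + (m - 1 - i) = m - 1 by omega, ← C_pow, ← pow_mul, ← C_mul,
          show e * (m - 1) = ((m - 1) * e) from mul_comm _ _, inv_mul_cancel₀ (pow_ne_zero _ (hR0' k)), C_1]
      linear_combination ((G' k + C (c k) * (C w₀ * H)) ^ i * G' k ^ (m - 1 - i)) * h8
    rw [h4, sub_comp, mul_comp, Polynomial.sum_comp]
    simp only [mul_comp, pow_comp, add_comp]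
    rw [hSc k, hGc k, mul_sub]
    simp only [hR']
    congr 1
    have h9 := Finset.sum_congr rfl h6
    rw [← Finset.mul_sum] at h9
    rw [← h9]
    ring
  -- the zeros
  have hy1 : ∀ i, (y i) ≠ 0 := by
    intro i h2
    have h3 := (hy0 i).1
    rw [h2, ← coeff_zero_eq_aeval_zero'] at h3
    have h4 : h1.coeff 0 = h1.eval 0 := coeff_zero_eq_eval_zero h1
    rw [h4] at h3
    have h5 : (algebraMap ℚ ℂ) (h1.eval 0) ≠ 0 := by
      simpa using h1p.ne'
    exact h5 (by simpa using h3)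
  have key := hPL (Fin ((m - 1) * e) ⊕ Fin j) P (fun _ _ => 0) (Sum.elim (fun _ _ => 1) (fun _ k => (R k : ℝ)))
    (Sum.elim (fun _ _ => 1) (fun _ k => (((R k : ℝ) ^ ((m - 1) * e))⁻¹)))
    (Sum.elim (fun _ => (A + C v) ^ m - A ^ m) (fun _ => C w₀ * H * (C (m : ℝ) * X ^ ((m - 1) * e))))
    (Sum.elim z y) ?_ ?_ ?_ ?_ ?_
  · obtain ⟨k, ⟨w, hw, hw0⟩, -⟩ := key.exists
    refine ⟨b k, g k, r k, h k, σ k, hbinj k, (hgmon k).1, (hgmon k).2, hhm k, hhn k, hrdeg k, hbgr k,
      hσ0 k, fun i => w (finSumFinEquiv.symm i), hw.comp finSumFinEquiv.symm.injective, fun i => ?_, ?_⟩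
    · exact ⟨(hw0 _).1, (hw0 _).2.1⟩
    · have h2 : {i : Fin (((m - 1) * e) + j) | (w (finSumFinEquiv.symm i)).im = 0} =
          finSumFinEquiv '' (Sum.inl '' {i : Fin ((m - 1) * e) | (z i).im = 0} ∪ Sum.inr '' {i : Fin j | (y i).im = 0}) := by
        ext i
        simp only [Set.mem_ofPred_eq, Set.mem_image, Set.mem_union]
        constructor
        · intro h3
          refine ⟨finSumFinEquiv.symm i, ?_, by simp⟩
          rw [(hw0 _).2.2] at h3
          rcases hi : finSumFinEquiv.symm i with i' | i'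
          · rw [hi] at h3
            exact Or.inl ⟨i', h3, rfl⟩
          · rw [hi] at h3
            exact Or.inr ⟨i', h3, rfl⟩
        · rintro ⟨x, hx, rfl⟩
          rw [Equiv.symm_apply_apply, (hw0 _).2.2]
          rcases hx with ⟨i', h3, rfl⟩ | ⟨i', h3, rfl⟩
          · exact h3
          · exact h3
      rw [h2, Set.ncard_image_of_injective _ finSumFinEquiv.injective, Set.ncard_union_eq _ (Set.toFinite _) (Set.toFinite _),
        Set.ncard_image_of_injective _ Sum.inl_injective, Set.ncard_image_of_injective _ Sum.inr_injective, hzc, hyc]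
      rw [Set.disjoint_left]
      rintro _ ⟨i, _, rfl⟩ ⟨i', _, h3⟩
      exact absurd h3 (by simp)
  · intro k
    rw [Fintype.card_sum, Fintype.card_fin, Fintype.card_fin]
    have h2 := deg_P m e j hm1 (G k) ((h k).map (algebraMap ℚ ℝ)) (Rr k) (σ k) (hσ0 k).ne' hje
      ((hgmon k).1.map _) (by simp only [hG]; rw [(hgmon k).1.natDegree_map, (hgmon k).2])
      ((hhm k).map _) (by rw [(hhm k).natDegree_map, hhn k]) ((degree_map_le).trans_lt (hrdeg k))
    have h3 : P k = (G k + C (σ k) * (h k).map (algebraMap ℚ ℝ)) ^ m - (G k ^ m + Rr k) := by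
      simp only [hP, hS, hRr]
      rw [hWd k]
    rw [h3]
    exact h2
  · rintro (i | i) k
    · exact one_ne_zero
    · exact hR0' k
  · rintro (i | i) d
    · simp only [Sum.elim_inl]
      refine (hPfin d).congr fun k => ?_
      rw [one_mul, C_0, C_1, zero_add, one_mul, comp_X]
    · simp only [Sum.elim_inr]
      refine (hPinf d).congr fun k => ?_
      rw [C_0, zero_add, coeff_C_mul]
  · rintro (i | i)
    · exact hz0 i
    · simp only [Sum.elim_inr]
      have h2 : aeval (y i) H = 0 := by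
        rw [hHd, aeval_map_algebraMap]; exact (hy0 i).1
      have h3 : aeval (y i) (derivative H) ≠ 0 := by
        rw [hHd, derivative_map, aeval_map_algebraMap]; exact (hy0 i).2
      constructor
      · rw [_root_.map_mul, _root_.map_mul, h2, mul_zero, zero_mul]
      · rw [derivative_mul, derivative_C_mul]
        simp only [_root_.map_add, _root_.map_mul, h2, mul_zero, zero_mul, add_zero]
        refine mul_ne_zero (mul_ne_zero ?_ h3) ?_
        · rw [aeval_C]
          simpa using hw₀0.ne'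
        · rw [map_pow, aeval_X, aeval_C]
          refine mul_ne_zero ?_ (pow_ne_zero _ (hy1 i))
          simpa using (by omega : m ≠ 0)
  · have hne : ∀ (x₁ x₂ : ℂ), x₁ ≠ x₂ → ∀ ζ ξ : ℕ → ℂ, Tendsto ζ atTop (𝓝 x₁) → Tendsto ξ atTop (𝓝 x₂) →
        ∀ᶠ k in atTop, ζ k ≠ ξ k := by
      intro x₁ x₂ hx ζ ξ hζ hξ
      filter_upwards [(hζ.sub hξ).eventually_ne (sub_ne_zero.2 hx)] with k hk h2
      exact hk (sub_eq_zero.2 h2)
    have hfar : ∀ (x₁ x₂ : ℂ), x₂ ≠ 0 → ∀ ζ ξ : ℕ → ℂ, Tendsto ζ atTop (𝓝 x₁) → Tendsto ξ atTop (𝓝 x₂) →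
        ∀ᶠ k in atTop, ζ k ≠ ((R k : ℝ) : ℂ) * ξ k := by
      intro x₁ x₂ hx ζ ξ hζ hξ
      have h2 : Tendsto (fun k => ((((R k : ℝ))⁻¹ : ℝ) : ℂ)) atTop (𝓝 0) := by
        have h0 := (Complex.continuous_ofReal.tendsto 0).comp hRlim.inv_tendsto_atTop
        rw [Complex.ofReal_zero] at h0
        exact h0
      have h3 := h2.mul hζ
      rw [zero_mul] at h3
      filter_upwards [hne 0 x₂ hx.symm _ ξ h3 hξ] with k hk h4
      apply hk
      rw [h4, ← mul_assoc, ← Complex.ofReal_mul, inv_mul_cancel₀ (hR0' k), Complex.ofReal_one, one_mul]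
    rintro (i | i) (i' | i') hii ζ ξ hζ hξ
    · simp only [Sum.elim_inl] at hζ hξ ⊢
      filter_upwards [hne _ _ (fun h2 => hii (by rw [hz h2])) ζ ξ hζ hξ] with k hk h2
      apply hk
      simpa using h2
    · simp only [Sum.elim_inl, Sum.elim_inr] at hζ hξ ⊢
      filter_upwards [hfar _ _ (hy1 i') ζ ξ hζ hξ] with k hk h2
      apply hk
      simpa using h2
    · simp only [Sum.elim_inl, Sum.elim_inr] at hζ hξ ⊢
      filter_upwards [hfar _ _ (hy1 i) ξ ζ hξ hζ] with k hk h2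
      apply hk
      have h3 := h2.symm
      simpa using h3
    · simp only [Sum.elim_inr] at hζ hξ ⊢
      filter_upwards [hne _ _ (fun h2 => hii (by rw [hy h2])) ζ ξ hζ hξ] with k hk h2
      apply hk
      have h3 : ((R k : ℝ) : ℂ) ≠ 0 := by exact_mod_cast hR0' k
      have h4 : ((R k : ℝ) : ℂ) * ζ k = ((R k : ℝ) : ℂ) * ξ k := by simpa using h2
      exact mul_left_cancel₀ h3 h4

end Pool.Agent.J4H72.LV
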