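import Pool.Agent.J4H20.LV.Stm
import Pool.Agent.J4H20.TQ.LIM
import Pool.Agent.J4H21.TP.R3P

/-!
# Project LV of helper20, job SHB: the ingredients
-/

set_option autoImplicit false

namespace Pool.Agent.J4H72.LV.SH

open Polynomial Filter Topology Pool.Agent.J4H21.TP Pool.Agent.J4H20.TQ

/-! ### Monic polynomials with positive value at zero -/

/-- the zeros -/
noncomputable def zg (u v : ℕ) : Fin u ⊕ Fin v × Bool → ℂ :=
  Sum.elim (fun i => -(((i : ℕ) : ℂ) + 1)) (fun p => (if p.2 then 1 else -1) * (((p.1 : ℕ) : ℂ) + 1) * Complex.I)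

noncomputable def gq (u v : ℕ) : ℚ[X] :=
  (∏ i : Fin u, (X + C (((i : ℕ) : ℚ) + 1))) * ∏ i : Fin v, (X ^ 2 + C ((((i : ℕ) : ℚ) + 1) ^ 2))

lemma zg_inj (u v : ℕ) : Function.Injective (zg u v) := by
  have hre : ∀ (i : Fin u), (zg u v (Sum.inl i)).re = -(((i : ℕ) : ℝ) + 1) ∧
      (zg u v (Sum.inl i)).im = 0 := by
    intro i; simp [zg]
  have him : ∀ (p : Fin v × Bool), (zg u v (Sum.inr p)).im =
      (if p.2 then 1 else -1) * (((p.1 : ℕ) : ℝ) + 1) := by
    rintro ⟨i, b⟩
    cases b <;> simp [zg]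
  rintro (i | ⟨i, b⟩) (i' | ⟨i', b'⟩) h
  · have h1 := congrArg Complex.re h
    rw [(hre i).1, (hre i').1] at h1
    have h2 : ((i : ℕ) : ℝ) = (i' : ℕ) := by linarith
    rw [Nat.cast_inj] at h2
    rw [Fin.ext h2]
  · exfalso
    have h1 := congrArg Complex.im h
    rw [(hre i).2, him] at h1
    have h2 : (0 : ℝ) < ((i' : ℕ) : ℝ) + 1 := by positivity
    cases b' <;> simp at h1 <;> linarith
  · exfalso
    have h1 := congrArg Complex.im h
    rw [(hre i').2, him] at h1
    have h2 : (0 : ℝ) < ((i : ℕ) : ℝ) + 1 := by positivity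
    cases b <;> simp at h1 <;> linarith
  · have h1 := congrArg Complex.im h
    rw [him, him] at h1
    have h2 : (0 : ℝ) < ((i : ℕ) : ℝ) + 1 := by positivity
    have h3 : (0 : ℝ) < ((i' : ℕ) : ℝ) + 1 := by positivity
    cases b <;> cases b' <;> simp at h1
    · rw [Fin.ext h1]
    · linarith
    · linarith
    · rw [Fin.ext h1]

lemma gq_map (u v : ℕ) : (gq u v).map (algebraMap ℚ ℂ) = ∏ i, (X - C (zg u v i)) := by
  rw [gq, Polynomial.map_mul, Polynomial.map_prod, Polynomial.map_prod, Fintype.prod_sum_type,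
    Fintype.prod_prod_type]
  congr 1
  · refine Finset.prod_congr rfl fun i _ => ?_
    simp [zg]
    ring
  · refine Finset.prod_congr rfl fun i _ => ?_
    rw [Fintype.prod_bool]
    simp only [zg, Sum.elim_inr, if_true, Bool.false_eq_true, if_false]
    rw [Polynomial.map_add, Polynomial.map_pow, map_X, map_C]
    have h1 : (algebraMap ℚ ℂ) ((((i : ℕ) : ℚ) + 1) ^ 2) = -((((i : ℕ) : ℂ) + 1) * Complex.I) ^ 2 := by
      rw [mul_pow, Complex.I_sq]
      simp
    rw [h1, C_neg, C_pow, one_mul, neg_one_mul, neg_mul, C_neg]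
    ring

lemma gq_monic (u v : ℕ) : (gq u v).Monic := by
  have h1 : ((gq u v).map (algebraMap ℚ ℂ)).Monic := by
    rw [gq_map]; exact monic_prod_of_monic _ _ fun _ _ => monic_X_sub_C _
  exact (monic_map_iff.1 h1)

lemma gq_deg (u v : ℕ) : (gq u v).natDegree = u + 2 * v := by
  have h1 : ((gq u v).map (algebraMap ℚ ℂ)).natDegree = u + 2 * v := by
    rw [gq_map, natDegree_prod_of_monic _ _ fun _ _ => monic_X_sub_C _]
    simp only [natDegree_X_sub_C]
    simp [mul_comm]
  rwa [natDegree_map] at h1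

lemma gq_root (u v : ℕ) (i : Fin u ⊕ Fin v × Bool) :
    aeval (zg u v i) (gq u v) = 0 ∧ aeval (zg u v i) (derivative (gq u v)) ≠ 0 := by
  have hsep : (∏ i, (X - C (zg u v i))).Separable := by
    rw [separable_prod_X_sub_C_iff]
    exact zg_inj u v
  have h1 : aeval (zg u v i) ((gq u v).map (algebraMap ℚ ℂ)) = 0 := by
    rw [gq_map, map_prod]
    refine Finset.prod_eq_zero (Finset.mem_univ i) ?_
    simp
  rw [← gq_map] at hsep
  have h2 := hsep.aeval_derivative_ne_zero h1
  rw [aeval_map_algebraMap] at h1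
  rw [derivative_map, aeval_map_algebraMap] at h2
  exact ⟨h1, h2⟩

lemma gq_eval (u v : ℕ) : 0 < (gq u v).eval 0 := by
  rw [gq, eval_mul, eval_prod, eval_prod]
  refine mul_pos (Finset.prod_pos fun i _ => ?_) (Finset.prod_pos fun i _ => ?_)
  · simp only [eval_add, eval_X, eval_C]
    positivity
  · simp only [eval_add, eval_pow, eval_X, eval_C]
    positivity

lemma gq_im (u v : ℕ) : {i | (zg u v i).im = 0}.ncard = u := by
  have h1 : {i | (zg u v i).im = 0} = Set.range (Sum.inl : Fin u → Fin u ⊕ Fin v × Bool) := by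
    ext i
    simp only [Set.mem_ofPred_eq]
    rcases i with i | ⟨i, b⟩
    · simp [zg]
    · have h2 : (0 : ℝ) < ((i : ℕ) : ℝ) + 1 := by positivity
      cases b <;> simp [zg] <;> intro h <;> linarith
  rw [h1, Set.ncard_range_of_injective Sum.inl_injective]
  simp

/-- monic rational polynomials with `u` real zeros, all zeros simple, positive at zero -/
theorem exists_g (j u : ℕ) (hu : u ≤ j) (hev : Even (j - u)) :
    ∃ (h : ℚ[X]) (z : Fin j → ℂ), h.Monic ∧ h.natDegree = j ∧ Function.Injective z ∧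
      (∀ i, aeval (z i) h = 0 ∧ aeval (z i) (derivative h) ≠ 0) ∧ {i | (z i).im = 0}.ncard = u ∧
      0 < h.eval 0 := by
  obtain ⟨v, hv⟩ := hev
  have hj : j = u + 2 * v := by omega
  have hcard : Fintype.card (Fin u ⊕ Fin v × Bool) = Fintype.card (Fin j) := by
    simp [hj, mul_comm]
  obtain ⟨E⟩ : Nonempty (Fin j ≃ Fin u ⊕ Fin v × Bool) := ⟨(Fintype.equivOfCardEq hcard).symm⟩
  refine ⟨gq u v, fun i => zg u v (E i), gq_monic u v, by rw [gq_deg, hj],
    (zg_inj u v).comp E.injective, fun i => gq_root u v (E i), ?_, gq_eval u v⟩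
  refine Eq.trans ?_ (gq_im u v)
  have h1 : {i | (zg u v i).im = 0} = E '' {i | (zg u v (E i)).im = 0} := by
    ext i
    simp only [Set.mem_ofPred_eq, Set.mem_image]
    constructor
    · intro h
      exact ⟨E.symm i, by simpa using h, by simp⟩
    · rintro ⟨i', h, rfl⟩
      exact h
  rw [h1, Set.ncard_image_of_injective _ E.injective]

/-! ### Scaling -/

/-- limits after scaling by a large factor -/
lemma CT_scale (N : ℕ) {G : ℕ → ℝ[X]} {A : ℝ[X]} (hG : CT G A)
    (hN : ∀ k d, N < d → (G k).coeff d = 0) {R : ℕ → ℝ} (hR : Tendsto R atTop atTop)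
    (hR0 : ∀ k, R k ≠ 0) :
    CT (fun k => C ((R k ^ N)⁻¹) * (G k).comp (C (R k) * X)) (C (A.coeff N) * X ^ N) := by
  intro d
  simp only [coeff_C_mul, comp_C_mul_X_coeff, coeff_X_pow]
  rcases lt_trichotomy d N with h | h | h
  · rw [if_neg h.ne, mul_zero]
    have h1 : Tendsto (fun k => (R k ^ (N - d))⁻¹) atTop (𝓝 0) :=
      ((tendsto_pow_atTop (by omega : N - d ≠ 0)).comp hR).inv_tendsto_atTop
    have h2 := (hG d).mul h1
    rw [mul_zero] at h2
    refine h2.congr fun k => ?_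
    have h3 : R k ^ N = R k ^ d * R k ^ (N - d) := by rw [← pow_add]; congr 1; omega
    have h4 := pow_ne_zero d (hR0 k)
    have h5 := pow_ne_zero (N - d) (hR0 k)
    rw [h3]
    field_simp
  · subst h
    rw [if_pos rfl, mul_one]
    refine (hG d).congr fun k => ?_
    have h4 := pow_ne_zero d (hR0 k)
    field_simp
  · rw [if_neg h.ne', mul_zero]
    refine tendsto_const_nhds.congr fun k => ?_
    rw [hN k d h]
    ring

/-! ### The degree -/

lemma deg_P (m e j : ℕ) (hm : 1 ≤ m) (G H R : ℝ[X]) (s : ℝ) (hs : s ≠ 0) (hje : j < e) (hG : G.Monic)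
    (hGn : G.natDegree = e) (hH : H.Monic) (hHn : H.natDegree = j) (hR : R.degree < ((m - 1) * e : ℕ)) :
    (G + C s * H) ^ m - (G ^ m + R) ≠ 0 ∧
      ((G + C s * H) ^ m - (G ^ m + R)).natDegree ≤ (m - 1) * e + j := by
  have hsH : (C s * H).degree < G.degree := by
    rw [degree_C_mul hs, degree_eq_natDegree hG.ne_zero, degree_eq_natDegree hH.ne_zero, hGn, hHn]
    exact_mod_cast hje
  have hK : (G + C s * H).Monic := hG.add_of_left hsH
  have hKn : (G + C s * H).natDegree = e := by rw [natDegree_add_eq_left_of_degree_lt hsH, hGn]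
  have hm0 : (m : ℝ) ≠ 0 := by
    have : 0 < m := hm
    exact_mod_cast this.ne'
  obtain ⟨h1, h2⟩ := mon_aux m e hm G (G + C s * H) 0 hG hGn hK hKn 0 (by
    rw [degree_zero]; exact WithBot.bot_lt_coe _)
  set T : ℝ[X] := C (1 / (m : ℝ)) * (∑ i ∈ Finset.range m, (G + C s * H) ^ i * G ^ (m - 1 - i)) -
    C 0 * 0 with hT
  have h3 : (G + C s * H) ^ m - (G ^ m + R) = C ((m : ℝ) * s) * (H * T) - R := by
    have h4 := (Commute.all (G + C s * H) G).mul_geom_sum₂ m
    rw [add_sub_cancel_left] at h4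
    rw [hT, mul_zero, sub_zero]
    have h5 : C ((m : ℝ) * s) * (H * (C (1 / (m : ℝ)) *
        (∑ i ∈ Finset.range m, (G + C s * H) ^ i * G ^ (m - 1 - i)))) =
        C ((m : ℝ) * s * (1 / m)) * H * (∑ i ∈ Finset.range m, (G + C s * H) ^ i * G ^ (m - 1 - i)) := by
      rw [C_mul, C_mul, C_mul]; ring
    have h6 : (m : ℝ) * s * (1 / m) = s := by field_simp
    rw [h5, h6, h4]
    ring
  have hHT : (H * T).Monic := hH.mul h1
  have hHTn : (H * T).natDegree = j + (m - 1) * e := by rw [hH.natDegree_mul h1, hHn, h2]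
  have h7 : (m : ℝ) * s ≠ 0 := mul_ne_zero hm0 hs
  have hlt : R.degree < (C ((m : ℝ) * s) * (H * T)).degree := by
    rw [degree_C_mul h7, degree_eq_natDegree hHT.ne_zero, hHTn]
    refine hR.trans_le ?_
    exact_mod_cast Nat.le_add_left _ _
  rw [h3]
  constructor
  · intro h
    rw [sub_eq_zero] at h
    rw [h] at hlt
    exact lt_irrefl _ hlt
  · refine (natDegree_sub_le _ _).trans (max_le ?_ ?_)
    · refine (natDegree_C_mul_le _ _).trans ?_
      rw [hHTn, add_comm]
    · refine (natDegree_le_natDegree (hlt.le)).trans ?_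
      refine (natDegree_C_mul_le _ _).trans ?_
      rw [hHTn, add_comm]

/-! ### The finite places -/

lemma bad_finite (A : ℝ[X]) (hA : derivative A ≠ 0) (m : ℕ) (hm : 0 < m) :
    {v : ℝ | ∃ x : ℂ, aeval x (derivative A) = 0 ∧ (aeval x A + (v : ℂ)) ^ m = (aeval x A) ^ m}.Finite := by
  have h1 : {v : ℝ | ∃ x : ℂ, aeval x (derivative A) = 0 ∧ (aeval x A + (v : ℂ)) ^ m = (aeval x A) ^ m} =
      ⋃ x ∈ (derivative A).rootSet ℂ, {v : ℝ | (aeval x A + (v : ℂ)) ^ m = (aeval x A) ^ m} := by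
    ext v
    simp only [Set.mem_ofPred_eq, Set.mem_iUnion, exists_prop]
    constructor
    · rintro ⟨x, h, h'⟩
      exact ⟨x, (mem_rootSet_of_ne hA).2 h, h'⟩
    · rintro ⟨x, h, h'⟩
      exact ⟨x, (mem_rootSet_of_ne hA).1 h, h'⟩
  rw [h1]
  refine Set.Finite.biUnion (rootSet_finite _ _) fun x _ => ?_
  have h2 : ({w : ℂ | w ^ m = (aeval x A) ^ m} : Set ℂ).Finite := by
    refine ((nthRoots m ((aeval x A : ℂ) ^ m)).toFinset.finite_toSet).subset ?_
    intro w hw
    rw [Finset.mem_coe, Multiset.mem_toFinset, mem_nthRoots hm]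
    exact hw
  refine (h2.preimage (f := fun v : ℝ => (aeval x A : ℂ) + (v : ℂ)) ?_)
  intro a _ b _ hab
  exact_mod_cast add_left_cancel hab

theorem fin_part (m e u : ℕ) (hm : 2 ≤ m) (hme : Even m) (he : 1 ≤ e) (a : Fin e → ℤ) (v₁ v₂ : ℝ)
    (hv₁ : 0 < v₁) (hv₁₂ : v₁ < v₂)
    (hc : ∀ v : ℝ, v₁ < v → v < v₂ → {x : ℝ | ∏ i, (x - (a i : ℝ)) = - v}.ncard = u) :
    ∃ v : ℝ, 0 < v ∧ ∃ z : Fin ((m - 1) * e) → ℂ, Function.Injective z ∧
      (∀ i, aeval (z i) ((∏ l, (X - C (a l : ℝ)) + C v) ^ m - (∏ l, (X - C (a l : ℝ))) ^ m) = 0 ∧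
        aeval (z i) (derivative ((∏ l, (X - C (a l : ℝ)) + C v) ^ m - (∏ l, (X - C (a l : ℝ))) ^ m)) ≠ 0) ∧
      {i | (z i).im = 0}.ncard = u := by
  classical
  set A : ℝ[X] := ∏ l, (X - C (a l : ℝ)) with hA
  have hAm : A.Monic := monic_prod_of_monic _ _ fun i _ => monic_X_sub_C _
  have hAn : A.natDegree = e := by
    rw [hA, natDegree_prod_of_monic _ _ fun i _ => monic_X_sub_C _]
    simp only [natDegree_X_sub_C]
    simp
  have hA' : derivative A ≠ 0 := by
    intro h
    have h1 := natDegree_eq_zero_of_derivative_eq_zero h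
    omega
  have hfin := bad_finite A hA' m (by omega)
  obtain ⟨v, hv, hvb⟩ := ((Set.Ioo_infinite (by linarith : 2 * v₁ < 2 * v₂)).diff hfin).nonempty
  have hv0 : 0 < v := by have := hv.1; linarith
  refine ⟨v, hv0, ?_⟩
  set F : ℝ[X] := (A + C v) ^ m - A ^ m with hF
  have hm0 : (m : ℝ) ≠ 0 := by
    have : 0 < m := by omega
    exact_mod_cast this.ne'
  -- the degree
  have hFn : F.natDegree = (m - 1) * e := by
    have hH : (A + C v).Monic := hAm.add_of_left (by
      rw [degree_eq_natDegree hAm.ne_zero, hAn]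
      refine degree_C_le.trans_lt ?_
      exact_mod_cast he)
    have hHn : (A + C v).natDegree = e := by rw [natDegree_add_C, hAn]
    obtain ⟨h1, h2⟩ := mon_aux m e (by omega) A (A + C v) 0 hAm hAn hH hHn 0 (by
      rw [degree_zero]; exact WithBot.bot_lt_coe _)
    have h3 : F = C ((m : ℝ) * v) * (C (1 / (m : ℝ)) *
        (∑ i ∈ Finset.range m, (A + C v) ^ i * A ^ (m - 1 - i)) - C 0 * 0) := by
      have h4 := (Commute.all (A + C v) A).mul_geom_sum₂ m
      rw [add_sub_cancel_left] at h4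
      rw [mul_zero, sub_zero, ← mul_assoc, ← C_mul]
      have h5 : (m : ℝ) * v * (1 / (m : ℝ)) = v := by field_simp
      rw [h5, h4]
    rw [h3, natDegree_C_mul (mul_ne_zero hm0 hv0.ne'), h2]
  have hF0 : F ≠ 0 := by
    intro h
    rw [h, natDegree_zero] at hFn
    have h1 : 0 < (m - 1) * e := Nat.mul_pos (by omega) (by omega)
    omega
  -- the zeros are simple
  have hev : ∀ x : ℂ, aeval x F = (aeval x A + (v : ℂ)) ^ m - (aeval x A) ^ m := by
    intro x
    rw [hF, map_sub, map_pow, map_pow, map_add, aeval_C]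
    rfl
  have hsimple : ∀ x : ℂ, aeval x F = 0 → aeval x (derivative F) ≠ 0 := by
    intro x hx hx'
    rw [hev, sub_eq_zero] at hx
    have h1 : aeval x (derivative F) = (m : ℂ) * aeval x (derivative A) *
        ((aeval x A + (v : ℂ)) ^ (m - 1) - (aeval x A) ^ (m - 1)) := by
      rw [hF, derivative_sub, derivative_pow, derivative_pow, derivative_add, derivative_C, add_zero]
      simp only [map_sub, map_mul, map_pow, map_add, aeval_C, map_natCast]
      have : (algebraMap ℝ ℂ) v = (v : ℂ) := rfl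
      rw [this]
      ring
    have hvC : (v : ℂ) ≠ 0 := by exact_mod_cast hv0.ne'
    have hmC : (m : ℂ) ≠ 0 := by exact_mod_cast (by omega : m ≠ 0)
    rw [h1, mul_eq_zero, mul_eq_zero] at hx'
    rcases hx' with (h2 | h2) | h2
    · exact hmC h2
    · exact hvb ⟨x, h2, hx⟩
    · rw [sub_eq_zero] at h2
      obtain ⟨n, hn⟩ : ∃ n, m = n + 1 := ⟨m - 1, by omega⟩
      rw [hn, Nat.add_sub_cancel] at h2
      rw [hn, pow_succ, pow_succ, h2] at hx
      by_cases h3 : (aeval x A : ℂ) ^ n = 0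
      · have h4 : (aeval x A : ℂ) = 0 := by
          exact pow_eq_zero_iff (by omega : n ≠ 0) |>.1 h3
        rw [h4, zero_add, zero_pow (by omega : n ≠ 0)] at h2
        exact hvC ((pow_eq_zero_iff (by omega : n ≠ 0)).1 h2)
      · have h4 := mul_left_cancel₀ h3 hx
        exact hvC (by simpa using h4)
  have hsep : F.Separable := by
    rw [separable_def]
    refine (isCoprime_iff_aeval_ne_zero_of_isAlgClosed (k := ℝ) (K := ℂ) F (derivative F)).2 ?_
    intro x
    by_cases h : aeval x F = 0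
    · exact Or.inr (hsimple x h)
    · exact Or.inl h
  have hcard : Fintype.card (F.rootSet ℂ) = (m - 1) * e := by
    rw [card_rootSet_eq_natDegree hsep (IsAlgClosed.splits _), hFn]
  have E : Fin ((m - 1) * e) ≃ F.rootSet ℂ := (Fintype.equivFinOfCardEq hcard).symm
  refine ⟨fun i => (E i : ℂ), fun i i' h => E.injective (Subtype.ext h), fun i => ?_, ?_⟩
  · have h1 := (mem_rootSet_of_ne hF0).1 (E i).2
    exact ⟨h1, hsimple _ h1⟩
  · rw [← hc (v / 2) (by have := hv.1; linarith) (by have := hv.2; linarith)]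
    have hreal : ∀ x : ℝ, aeval (x : ℂ) F = 0 ↔ ∏ i, (x - (a i : ℝ)) = - (v / 2) := by
      intro x
      have h1 : (aeval (x : ℂ) A : ℂ) = ((A.eval x : ℝ) : ℂ) := by
        have := aeval_algebraMap_apply ℂ x A
        rw [Complex.coe_algebraMap] at this
        rw [this, coe_aeval_eq_eval]
      have h2 : A.eval x = ∏ i, (x - (a i : ℝ)) := by
        rw [hA, eval_prod]
        simp
      rw [hev, h1, ← h2, sub_eq_zero]
      constructor
      · intro h
        have h3 : (A.eval x + v) ^ m = (A.eval x) ^ m := by exact_mod_cast h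
        rw [pow_eq_pow_iff_cases] at h3
        rcases h3 with h4 | h4 | ⟨h4, -⟩
        · omega
        · linarith
        · linarith
      · intro h
        have h3 : A.eval x + v = - A.eval x := by linarith
        have h4 : (A.eval x + v) ^ m = (A.eval x) ^ m := by rw [h3, hme.neg_pow]
        exact_mod_cast h4
    have h1 : (fun i => (E i : ℂ)) '' {i | ((E i : ℂ)).im = 0} =
        (fun x : ℝ => (x : ℂ)) '' {x : ℝ | ∏ i, (x - (a i : ℝ)) = - (v / 2)} := by
      ext w
      simp only [Set.mem_image, Set.mem_ofPred_eq]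
      constructor
      · rintro ⟨i, h2, rfl⟩
        have h3 : (((E i : ℂ).re : ℝ) : ℂ) = (E i : ℂ) := Complex.ext (by simp) (by simp [h2])
        refine ⟨(E i : ℂ).re, ?_, h3⟩
        rw [← hreal, h3]
        exact (mem_rootSet_of_ne hF0).1 (E i).2
      · rintro ⟨x, h2, rfl⟩
        rw [← hreal] at h2
        refine ⟨E.symm ⟨(x : ℂ), (mem_rootSet_of_ne hF0).2 h2⟩, ?_, ?_⟩
        · simp
        · simp
    have h2 := congrArg Set.ncard h1
    rw [Set.ncard_image_of_injective _ (fun i i' h => E.injective (Subtype.ext h)),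
      Set.ncard_image_of_injective _ Complex.ofReal_injective] at h2
    exact h2

end Pool.Agent.J4H72.LV.SH
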