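import Pool.Agent.J4H72.LV.Reach
set_option autoImplicit false

/-!
# Views with levels
-/

namespace Pool.Agent.J4H72.LV

open Finset Pool.Agent.TH70.AR Pool.Agent.J4H72.LA

variable {n : ℕ}

/-- what a vertex may show of the other vertices: improving directions and a number -/
abbrev ViewV (n : ℕ) := (Fin n → Bool) → Option (Finset (Fin n) × ℕ)

open Classical in
/-- the sets `σ z` and numbers `lev z` at all vertices `z` reached by at most `ρ` pivots -/
noncomputable def lookV (σ : (Fin n → Bool) → Finset (Fin n)) (lev : (Fin n → Bool) → ℕ) (ρ : ℕ)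
    (p : Fin n → Bool) : ViewV n :=
  fun z => if Rch σ ρ p z then some (σ z, lev z) else none

lemma lookV_self (σ : (Fin n → Bool) → Finset (Fin n)) (lev : (Fin n → Bool) → ℕ) (ρ : ℕ)
    (p : Fin n → Bool) : lookV σ lev ρ p p = some (σ p, lev p) := by
  classical
  exact if_pos (rch_refl σ ρ p)

lemma lookV_congr {σ σ' : (Fin n → Bool) → Finset (Fin n)} {lev lev' : (Fin n → Bool) → ℕ} {ρ : ℕ}
    {p : Fin n → Bool} (h : ∀ z, Rch σ ρ p z → σ z = σ' z ∧ lev z = lev' z) :
    lookV σ lev ρ p = lookV σ' lev' ρ p := by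
  classical
  funext z
  have h1 := rch_congr (fun z hz => (h z hz).1) ρ le_rfl z
  by_cases hz : Rch σ ρ p z
  · simp only [lookV]
    rw [if_pos hz, if_pos (h1.1 hz), (h z hz).1, (h z hz).2]
  · simp only [lookV]
    rw [if_neg hz, if_neg (fun h2 => hz (h1.2 h2))]

/-- the visited vertices and their views, the current vertex first -/
abbrev PastV (n : ℕ) := List ((Fin n → Bool) × ViewV n)

/-- the rule chooses an improving direction -/
def ValidV (A : PastV n → Fin n) : Prop :=
  ∀ (x : Fin n → Bool) (g : ViewV n) (l : PastV n) (S : Finset (Fin n)) (c : ℕ),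
    g x = some (S, c) → S.Nonempty → A ((x, g) :: l) ∈ S

/-- the rule `A` visits the vertices of the list, from `a` to `b`, with the past `h` before `a` -/
def PlayV (A : PastV n → Fin n) :
    PastV n → (Fin n → Bool) → PastV n → (Fin n → Bool) → Prop
  | _, a, [], b => a = b
  | h, a, v :: q, b => v.1 = a ∧ (∃ S c, v.2 a = some (S, c) ∧ S.Nonempty) ∧
      PlayV A (v :: h) (TH70.AR.flip a (A (v :: h))) q b

/-- the past after the visits `q` -/
def pstV : PastV n → PastV n → PastV n
  | h, [] => h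
  | h, v :: q => pstV (v :: h) q

variable {A : PastV n → Fin n}

lemma playV_append {p q h : PastV n} {a b d : Fin n → Bool}
    (hp : PlayV A h a p d) (hq : PlayV A (pstV h p) d q b) : PlayV A h a (p ++ q) b := by
  induction p generalizing h a with
  | nil =>
    simp only [PlayV] at hp
    subst hp
    simpa [pstV] using hq
  | cons r p ih =>
    simp only [PlayV, List.cons_append] at hp ⊢
    obtain ⟨h1, h2, h3⟩ := hp
    exact ⟨h1, h2, ih h3 (by simpa [pstV] using hq)⟩

/-- a record with a level -/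
abbrev LR (n : ℕ) := Rec n × ℕ

/-- the records `R` determine the view of the visited vertex `v` -/
def CovV (ρ : ℕ) (R : List (LR n)) (v : (Fin n → Bool) × ViewV n) : Prop :=
  ∃ (σ : (Fin n → Bool) → Finset (Fin n)) (lev : (Fin n → Bool) → ℕ), v.2 = lookV σ lev ρ v.1 ∧
    ∀ z, Rch σ ρ v.1 z → ∃ r ∈ R, r.1.w = z ∧ r.1.S = σ z ∧ r.2 = lev z

/-- the records `R` contain the uniform ball around `a` in the active directions `T`; the levels
begin at `Λ` -/
def BallV (ρ : ℕ) (R : List (LR n)) (Λ : ℕ) (a : Fin n → Bool) (T : Finset (Fin n)) : Prop :=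
  ∀ D ⊆ T, D.card ≤ ρ →
    ∃ r ∈ R, r.1.w = tog a D ∧ r.1.S = T \ D ∧ r.2 = Λ + agr (tog a D) (tog a T)

/-- up to the wiping directions the records `R` are among the records `R'` -/
def SubV (R R' : List (LR n)) : Prop :=
  ∀ r ∈ R, ∃ r' ∈ R', r'.1.w = r.1.w ∧ r'.1.S = r.1.S ∧ r'.2 = r.2

lemma CovV.mono {ρ : ℕ} {R R' : List (LR n)} {v : (Fin n → Bool) × ViewV n} (h : CovV ρ R v)
    (hs : SubV R R') : CovV ρ R' v := by
  obtain ⟨σ, lev, h1, h2⟩ := h
  refine ⟨σ, lev, h1, fun z hz => ?_⟩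
  obtain ⟨r, h4, h5, h6, h6'⟩ := h2 z hz
  obtain ⟨r', h7, h8, h9, h9'⟩ := hs r h4
  exact ⟨r', h7, h8.trans h5, h9.trans h6, h9'.trans h6'⟩

lemma BallV.mono {ρ : ℕ} {R R' : List (LR n)} {Λ : ℕ} {a : Fin n → Bool} {T : Finset (Fin n)}
    (h : BallV ρ R Λ a T) (hs : SubV R R') : BallV ρ R' Λ a T := by
  intro D hD hc
  obtain ⟨r, h4, h5, h6, h6'⟩ := h D hD hc
  obtain ⟨r', h7, h8, h9, h9'⟩ := hs r h4
  exact ⟨r', h7, h8.trans h5, h9.trans h6, h9'.trans h6'⟩

lemma SubV.of_subset {R R' : List (LR n)} (h : R ⊆ R') : SubV R R' :=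
  fun r hr => ⟨r, h hr, rfl, rfl, rfl⟩

/-- closing the records: the coordinates of `X` have been frozen at the values of `b` -/
def clV (X : Finset (Fin n)) (b : Fin n → Bool) (r : LR n) : LR n := (cl X b r.1, r.2)

lemma subV_map_cl (R : List (LR n)) (X : Finset (Fin n)) (b : Fin n → Bool) :
    SubV R (R.map (clV X b)) := fun r hr => ⟨clV X b r, List.mem_map_of_mem hr, rfl, rfl, rfl⟩

lemma SubV.append {R₁ R₂ R₁' R₂' : List (LR n)} (h : SubV R₁ R₁') (h' : SubV R₂ R₂') :
    SubV (R₁ ++ R₂) (R₁' ++ R₂') := by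
  intro r hr
  rcases List.mem_append.1 hr with hr | hr
  · obtain ⟨r', h1, h2⟩ := h r hr
    exact ⟨r', List.mem_append_left _ h1, h2⟩
  · obtain ⟨r', h1, h2⟩ := h' r hr
    exact ⟨r', List.mem_append_right _ h1, h2⟩

lemma map_clV_fst (R : List (LR n)) (X : Finset (Fin n)) (b : Fin n → Bool) :
    (R.map (clV X b)).map Prod.fst = (R.map Prod.fst).map (cl X b) := by
  rw [List.map_map, List.map_map]
  rfl

/-- the view is the one of every orientation that satisfies the records -/
lemma CovV.look {ρ : ℕ} {R : List (LR n)} {v : (Fin n → Bool) × ViewV n} (h : CovV ρ R v)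
    {σ' : (Fin n → Bool) → Finset (Fin n)} {lev' : (Fin n → Bool) → ℕ}
    (hs : ∀ r ∈ R, σ' r.1.w = r.1.S ∧ lev' r.1.w = r.2) :
    v.2 = lookV σ' lev' ρ v.1 := by
  obtain ⟨σ, lev, h1, h2⟩ := h
  rw [h1]
  apply lookV_congr
  intro z hz
  obtain ⟨r, h5, h6, h7, h8⟩ := h2 z hz
  rw [← h7, ← h8, ← h6]
  exact ⟨(hs r h5).1.symm, (hs r h5).2.symm⟩

/-- a vertex reached by `m` pivots differs in at most `m` coordinates -/
lemma rch_ball {σ : (Fin n → Bool) → Finset (Fin n)} {m : ℕ} {p z : Fin n → Bool}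
    (h : Rch σ m p z) : ∃ D : Finset (Fin n), D.card ≤ m ∧ z = tog p D := by
  induction m generalizing z with
  | zero => exact ⟨∅, by simp, by rw [tog_empty]; exact h⟩
  | succ m ih =>
    rcases h with h | ⟨y, h, i, -, rfl⟩
    · obtain ⟨D, h1, h2⟩ := ih h
      exact ⟨D, by omega, h2⟩
    · obtain ⟨D, h1, rfl⟩ := ih h
      rw [flip_tog]
      refine ⟨_, ?_, rfl⟩
      split_ifs
      · exact (card_le_card (erase_subset _ _)).trans (by omega)
      · exact (card_insert_le _ _).trans (by omega)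

open Classical in
/-- the vertices seen from `p` -/
noncomputable def sv (σ : (Fin n → Bool) → Finset (Fin n)) (ρ : ℕ) (p : Fin n → Bool) :
    List (Fin n → Bool) := (univ.filter fun z => Rch σ ρ p z).toList

lemma mem_sv {σ : (Fin n → Bool) → Finset (Fin n)} {ρ : ℕ} {p z : Fin n → Bool} :
    z ∈ sv σ ρ p ↔ Rch σ ρ p z := by
  simp [sv]

lemma sv_length (σ : (Fin n → Bool) → Finset (Fin n)) (ρ : ℕ) (p : Fin n → Bool) :
    (sv σ ρ p).length ≤ bc n ρ := by
  classical
  rw [sv, length_toList, bc]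
  refine (card_le_card (t := (sml ρ univ).image (tog p)) fun z hz => ?_).trans card_image_le
  rw [mem_filter] at hz
  obtain ⟨D, h1, rfl⟩ := rch_ball hz.2
  exact mem_image_of_mem _ (mem_sml.2 ⟨subset_univ _, h1⟩)

/-- moving in directions that stay improving -/
lemma rch_tog {σ : (Fin n → Bool) → Finset (Fin n)} {p : Fin n → Bool} (m : ℕ) :
    ∀ D : Finset (Fin n), D.card ≤ m → (∀ E ⊂ D, D \ E ⊆ σ (tog p E)) → Rch σ m p (tog p D) := by
  induction m with
  | zero =>
    intro D hD _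
    rw [Nat.le_zero, card_eq_zero] at hD
    subst hD
    rw [tog_empty]
    rfl
  | succ m ih =>
    intro D hD hσ
    rcases Finset.eq_empty_or_nonempty D with rfl | ⟨i, hi⟩
    · rw [tog_empty]
      exact rch_refl _ _ _
    · right
      have h1 : D.erase i ⊂ D := erase_ssubset hi
      refine ⟨tog p (D.erase i), ih _ (by rw [card_erase_of_mem hi]; omega) ?_, i, ?_, ?_⟩
      · intro E hE
        exact (sdiff_subset_sdiff (erase_subset _ _) (Subset.refl _)).trans (hσ E (hE.trans h1))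
      · exact hσ _ h1 (mem_sdiff.2 ⟨hi, fun h => (mem_erase.1 h).1 rfl⟩)
      · rw [flip_tog, if_neg fun h => (mem_erase.1 h).1 rfl, insert_erase hi]

end Pool.Agent.J4H72.LV
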