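import Pool.Agent.J4H72.LV.Round
set_option autoImplicit false

/-!
# The wiping phase with levels
-/

namespace Pool.Agent.J4H72.LV

open Finset Pool.Agent.TH70.AR Pool.Agent.J4H72.LA

variable {n : ℕ} {A : PastV n → Fin n} {ρ : ℕ}

/-- **The wiping phase with look-ahead and levels.** -/
lemma wipeV (hA : ValidV A) {k K N₀ Jm : ℕ} (hk : 1 ≤ k) (hn : n < (Jm + 1) * N₀) (m : ℕ) :
    ∀ (j : ℕ) (Y T : Finset (Fin n)) (L : List (Rec n)) (h : PastV n) (a : Fin n → Bool) (Λ : ℕ),
      L ≠ [] → T ⊆ Y → (∀ r ∈ L, (Y \ r.W).card ≤ K) →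
      L.length * (2 * k + 1) ^ m < (2 * k + 2) ^ m →
      Y \ T ⊆ exc k Y L → mu k Y T L a < (j + 1) * N₀ →
      (K + K / k) + N₀ + ρ + 1 + (ρ + 2) * (m * (Jm + 1) + j + 1) ≤ Y.card →
      ∃ (q : PastV n) (R Q : List (LR n)) (b : Fin n → Bool) (X : Finset (Fin n)) (Λ' : ℕ),
        PhaseV A ρ Y T h a q R Q b X (Y \ X)
          (K + K / k + N₀ + 2 * ρ + (ρ + 2) * (m * (Jm + 1) + j + 1)) Λ Λ' ∧
        X.card ≤ (ρ + 2) * (m * (Jm + 1) + j + 1) ∧
        R.length ≤ (m * (Jm + 1) + j + 1) * ((N₀ + (ρ + 1)) * bc n ρ) ∧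
        ∀ r ∈ L, Wipes X b r := by
  classical
  induction m with
  | zero =>
    intro j Y T L h a Λ hL0 hTY hL hc hE hmu hY
    exact absurd (by rw [← List.length_eq_zero_iff]; simpa using hc) hL0
  | succ m ih =>
    intro j
    induction j using Nat.strong_induction_on with
    | _ j ihj =>
    intro Y T L h a Λ hL0 hTY hL hc hE hmu hY
    have hEc : (exc k Y L).card ≤ K + K / k := exceptional_card hk hL0 hL
    have hYTc : (Y \ T).card ≤ K + K / k := (card_le_card hE).trans hEc
    have hTc : (Y \ T).card + T.card = Y.card := card_sdiff_add_card_eq_card hTY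
    -- the choice of the adversary
    have hchoice : ∀ J : Finset (Fin n), ∃ Z Ac : Finset (Fin n),
        (∃ x ∈ J, Gd k L a x ∧ Z = {x} ∧
          Ac = (Y \ (T \ J)) \ (exc k Y (rest L x (!a x)) ∪ {x})) ∨
        ((∀ x ∈ J, ¬ Gd k L a x) ∧ Z = ∅ ∧ Ac = (Y \ (T \ J)) \ exc k Y L) := by
      intro J
      by_cases hg : ∃ x ∈ J, Gd k L a x
      · obtain ⟨x, hx, hgx⟩ := hg
        exact ⟨_, _, Or.inl ⟨x, hx, hgx, rfl, rfl⟩⟩
      · push Not at hg
        exact ⟨_, _, Or.inr ⟨hg, rfl, rfl⟩⟩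
    choose Z Act hZA using hchoice
    have hAct : ∀ J ⊆ T, J.card = N₀ → Act J ⊆ Y \ (T \ J) := by
      intro J _ _
      rcases hZA J with ⟨x, _, _, _, h1⟩ | ⟨_, _, h1⟩
      · rw [h1]; exact sdiff_subset
      · rw [h1]; exact sdiff_subset
    have hZ : ∀ J ⊆ T, J.card = N₀ → Z J ⊆ J ∧ Disjoint (Z J) (Act J) := by
      intro J _ _
      rcases hZA J with ⟨x, hx, _, h1, h2⟩ | ⟨_, h1, _⟩
      · rw [h1, h2]
        refine ⟨by simpa using hx, ?_⟩
        rw [disjoint_singleton_left]
        intro h'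
        exact (mem_sdiff.1 h').2 (mem_union_right _ (mem_singleton_self x))
      · rw [h1]; simp
    have hring : (ρ + 2) * ((m + 1) * (Jm + 1) + j + 1)
        = (ρ + 2) + (ρ + 2) * ((m + 1) * (Jm + 1) + j) := by ring
    have hcT : N₀ + ρ + 1 ≤ T.card := by
      rw [hring] at hY
      omega
    obtain ⟨J, I, q₁, R₁, hJT, hJc, hIS, hIc, hq₁, hR₁, P₁⟩ :=
      roundV hA hTY a h Λ (N₀ := N₀) hcT Act Z hAct hZ
    have hIT : I ⊆ T := hIS.trans sdiff_subset
    rcases hZA J with ⟨x, hxJ, hgx, hZx, hAx⟩ | ⟨hbad, hZx, hAx⟩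
    · -- a good move
      rw [hZx] at P₁
      have hX₁c : (I ∪ {x}).card ≤ ρ + 2 := by
        have h1 := card_union_le I {x}
        rw [card_singleton] at h1
        omega
      have hX₁Y : I ∪ {x} ⊆ Y := P₁.sub
      have hYc : (Y \ (I ∪ {x})).card + (I ∪ {x}).card = Y.card :=
        card_sdiff_add_card_eq_card hX₁Y
      have hβ : (m + 1) * (Jm + 1) + j + 1 = (m * (Jm + 1) + Jm + 1) + (j + 1) := by ring
      have hβ' : (ρ + 2) * ((m + 1) * (Jm + 1) + j + 1)
          = (ρ + 2) * (m * (Jm + 1) + Jm + 1) + (ρ + 2) * j + (ρ + 2) := by rw [hβ]; ring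
      have hρj : 0 ≤ (ρ + 2) * j := Nat.zero_le _
      have hkill : ∀ r ∈ L, (x ∈ r.W ∧ (!a x) ≠ r.w x) → Wipes (I ∪ {x}) (tog a (J ∪ I)) r := by
        intro r hr hr'
        refine ⟨x, mem_union_right _ (mem_singleton_self x), hr'.1, ?_⟩
        rw [tog_mem (mem_union_left _ hxJ)]
        exact hr'.2
      by_cases hrest : rest L x (!a x) = []
      · -- nothing is left
        have hact : (((T \ J) \ I) ∪ Act J) = Y \ (I ∪ {x}) := by
          rw [hAx, hrest, exc_nil, empty_union]
          ext i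
          have h1 := @hTY i
          have h2 := @hIS i
          simp only [mem_union, mem_sdiff, mem_singleton] at h2 ⊢
          constructor
          · rintro (⟨⟨h3, h4⟩, h5⟩ | ⟨⟨h3, h4⟩, h5⟩)
            · exact ⟨h1 h3, fun h6 => h6.elim h5 fun h7 => h4 (h7 ▸ hxJ)⟩
            · exact ⟨h3, fun h6 => h6.elim (fun h7 => h4 (h2 h7)) h5⟩
          · rintro ⟨h3, h4⟩
            by_cases h5 : i ∈ T ∧ i ∉ J
            · exact Or.inl ⟨h5, fun h6 => h4 (Or.inl h6)⟩
            · exact Or.inr ⟨⟨h3, h5⟩, fun h6 => h4 (Or.inr h6)⟩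
        rw [hact] at P₁
        refine ⟨_, _, _, _, _, _, P₁.mono (by omega), by omega, ?_, ?_⟩
        · refine hR₁.trans ?_
          exact Nat.le_mul_of_pos_left _ (by omega)
        · intro r hr
          by_cases hr' : x ∈ r.W ∧ (!a x) ≠ r.w x
          · exact hkill r hr hr'
          · exfalso
            have : r ∈ rest L x (!a x) := List.mem_filter.2 ⟨hr, by
              simp only [Bool.not_eq_true', decide_eq_false_iff_not]; exact hr'⟩
            rw [hrest] at this
            simp at this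
      obtain ⟨q₂, R₂, Q₂, b₂, X₂, Λ₂, P₂, hX₂, hR₂, hw₂⟩ := ih Jm (Y \ (I ∪ {x}))
        (((T \ J) \ I) ∪ Act J) (rest L x (!a x)) (pstV h q₁) (tog a (J ∪ I)) (Λ + n + 1) hrest
        (by
          intro i hi
          rw [mem_union, hAx, mem_sdiff, mem_sdiff, mem_sdiff, mem_sdiff, mem_union,
            mem_singleton] at hi
          rw [mem_sdiff, mem_union, mem_singleton]
          rcases hi with hi | hi
          · refine ⟨hTY hi.1.1, ?_⟩
            rintro (h' | rfl)
            · exact hi.2 h'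
            · exact hi.1.2 hxJ
          · refine ⟨hi.1.1, ?_⟩
            rintro (h' | h')
            · exact hi.1.2 (by rw [mem_sdiff]; exact mem_sdiff.1 (hIS h'))
            · exact hi.2 (Or.inr h'))
        (fun r hr => (card_le_card (sdiff_subset_sdiff sdiff_subset (Subset.refl _))).trans
          (hL r (List.mem_of_mem_filter hr)))
        (rest_small hgx hc)
        (by
          intro i hi
          rw [mem_sdiff, mem_sdiff, mem_union, mem_union, mem_singleton, hAx] at hi
          simp only [mem_sdiff, mem_union, mem_singleton] at hi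
          refine mem_exc_of (Y := Y) ?_ (by
            rw [mem_sdiff, mem_union, mem_singleton]; exact hi.1)
          by_contra h'
          apply hi.2
          by_cases h1 : i ∈ T ∧ i ∉ J
          · exact Or.inl ⟨h1, fun h2 => hi.1.2 (Or.inl h2)⟩
          · refine Or.inr ⟨⟨hi.1.1, h1⟩, ?_⟩
            rintro (h2 | h2)
            · exact h' h2
            · exact hi.1.2 (Or.inr h2))
        (lt_of_le_of_lt ((mu_le _ _ _ _ _).trans ((card_le_univ _).trans (by simp))) hn)
        (by omega)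
      have P := P₁.glue_keep P₂
        (B := K + K / k + N₀ + 2 * ρ + (ρ + 2) * ((m + 1) * (Jm + 1) + j + 1))
        (by omega) (by omega)
      have hTT : (Y \ (I ∪ {x})) \ X₂ = Y \ ((I ∪ {x}) ∪ X₂) := by
        ext i; simp only [mem_sdiff, mem_union]; tauto
      rw [hTT] at P
      refine ⟨_, _, _, _, _, _, P, ?_, ?_, ?_⟩
      · have h1 := card_union_le (I ∪ {x}) X₂
        omega
      · rw [List.length_append, List.length_map]
        have h1 : ((m + 1) * (Jm + 1) + j + 1) * ((N₀ + (ρ + 1)) * bc n ρ)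
            = (m * (Jm + 1) + Jm + 1) * ((N₀ + (ρ + 1)) * bc n ρ) +
              j * ((N₀ + (ρ + 1)) * bc n ρ) + (N₀ + (ρ + 1)) * bc n ρ := by rw [hβ]; ring
        have h2 : 0 ≤ j * ((N₀ + (ρ + 1)) * bc n ρ) := Nat.zero_le _
        omega
      · intro r hr
        by_cases hr' : x ∈ r.W ∧ (!a x) ≠ r.w x
        · obtain ⟨y, h1, h2, h3⟩ := hkill r hr hr'
          refine ⟨y, mem_union_left _ h1, h2, ?_⟩
          rw [P₂.fix y fun h' => (mem_sdiff.1 h').2 h1]
          exact h3
        · obtain ⟨y, h1, h2, h3⟩ := hw₂ r (List.mem_filter.2 ⟨hr, by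
            simp only [Bool.not_eq_true', decide_eq_false_iff_not]; exact hr'⟩)
          exact ⟨y, mem_union_right _ h1, h2, h3⟩
    · -- no good move
      rw [hZx, union_empty] at P₁
      have hX₁Y : I ⊆ Y := P₁.sub
      have hYc : (Y \ I).card + I.card = Y.card := card_sdiff_add_card_eq_card hX₁Y
      have hdrop := mu_drop (k := k) (Y := Y) (T := T) (J := J) (I := I)
        (T' := ((T \ J) \ I) ∪ Act J) (L := L) (a := a) hL0 hTY hJT hbad (by
          intro i hi hiE
          rw [mem_union, hAx, mem_sdiff, mem_sdiff, mem_sdiff] at hi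
          rcases hi with hi | hi
          · exact hi.1
          · exact absurd hiE hi.2)
      have hj : j ≠ 0 := by
        rintro rfl
        omega
      obtain ⟨j', rfl⟩ : ∃ j', j = j' + 1 := ⟨j - 1, by omega⟩
      have hmul : (j' + 1 + 1) * N₀ = (j' + 1) * N₀ + N₀ := by ring
      have hβ' : (ρ + 2) * ((m + 1) * (Jm + 1) + (j' + 1) + 1)
          = (ρ + 2) * ((m + 1) * (Jm + 1) + j' + 1) + (ρ + 2) := by ring
      obtain ⟨q₂, R₂, Q₂, b₂, X₂, Λ₂, P₂, hX₂, hR₂, hw₂⟩ := ihj j' (by omega) (Y \ I)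
        (((T \ J) \ I) ∪ Act J) L (pstV h q₁) (tog a (J ∪ I)) (Λ + n + 1) hL0
        (by
          intro i hi
          rw [mem_union, hAx, mem_sdiff, mem_sdiff, mem_sdiff, mem_sdiff] at hi
          rw [mem_sdiff]
          rcases hi with hi | hi
          · exact ⟨hTY hi.1.1, hi.2⟩
          · refine ⟨hi.1.1, fun h' => hi.1.2 ?_⟩
            rw [mem_sdiff]; exact mem_sdiff.1 (hIS h'))
        (fun r hr => (card_le_card (sdiff_subset_sdiff sdiff_subset (Subset.refl _))).trans
          (hL r hr))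
        hc
        (by
          intro i hi
          rw [mem_sdiff, mem_sdiff, mem_union, hAx] at hi
          simp only [mem_sdiff] at hi
          refine mem_exc_of (Y := Y) ?_ (by rw [mem_sdiff]; exact hi.1)
          by_contra h'
          apply hi.2
          by_cases h1 : i ∈ T ∧ i ∉ J
          · exact Or.inl ⟨h1, hi.1.2⟩
          · exact Or.inr ⟨⟨hi.1.1, h1⟩, h'⟩)
        (by omega)
        (by omega)
      have P := P₁.glue_keep P₂
        (B := K + K / k + N₀ + 2 * ρ + (ρ + 2) * ((m + 1) * (Jm + 1) + (j' + 1) + 1))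
        (by omega) (by omega)
      have hTT : (Y \ I) \ X₂ = Y \ (I ∪ X₂) := by
        ext i; simp only [mem_sdiff, mem_union]; tauto
      rw [hTT] at P
      refine ⟨_, _, _, _, _, _, P, ?_, ?_, ?_⟩
      · have h1 := card_union_le I X₂
        omega
      · rw [List.length_append, List.length_map]
        have h1 : ((m + 1) * (Jm + 1) + (j' + 1) + 1) * ((N₀ + (ρ + 1)) * bc n ρ)
            = ((m + 1) * (Jm + 1) + j' + 1) * ((N₀ + (ρ + 1)) * bc n ρ) +
              (N₀ + (ρ + 1)) * bc n ρ := by ring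
        omega
      · intro r hr
        obtain ⟨y, h1, h2, h3⟩ := hw₂ r hr
        exact ⟨y, mem_union_right _ h1, h2, h3⟩

end Pool.Agent.J4H72.LV
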